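import Mathlib

/-!
# MP_c39626_al: every automorphism of `A_n` is induced by `S_n`, for `n` not divisible by `3`,
`n ≥ 4`
-/

namespace Sgd

open Equiv Equiv.Perm

variable {α : Type*} [Fintype α] [DecidableEq α]

/-- A property of elements of `A_n` which characterises the three-cycles. -/
def Q3 (x : Perm α) : Prop :=
  x ≠ 1 ∧ x ^ 3 = 1 ∧ ∀ g : Perm α, sign g = 1 → (x * (g * x * g⁻¹)) ^ 60 = 1

theorem pow_sixty (w : Perm α) (hw : w.support.card ≤ 6) : w ^ 60 = 1 := by
  rw [← orderOf_dvd_iff_pow_eq_one, ← lcm_cycleType, Multiset.lcm_dvd]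
  intro b hb
  have h1 := two_le_of_mem_cycleType hb
  have h2 := (le_card_support_of_mem_cycleType hb).trans hw
  interval_cases b <;> decide

theorem q3_of_three {x : Perm α} (h : x.IsThreeCycle) : Q3 x := by
  refine ⟨h.ne_one, ?_, ?_⟩
  · rw [← orderOf_dvd_iff_pow_eq_one, h.orderOf]
  · intro g _
    apply pow_sixty
    have h1 : (g * x * g⁻¹).support.card = 3 := by rw [card_support_conj, h.card_support]
    calc (x * (g * x * g⁻¹)).support.card ≤ (x.support ∪ (g * x * g⁻¹).support).card :=
          Finset.card_le_card (support_mul_le _ _)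
      _ ≤ x.support.card + (g * x * g⁻¹).support.card := Finset.card_union_le _ _
      _ = 6 := by rw [h1, h.card_support]

/-- Two three-cycles. -/
def z7 : Perm (Fin 7) := swap 0 1 * swap 1 2 * (swap 3 4 * swap 4 5)

/-- An even permutation. -/
def g7 : Perm (Fin 7) := swap 2 3 * swap 5 6

theorem z7_apply : ∀ i : Fin 7, z7 i = ![1, 2, 0, 4, 5, 3, 6] i := by decide

/-- A seven-cycle. -/
def w7 : Perm (Fin 7) := z7 * (g7 * z7 * g7⁻¹)

theorem w7_apply : ∀ i : Fin 7, w7 i = ![2, 4, 5, 1, 6, 3, 0] i := by decide

theorem w7_pow : w7 ^ 7 = 1 := by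
  ext i
  have h : ((w7 ^ 7) i) = i := by
    simp only [pow_succ, pow_zero, one_mul, Perm.mul_apply, w7_apply]
    fin_cases i <;> rfl
  rw [h]; rfl

theorem w7_pow_sixty : (w7 ^ 60) 0 ≠ 0 := by
  rw [show 60 = 7 * 8 + 4 by norm_num, pow_add, pow_mul, w7_pow, one_pow, one_mul]
  simp only [pow_succ, pow_zero, one_mul, Perm.mul_apply, w7_apply]
  decide

theorem three_of_q3 (hc : ¬ 3 ∣ Fintype.card α) {x : Perm α} (h : Q3 x) : x.IsThreeCycle := by
  obtain ⟨h1, h3, hg⟩ := h
  by_contra hne
  have hx3 : ∀ u, x (x (x u)) = u := by
    intro u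
    have := congrArg (fun s => s u) h3
    simpa [pow_succ] using this
  obtain ⟨a, ha⟩ : ∃ a, x a ≠ a := by
    by_contra hcon
    push Not at hcon
    exact h1 (Equiv.ext hcon)
  have hmov : ∀ u, x u ≠ u → x u ≠ x (x u) ∧ u ≠ x (x u) := by
    intro u hu
    refine ⟨fun h => hu (x.injective h).symm, fun h => ?_⟩
    have h4 := hx3 u
    rw [← h] at h4
    exact hu h4
  obtain ⟨d, hd, hda⟩ : ∃ d, x d ≠ d ∧ d ≠ a ∧ d ≠ x a ∧ d ≠ x (x a) := by
    by_contra hcon
    push Not at hcon
    apply hne
    rw [← card_support_eq_three_iff]
    have h4 : x.support = {a, x a, x (x a)} := by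
      ext u
      rw [mem_support]
      simp only [Finset.mem_insert, Finset.mem_singleton]
      constructor
      · intro hu
        by_contra h5
        push Not at h5
        exact h5.2.2 (hcon u hu h5.1 h5.2.1)
      · rintro (rfl | rfl | rfl)
        · exact ha
        · exact (hmov a ha).1.symm
        · intro h5
          exact (hmov a ha).1.symm (x.injective h5)
    rw [h4, Finset.card_eq_three]
    exact ⟨a, x a, x (x a), ha.symm, (hmov a ha).2, (hmov a ha).1, rfl⟩
  obtain ⟨e, he⟩ : ∃ e, x e = e :=
    exists_fixed_point_of_prime (p := 3) (n := 1) hc (by simpa using h3)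
  -- the seven points
  let f : Fin 7 → α := ![a, x a, x (x a), d, x d, x (x d), e]
  have hxf : ∀ i, x (f i) = f (z7 i) := by
    intro i
    rw [z7_apply]
    fin_cases i <;> simp [f, hx3, he]
  have hf : Function.Injective f := by
    have hea : ∀ u, x u ≠ u → u ≠ e := by
      rintro u hu rfl
      exact hu he
    have m1 := hmov a ha
    have m2 := hmov d hd
    have n1 : x a ≠ e := hea _ m1.1.symm
    have n2 : x (x a) ≠ e := hea _ (fun h5 => m1.1.symm (x.injective h5))
    have n3 : x d ≠ e := hea _ m2.1.symm
    have n4 : x (x d) ≠ e := hea _ (fun h5 => m2.1.symm (x.injective h5))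
    obtain ⟨k1, k2, k3⟩ := hda
    have l1 : x d ≠ x a := fun h => k1 (x.injective h)
    have l2 : x d ≠ x (x a) := fun h => k2 (x.injective h)
    have l3 : x d ≠ a := by
      intro h
      apply k3
      rw [← h, hx3]
    have l4 : x (x d) ≠ x a := fun h => l3 (x.injective h)
    have l5 : x (x d) ≠ x (x a) := fun h => l1 (x.injective h)
    have l6 : x (x d) ≠ a := by
      intro h
      apply k2
      rw [← h, hx3]
    intro i j hij
    fin_cases i <;> fin_cases j <;>
      first
        | rfl
        | (exfalso; simp [f] at hij; first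
            | exact ha hij.symm | exact ha hij
            | exact m1.1 hij | exact m1.1 hij.symm | exact m1.2 hij | exact m1.2 hij.symm
            | exact hd hij.symm | exact hd hij
            | exact m2.1 hij | exact m2.1 hij.symm | exact m2.2 hij | exact m2.2 hij.symm
            | exact hea a ha hij | exact hea a ha hij.symm
            | exact hea d hd hij | exact hea d hd hij.symm
            | exact n1 hij | exact n1 hij.symm | exact n2 hij | exact n2 hij.symm
            | exact n3 hij | exact n3 hij.symm | exact n4 hij | exact n4 hij.symm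
            | exact k1 hij | exact k1 hij.symm | exact k2 hij | exact k2 hij.symm
            | exact k3 hij | exact k3 hij.symm
            | exact l1 hij | exact l1 hij.symm | exact l2 hij | exact l2 hij.symm
            | exact l3 hij | exact l3 hij.symm | exact l4 hij | exact l4 hij.symm
            | exact l5 hij | exact l5 hij.symm | exact l6 hij | exact l6 hij.symm)
  let E : Fin 7 ≃ Set.range f := Equiv.ofInjective f hf
  classical
  let g : Perm α := g7.extendDomain E
  have hgf : ∀ i, g (f i) = f (g7 i) := fun i => extendDomain_apply_image g7 E i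
  have hgf' : ∀ i, g⁻¹ (f i) = f (g7⁻¹ i) := by
    intro i
    rw [Perm.inv_eq_iff_eq, hgf]
    congr 1
    exact (g7.apply_symm_apply i).symm
  have hsign : sign g = 1 := by
    show sign (g7.extendDomain E) = 1
    rw [sign_extendDomain]
    decide
  have h5 := hg g hsign
  have h6 : ∀ (n : ℕ) (i : Fin 7), ((x * (g * x * g⁻¹)) ^ n) (f i) =
      f ((w7 ^ n) i) := by
    intro n
    induction n with
    | zero => intro i; rfl
    | succ n ih =>
      intro i
      rw [pow_succ', Perm.mul_apply, ih, pow_succ', Perm.mul_apply]
      simp only [w7, Perm.mul_apply]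
      rw [hgf', hxf, hgf, hxf]
  have h7 := h6 60 0
  rw [h5] at h7
  change f 0 = _ at h7
  exact w7_pow_sixty (hf h7).symm

/-! ### Two three-cycles with product an involution -/

theorem three_pow {s : Perm α} (hs : s.IsThreeCycle) (u : α) : s (s (s u)) = u := by
  have h1 : s ^ 3 = 1 := by rw [← orderOf_dvd_iff_pow_eq_one, hs.orderOf]
  have := congrArg (fun t => t u) h1
  simpa [pow_succ] using this

theorem three_support {s : Perm α} (hs : s.IsThreeCycle) {u : α} (hu : s u ≠ u) :
    s.support = {u, s u, s (s u)} := by
  symm
  apply Finset.eq_of_subset_of_card_le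
  · intro v hv
    simp only [Finset.mem_insert, Finset.mem_singleton] at hv
    rw [mem_support]
    rcases hv with rfl | rfl | rfl
    · exact hu
    · exact fun h => hu (s.injective h)
    · exact fun h => hu (s.injective (s.injective h))
  · rw [hs.card_support]
    apply le_of_eq
    symm
    rw [Finset.card_eq_three]
    refine ⟨u, s u, s (s u), hu.symm, ?_, fun h => hu (s.injective h).symm, rfl⟩
    intro h
    have h4 := three_pow hs u
    rw [← h] at h4
    exact hu h4

/-- A three-cycle is determined by two consecutive values. -/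
theorem three_ext {s t : Perm α} (hs : s.IsThreeCycle) (ht : t.IsThreeCycle) {u : α}
    (hu : s u ≠ u) (h1 : s u = t u) (h2 : s (s u) = t (t u)) : s = t := by
  have h3 := three_support hs hu
  have h4 := three_support ht (by rw [← h1]; exact hu : t u ≠ u)
  ext v
  by_cases hv : s v = v
  · have : v ∉ t.support := by
      rw [h4, ← h2, ← h1, ← h3, notMem_support]
      exact hv
    rw [notMem_support] at this
    rw [hv, this]
  · have hv' : v ∈ s.support := mem_support.2 hv
    rw [h3] at hv'
    simp only [Finset.mem_insert, Finset.mem_singleton] at hv'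
    rcases hv' with rfl | rfl | rfl
    · exact h1
    · rw [h2, ← h1]
    · rw [three_pow hs, h2, three_pow ht]

/-- The common directed edge. -/
theorem common_edge {s t : Perm α} (hs : s.IsThreeCycle) (ht : t.IsThreeCycle)
    (h2 : (s * t) ^ 2 = 1) (h1 : s * t ≠ 1) : ∃ y, s y = t y ∧ s y ≠ y := by
  have hrel : ∀ x, s (t (s (t x))) = x := by
    intro x
    have := congrArg (fun r => r x) h2
    simpa [pow_succ] using this
  by_cases hsub : ∀ x, t x ≠ x → s x ≠ x
  · exfalso
    obtain ⟨x, hx⟩ : ∃ x, t x ≠ x := by
      by_contra hcon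
      push Not at hcon
      exact ht.ne_one (Equiv.ext hcon)
    have hsx := hsub x hx
    have S1 := three_support hs hsx
    have htx : t x ∈ s.support := by
      rw [mem_support]
      exact hsub _ (fun h => hx (t.injective h))
    have httx : t (t x) ∈ s.support := by
      rw [mem_support]
      exact hsub _ (fun h => hx (t.injective (t.injective h)))
    have hne1 : t (t x) ≠ x := by
      intro h
      have := three_pow ht x
      rw [h] at this
      exact hx this
    have hne2 : t (t x) ≠ t x := fun h => hx (t.injective h)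
    rw [S1] at htx httx
    simp only [Finset.mem_insert, Finset.mem_singleton] at htx httx
    rcases htx with h3 | h3 | h3
    · exact hx h3
    · -- `t = s`
      have h4 : t (t x) = s (s x) := by
        rcases httx with h5 | h5 | h5
        · exact absurd h5 hne1
        · exact absurd (h5.trans h3.symm) hne2
        · exact h5
      have h5 : s = t := three_ext hs ht hsx h3.symm h4.symm
      have h6 := hrel x
      rw [← h5, three_pow hs] at h6
      exact hsx h6
    · -- `t = s⁻¹`
      have h4 : t (t x) = s x := by
        rcases httx with h5 | h5 | h5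
        · exact absurd h5 hne1
        · exact h5
        · exact absurd (h5.trans h3.symm) hne2
      apply h1
      have h5 : s⁻¹ = t := by
        have e1 : s⁻¹ x = s (s x) := by
          rw [Perm.inv_eq_iff_eq]
          exact (three_pow hs x).symm
        have e2 : s⁻¹ (s⁻¹ x) = s x := by
          rw [e1, Perm.inv_eq_iff_eq]
        refine three_ext hs.inv ht ?_ (e1.trans h3.symm) (e2.trans h4.symm)
        rw [e1]
        intro h
        have := three_pow hs x
        rw [h] at this
        exact hsx this
      rw [← h5, mul_inv_cancel]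
  · push Not at hsub
    obtain ⟨x, hx, hsx⟩ := hsub
    refine ⟨t x, ?_, ?_⟩
    · -- `s (t x) = t⁻¹ x = t (t x)`
      have h3 := hrel x
      -- apply `t` and `s⁻¹`
      have h4 : t (s (t x)) = x := by
        have h5 : s (t (s (t x))) = s x := by rw [h3, hsx]
        exact s.injective h5
      have h6 : t (t (t x)) = x := three_pow ht x
      exact t.injective (h4.trans h6.symm)
    · intro h
      have h3 := hrel x
      rw [h] at h3
      have h4 : t (t x) = x := by
        have h5 : s (t (t x)) = s x := by rw [h3, hsx]
        exact s.injective h5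
      have h6 := three_pow ht x
      rw [h4] at h6
      exact hx h6

/-- The three-cycle `(a i b)`. -/
def tc (a b i : α) : Perm α := swap a b * swap a i

theorem tc_three {a b i : α} (hab : a ≠ b) (hia : i ≠ a) (hib : i ≠ b) :
    (tc a b i).IsThreeCycle :=
  isThreeCycle_swap_mul_swap_same hab hia.symm hib.symm

omit [Fintype α] in
theorem tc_b {a b i : α} (hab : a ≠ b) (hib : i ≠ b) : tc a b i b = a := by
  unfold tc
  rw [Perm.mul_apply, swap_apply_of_ne_of_ne hab.symm hib.symm, swap_apply_right]

omit [Fintype α] in
theorem tc_a {a b i : α} (hia : i ≠ a) (hib : i ≠ b) : tc a b i a = i := by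
  unfold tc
  rw [Perm.mul_apply, swap_apply_left, swap_apply_of_ne_of_ne hia hib]

omit [Fintype α] in
theorem tc_i {a b i : α} : tc a b i i = b := by
  unfold tc
  rw [Perm.mul_apply, swap_apply_right, swap_apply_left]

omit [Fintype α] in
theorem tc_ne {a b i u : α} (h1 : u ≠ a) (h2 : u ≠ b) (h3 : u ≠ i) : tc a b i u = u := by
  unfold tc
  rw [Perm.mul_apply, swap_apply_of_ne_of_ne h1 h3, swap_apply_of_ne_of_ne h1 h2]

omit [Fintype α] in
theorem tc_mul_sq {a b i j : α} (hab : a ≠ b) (hia : i ≠ a) (hib : i ≠ b) (hja : j ≠ a)
    (hjb : j ≠ b) (hij : i ≠ j) : (tc a b i * tc a b j) ^ 2 = 1 ∧ tc a b i * tc a b j ≠ 1 := by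
  constructor
  · ext u
    rw [sq]
    simp only [Perm.mul_apply, Perm.one_apply]
    by_cases h1 : u = a
    · subst h1
      rw [tc_a hja hjb, tc_ne hja hjb hij.symm, tc_i, tc_b hab hib]
    by_cases h2 : u = b
    · subst h2
      rw [tc_b hab hjb, tc_a hia hib, tc_ne hia hib hij, tc_i]
    by_cases h3 : u = i
    · subst h3
      rw [tc_ne hia hib hij, tc_i, tc_b hab hjb, tc_a hia hib]
    by_cases h4 : u = j
    · subst h4
      rw [tc_i, tc_b hab hib, tc_a hja hjb, tc_ne hja hjb hij.symm]
    · rw [tc_ne h1 h2 h4, tc_ne h1 h2 h3, tc_ne h1 h2 h4, tc_ne h1 h2 h3]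
  · intro h
    have h1 := congrArg (fun r => r a) h
    simp only [Perm.mul_apply, Perm.one_apply] at h1
    rw [tc_a hja hjb, tc_ne hja hjb hij.symm] at h1
    exact hja h1

/-- A subgroup containing all `(a i b)` contains all even permutations. -/
theorem mem_of_tc {a b : α} (hab : a ≠ b) (K : Subgroup (Perm α))
    (hK : ∀ g ∈ K, sign g = 1) (h : ∀ i, i ≠ a → i ≠ b → tc a b i ∈ K) (g : Perm α)
    (hg : sign g = 1) : g ∈ K := by
  have hstar : ∀ (u : α) (f : Perm α), u ≠ a → (f ∈ K ∨ swap a b * f ∈ K) →
      (swap a u * f ∈ K ∨ swap a b * (swap a u * f) ∈ K) := by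
    intro u f hu hf
    by_cases hub : u = b
    · subst hub
      rcases hf with hf | hf
      · right
        rw [← mul_assoc, swap_mul_self, one_mul]
        exact hf
      · left; exact hf
    · have h1 := h u hu hub
      rcases hf with hf | hf
      · right
        rw [← mul_assoc]
        exact K.mul_mem h1 hf
      · left
        have h2 : swap a u * f = (tc a b u)⁻¹ * (swap a b * f) := by
          unfold tc
          rw [mul_inv_rev, swap_inv, swap_inv, mul_assoc, ← mul_assoc (swap a b) (swap a b),
            swap_mul_self, one_mul]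
        rw [h2]
        exact K.mul_mem (K.inv_mem h1) hf
  have hall : ∀ f : Perm α, f ∈ K ∨ swap a b * f ∈ K := by
    intro f
    induction f using swap_induction_on with
    | one => left; exact K.one_mem
    | swap_mul f x y hxy ih =>
      by_cases hx : x = a
      · rw [hx]
        exact hstar y f (by rw [← hx]; exact hxy.symm) ih
      · by_cases hy : y = a
        · rw [hy, swap_comm]
          exact hstar x f hx ih
        · have h1 : swap x y = swap a x * swap a y * swap a x := by
            have := swap_mul_swap_mul_swap (x := y) (y := a) (z := x) (Ne.symm (Ne.symm hy))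
              hxy.symm
            rw [swap_comm y a, swap_comm x y] at *
            rw [← this]
          rw [h1, mul_assoc, mul_assoc]
          exact hstar x _ hx (hstar y _ hy (hstar x f hx ih))
  rcases hall g with h1 | h1
  · exact h1
  · exfalso
    have h2 := hK _ h1
    rw [Perm.sign_mul, sign_swap hab, hg] at h2
    exact absurd h2 (by decide)

end Sgd
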