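import Pool.Agent.Lib.MP_c39626_al.AutAlt

/-!
# MP_c39626_al: every automorphism of `A_n` is induced by `S_n`: reconstruction of the points
-/

namespace Sgd

open Equiv Equiv.Perm

variable {α : Type*} [Fintype α] [DecidableEq α]

theorem q3_map (φ : alternatingGroup α ≃* alternatingGroup α) (x : alternatingGroup α)
    (h : Q3 (x : Perm α)) : Q3 (φ x : Perm α) := by
  obtain ⟨h1, h3, hg⟩ := h
  refine ⟨?_, ?_, ?_⟩
  · intro h
    apply h1
    have h2 : φ x = 1 := Subtype.ext h
    rw [map_eq_one_iff φ φ.injective] at h2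
    rw [h2]; rfl
  · have h2 : x ^ 3 = 1 := Subtype.ext h3
    have h4 : (φ x) ^ 3 = 1 := by rw [← map_pow, h2, map_one]
    exact congrArg Subtype.val h4
  · intro g hgs
    let g' : alternatingGroup α := ⟨g, mem_alternatingGroup.2 hgs⟩
    obtain ⟨k, hk⟩ := φ.surjective g'
    have h2 : (x * (k * x * k⁻¹)) ^ 60 = 1 :=
      Subtype.ext (hg k (mem_alternatingGroup.1 k.2))
    have h4 : (φ x * (g' * φ x * g'⁻¹)) ^ 60 = 1 := by
      rw [← hk, ← map_inv, ← map_mul, ← map_mul, ← map_mul, ← map_pow, h2, map_one]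
    exact congrArg Subtype.val h4

theorem three_map (hc : ¬ 3 ∣ Fintype.card α) (φ : alternatingGroup α ≃* alternatingGroup α)
    (x : alternatingGroup α) (h : (x : Perm α).IsThreeCycle) : (φ x : Perm α).IsThreeCycle :=
  three_of_q3 hc (q3_map φ x (q3_of_three h))

/-- The third values. -/
theorem edge_cases {s : Perm α} (hs : s.IsThreeCycle) {b a c : α} (hba : s b = a) (hac : s a = c)
    (hne : s b ≠ b) {y : α} (hy : s y ≠ y) : y = b ∨ y = a ∨ y = c := by
  have h1 := three_support hs hne
  rw [← mem_support, h1, hba, hac] at hy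
  simpa using hy

/-- **Every automorphism of `A_n` is induced by `S_n`** (`n ≥ 4`, `3 ∤ n`). -/
theorem aut_alt (hc : ¬ 3 ∣ Fintype.card α) (h4 : 4 ≤ Fintype.card α)
    (φ : alternatingGroup α ≃* alternatingGroup α) :
    ∃ ζ : Perm α, ∀ g : alternatingGroup α, (φ g : Perm α) = ζ * g * ζ⁻¹ := by
  classical
  -- four points
  obtain ⟨f⟩ : Nonempty (Fin 4 ↪ α) := by
    rw [Function.Embedding.nonempty_iff_card_le]
    simpa using h4
  set a := f 0 with ha
  set b := f 1 with hb
  set i₂ := f 2 with hi₂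
  set i₃ := f 3 with hi₃
  have hab : a ≠ b := fun h => absurd (f.injective h) (by decide)
  have h2a : i₂ ≠ a := fun h => absurd (f.injective h) (by decide)
  have h2b : i₂ ≠ b := fun h => absurd (f.injective h) (by decide)
  have h3a : i₃ ≠ a := fun h => absurd (f.injective h) (by decide)
  have h3b : i₃ ≠ b := fun h => absurd (f.injective h) (by decide)
  have h23 : i₂ ≠ i₃ := fun h => absurd (f.injective h) (by decide)
  -- the images of the three-cycles `(a i b)`
  let T : ∀ i, i ≠ a → i ≠ b → alternatingGroup α := fun i h1 h2 =>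
    ⟨tc a b i, (tc_three hab h1 h2).mem_alternatingGroup⟩
  let S : ∀ i, i ≠ a → i ≠ b → Perm α := fun i h1 h2 => (φ (T i h1 h2) : Perm α)
  have hS : ∀ i h1 h2, (S i h1 h2).IsThreeCycle := fun i h1 h2 =>
    three_map hc φ _ (tc_three hab h1 h2)
  have hSS : ∀ i h1 h2 j h3 h4, i ≠ j →
      (S i h1 h2 * S j h3 h4) ^ 2 = 1 ∧ S i h1 h2 * S j h3 h4 ≠ 1 := by
    intro i h1 h2 j h3 h4 hij
    have h5 := tc_mul_sq hab h1 h2 h3 h4 hij
    constructor
    · have h6 : (T i h1 h2 * T j h3 h4) ^ 2 = 1 := Subtype.ext h5.1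
      have h7 : (φ (T i h1 h2) * φ (T j h3 h4)) ^ 2 = 1 := by
        rw [← map_mul, ← map_pow, h6, map_one]
      exact congrArg Subtype.val h7
    · intro h6
      apply h5.2
      have h7 : φ (T i h1 h2 * T j h3 h4) = 1 := by
        rw [map_mul]; exact Subtype.ext h6
      rw [map_eq_one_iff φ φ.injective] at h7
      exact congrArg Subtype.val h7
  have hSinj : ∀ i h1 h2 j h3 h4, S i h1 h2 = S j h3 h4 → i = j := by
    intro i h1 h2 j h3 h4 h
    have h5 : T i h1 h2 = T j h3 h4 := φ.injective (Subtype.ext h)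
    have h6 : tc a b i a = tc a b j a := congrArg (fun t : alternatingGroup α => (t : Perm α) a) h5
    rwa [tc_a h1 h2, tc_a h3 h4] at h6
  -- the common edge of the first two
  obtain ⟨b', hb'1, hb'2⟩ := common_edge (hS i₂ h2a h2b) (hS i₃ h3a h3b)
    (hSS i₂ h2a h2b i₃ h3a h3b h23).1 (hSS i₂ h2a h2b i₃ h3a h3b h23).2
  set s₂ := S i₂ h2a h2b with hs₂
  set s₃ := S i₃ h3a h3b with hs₃
  set a' := s₂ b' with ha'
  have ha'3 : s₃ b' = a' := hb'1.symm
  have hT2 := hS i₂ h2a h2b
  have hT3 := hS i₃ h3a h3b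
  have hc23 : s₂ a' ≠ s₃ a' := by
    intro h
    apply h23
    apply hSinj i₂ h2a h2b i₃ h3a h3b
    refine three_ext hT2 hT3 hb'2 hb'1 ?_
    show s₂ (s₂ b') = s₃ (s₃ b')
    rw [ha'3]; exact h
  -- every `S i` maps `b'` to `a'`
  have hmain : ∀ i h1 h2, S i h1 h2 b' = a' := by
    intro i h1 h2
    by_cases e2 : i = i₂
    · subst e2; rfl
    by_cases e3 : i = i₃
    · subst e3; exact ha'3
    set s := S i h1 h2 with hs
    have hsT := hS i h1 h2
    obtain ⟨y, hy1, hy2⟩ := common_edge hsT hT2 (hSS i h1 h2 i₂ h2a h2b e2).1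
      (hSS i h1 h2 i₂ h2a h2b e2).2
    obtain ⟨z, hz1, hz2⟩ := common_edge hsT hT3 (hSS i h1 h2 i₃ h3a h3b e3).1
      (hSS i h1 h2 i₃ h3a h3b e3).2
    have hy3 : s₂ y ≠ y := by rw [← hy1]; exact hy2
    have hz3 : s₃ z ≠ z := by rw [← hz1]; exact hz2
    have hb'3 : s₃ b' ≠ b' := by rw [ha'3]; exact hb'2
    have hcase2 := edge_cases hT2 (b := b') (a := a') (c := s₂ a') rfl rfl hb'2 hy3
    have hcase3 := edge_cases hT3 (b := b') (a := a') (c := s₃ a') ha'3 rfl hb'3 hz3
    have hcyc2 : s₂ (s₂ a') = b' := three_pow hT2 b'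
    have hcyc3 : s₃ (s₃ a') = b' := by
      have := three_pow hT3 b'
      rwa [ha'3] at this
    rcases hcase2 with h3 | h3 | h3
    · -- `y = b'`
      rw [h3] at hy1
      exact hy1
    · -- `y = a'`
      rw [h3] at hy1
      rcases hcase3 with h5 | h5 | h5
      · rw [h5] at hz1
        exact hz1.trans ha'3
      · rw [h5] at hz1
        exact absurd (hy1.symm.trans hz1) hc23
      · exfalso
        rw [h5, hcyc3] at hz1
        -- `s a' = s₂ a'`, `s (s₃ a') = b'`
        have hne : s a' ≠ a' := by rw [h3] at hy2; exact hy2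
        have h6 := three_support hsT hne
        have h7 : s₃ a' ∈ s.support := by
          rw [mem_support]; rw [h5] at hz2; exact hz2
        rw [h6] at h7
        simp only [Finset.mem_insert, Finset.mem_singleton] at h7
        rcases h7 with h8 | h8 | h8
        · exact hb'3 (by rw [ha'3]; exact (s₃.injective (h8.trans ha'3.symm)))
        · exact hc23 (hy1.symm.trans h8.symm)
        · rw [h8, three_pow hsT] at hz1
          exact hb'2 hz1
    · -- `y = s₂ a'`
      rw [h3, hcyc2] at hy1
      rcases hcase3 with h5 | h5 | h5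
      · rw [h5] at hz1
        exact hz1.trans ha'3
      · exfalso
        rw [h5] at hz1
        have hne : s a' ≠ a' := by rw [h5] at hz2; exact hz2
        have h6 := three_support hsT hne
        have h7 : s₂ a' ∈ s.support := by
          rw [mem_support]; rw [h3] at hy2; exact hy2
        rw [h6] at h7
        simp only [Finset.mem_insert, Finset.mem_singleton] at h7
        rcases h7 with h8 | h8 | h8
        · exact hb'2 (s₂.injective h8)
        · exact hc23 (h8.trans hz1)
        · rw [h8, three_pow hsT] at hy1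
          exact hb'2 hy1
      · exfalso
        rw [h5, hcyc3] at hz1
        exact hc23 (s.injective (hy1.trans hz1.symm))
  have hba' : b' ≠ a' := hb'2.symm
  have hSb : ∀ i h1 h2, S i h1 h2 b' ≠ b' := fun i h1 h2 => by
    rw [hmain i h1 h2]; exact hb'2
  have hSa : ∀ i h1 h2, S i h1 h2 a' ≠ a' := by
    intro i h1 h2 h
    have := (S i h1 h2).injective (h.trans (hmain i h1 h2).symm)
    exact hba' this.symm
  have hSa' : ∀ i h1 h2, S i h1 h2 a' ≠ b' := by
    intro i h1 h2 h
    have h5 := three_pow (hS i h1 h2) b'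
    rw [hmain i h1 h2, h, hmain i h1 h2] at h5
    exact hba' h5.symm
  -- the permutation
  let F : α → α := fun i => if h1 : i = a then a' else if h2 : i = b then b' else S i h1 h2 a'
  have hFa : F a = a' := dif_pos rfl
  have hFb : F b = b' := by
    show (if h1 : b = a then a' else if h2 : b = b then b' else S b h1 h2 a') = b'
    rw [dif_neg hab.symm, dif_pos rfl]
  have hFi : ∀ i h1 h2, F i = S i h1 h2 a' := by
    intro i h1 h2
    show (if h1 : i = a then a' else if h2 : i = b then b' else S i h1 h2 a') = _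
    rw [dif_neg h1, dif_neg h2]
  have hFinj : Function.Injective F := by
    intro i j hij
    by_cases ia : i = a
    · by_cases ja : j = a
      · rw [ia, ja]
      · by_cases jb : j = b
        · rw [ia, jb, hFa, hFb] at hij
          exact absurd hij.symm hba'
        · rw [ia, hFa, hFi j ja jb] at hij
          exact absurd hij.symm (hSa j ja jb)
    · by_cases ib : i = b
      · by_cases ja : j = a
        · rw [ja, ib, hFa, hFb] at hij
          exact absurd hij hba'
        · by_cases jb : j = b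
          · rw [ib, jb]
          · rw [ib, hFb, hFi j ja jb] at hij
            exact absurd hij.symm (hSa' j ja jb)
      · by_cases ja : j = a
        · rw [ja, hFa, hFi i ia ib] at hij
          exact absurd hij (hSa i ia ib)
        · by_cases jb : j = b
          · rw [jb, hFb, hFi i ia ib] at hij
            exact absurd hij (hSa' i ia ib)
          · rw [hFi i ia ib, hFi j ja jb] at hij
            apply hSinj i ia ib j ja jb
            refine three_ext (hS i ia ib) (hS j ja jb) (hSb i ia ib) ?_ ?_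
            · rw [hmain i ia ib, hmain j ja jb]
            · rw [hmain i ia ib, hmain j ja jb]; exact hij
  let ζ : Perm α := Equiv.ofBijective F (Finite.injective_iff_bijective.1 hFinj)
  have hζ : ∀ i, ζ i = F i := fun i => rfl
  have hconj : ∀ i h1 h2, S i h1 h2 = ζ * tc a b i * ζ⁻¹ := by
    intro i h1 h2
    have hthree : (ζ * tc a b i * ζ⁻¹).IsThreeCycle := by
      rw [← card_support_eq_three_iff, card_support_conj, (tc_three hab h1 h2).card_support]
    have e1 : ζ⁻¹ b' = b := by rw [Perm.inv_eq_iff_eq, hζ, hFb]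
    have e2 : ζ⁻¹ a' = a := by rw [Perm.inv_eq_iff_eq, hζ, hFa]
    have e3 : (ζ * tc a b i * ζ⁻¹) b' = a' := by
      rw [Perm.mul_apply, Perm.mul_apply, e1, tc_b hab h2, hζ, hFa]
    refine three_ext (hS i h1 h2) hthree (hSb i h1 h2) ?_ ?_
    · rw [hmain i h1 h2, e3]
    · rw [hmain i h1 h2, e3, Perm.mul_apply, Perm.mul_apply, e2, tc_a h1 h2, hζ, hFi i h1 h2]
  refine ⟨ζ, fun g => ?_⟩
  let K : Subgroup (Perm α) :=
    { carrier := {g | ∃ h : sign g = 1, (φ ⟨g, mem_alternatingGroup.2 h⟩ : Perm α) = ζ * g * ζ⁻¹}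
      one_mem' := ⟨Perm.sign_one, by
        have : (⟨1, mem_alternatingGroup.2 Perm.sign_one⟩ : alternatingGroup α) = 1 := rfl
        rw [this, map_one]
        simp⟩
      mul_mem' := by
        rintro x y ⟨hx, hx'⟩ ⟨hy, hy'⟩
        have hxy : sign (x * y) = 1 := by rw [Perm.sign_mul, hx, hy, one_mul]
        refine ⟨hxy, ?_⟩
        have : (⟨x * y, mem_alternatingGroup.2 hxy⟩ : alternatingGroup α) =
            ⟨x, mem_alternatingGroup.2 hx⟩ * ⟨y, mem_alternatingGroup.2 hy⟩ := rfl
        rw [this, map_mul, Subgroup.coe_mul, hx', hy']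
        group
      inv_mem' := by
        rintro x ⟨hx, hx'⟩
        have hxi : sign x⁻¹ = 1 := by rw [Perm.sign_inv, hx]
        refine ⟨hxi, ?_⟩
        have : (⟨x⁻¹, mem_alternatingGroup.2 hxi⟩ : alternatingGroup α) =
            (⟨x, mem_alternatingGroup.2 hx⟩)⁻¹ := rfl
        rw [this, map_inv, Subgroup.coe_inv, hx']
        group }
  have hmem : (g : Perm α) ∈ K := by
    apply mem_of_tc hab K (fun g hg => hg.1)
    · intro i h1 h2
      exact ⟨(tc_three hab h1 h2).sign, hconj i h1 h2⟩
    · exact mem_alternatingGroup.1 g.2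
  exact hmem.2

end Sgd
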