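import Mathlib

/-!
# MP_c39626_al: automorphisms of a power of a non-abelian simple group
-/

namespace Sgd

section

variable {T : Type*} [Group T] [IsSimpleGroup T]

theorem exists_noncomm (hnc : ∃ a b : T, a * b ≠ b * a) {x : T} (hx : x ≠ 1) :
    ∃ s, x * s ≠ s * x := by
  by_contra hcon
  push Not at hcon
  have h1 : x ∈ Subgroup.center T := Subgroup.mem_center_iff.2 (fun g => (hcon g).symm)
  rcases (inferInstance : (Subgroup.center T).Normal).eq_bot_or_eq_top with h2 | h2
  · rw [h2, Subgroup.mem_bot] at h1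
    exact hx h1
  · obtain ⟨a, b, hab⟩ := hnc
    have h3 : a ∈ Subgroup.center T := by rw [h2]; trivial
    exact hab ((Subgroup.mem_center_iff.1 h3 b).symm)

variable {ι : Type*} [DecidableEq ι]

theorem single_mem (hnc : ∃ a b : T, a * b ≠ b * a) (Φ : (ι → T) ≃* (ι → T)) (i : ι) :
    ∃ j, ∀ t : T, ∀ k, k ≠ j → Φ (Pi.mulSingle i t) k = 1 := by
  obtain ⟨a, b, hab⟩ := hnc
  have ha : a ≠ 1 := by
    rintro rfl
    exact hab (by rw [one_mul, mul_one])
  have hm : Φ (Pi.mulSingle i a) ≠ 1 := by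
    intro h
    rw [map_eq_one_iff Φ Φ.injective, Pi.mulSingle_eq_one_iff] at h
    exact ha h
  obtain ⟨j, hj⟩ := Function.ne_iff.1 hm
  refine ⟨j, ?_⟩
  let K : Subgroup T :=
    { carrier := {t | ∀ k, k ≠ j → Φ (Pi.mulSingle i t) k = 1}
      one_mem' := by
        intro k _
        rw [Pi.mulSingle_one, map_one]
        rfl
      mul_mem' := by
        intro x y hx hy k hk
        rw [Pi.mulSingle_mul, map_mul, Pi.mul_apply, hx k hk, hy k hk, one_mul]
      inv_mem' := by
        intro x hx k hk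
        rw [Pi.mulSingle_inv, map_inv, Pi.inv_apply, hx k hk, inv_one] }
  have hK : K.Normal := by
    refine ⟨fun x hx g => ?_⟩
    intro k hk
    rw [Pi.mulSingle_mul, Pi.mulSingle_mul, map_mul, map_mul, Pi.mul_apply, Pi.mul_apply,
      Pi.mulSingle_inv, map_inv, Pi.inv_apply, hx k hk, mul_one, mul_inv_cancel]
  obtain ⟨s, hs⟩ := exists_noncomm ⟨a, b, hab⟩ (x := Φ (Pi.mulSingle i a) j) hj
  -- a nontrivial element of `K`
  set r := Φ.symm (Pi.mulSingle j s) with hr
  have hΦr : Φ r = Pi.mulSingle j s := Φ.apply_symm_apply _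
  set c := a * r i * a⁻¹ * (r i)⁻¹ with hc
  have hcomm : Pi.mulSingle i c = Pi.mulSingle i a * r * (Pi.mulSingle i a)⁻¹ * r⁻¹ := by
    funext k
    by_cases hk : k = i
    · subst hk
      simp only [Pi.mulSingle_eq_same, Pi.mul_apply, Pi.inv_apply]
      rfl
    · simp [Pi.mulSingle_eq_of_ne hk]
  have himg : Φ (Pi.mulSingle i c) = Φ (Pi.mulSingle i a) * Pi.mulSingle j s *
      (Φ (Pi.mulSingle i a))⁻¹ * (Pi.mulSingle j s)⁻¹ := by
    rw [hcomm, map_mul, map_mul, map_mul, map_inv, map_inv, hΦr]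
  have hcK : c ∈ K := by
    intro k hk
    rw [himg]
    simp only [Pi.mul_apply, Pi.inv_apply, Pi.mulSingle_eq_of_ne hk]
    group
  have hc1 : c ≠ 1 := by
    intro h
    rw [h, Pi.mulSingle_one, map_one] at himg
    have h2 := congrFun himg j
    simp only [Pi.mul_apply, Pi.inv_apply, Pi.mulSingle_eq_same, Pi.one_apply] at h2
    apply hs
    have h3 := h2.symm
    rw [mul_inv_eq_one, mul_inv_eq_iff_eq_mul] at h3
    exact h3
  rcases hK.eq_bot_or_eq_top with h2 | h2
  · rw [h2, Subgroup.mem_bot] at hcK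
    exact absurd hcK hc1
  · intro t
    have : t ∈ K := by rw [h2]; trivial
    exact this

/-- Automorphisms of `T ^ ι` permute the factors. -/
theorem aut_pow [Finite T] (hnc : ∃ a b : T, a * b ≠ b * a) (Φ : (ι → T) ≃* (ι → T)) :
    ∃ (π : ι → ι) (φ : ι → T ≃* T), Function.Injective π ∧ ∀ f i, Φ f (π i) = φ i (f i) := by
  choose π hπ using single_mem hnc Φ
  let ψ : ι → T →* T := fun i =>
    (Pi.evalMonoidHom (fun _ => T) (π i)).comp (Φ.toMonoidHom.comp (MonoidHom.mulSingle (fun _ => T) i))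
  have hψ : ∀ i t, ψ i t = Φ (Pi.mulSingle i t) (π i) := fun _ _ => rfl
  have hsingle : ∀ i t, Φ (Pi.mulSingle i t) = Pi.mulSingle (π i) (ψ i t) := by
    intro i t
    funext k
    by_cases hk : k = π i
    · subst hk
      rw [Pi.mulSingle_eq_same, hψ]
    · rw [Pi.mulSingle_eq_of_ne hk, hπ i t k hk]
  have hinj : ∀ i, Function.Injective (ψ i) := by
    intro i x y hxy
    have h1 : Φ (Pi.mulSingle i x) = Φ (Pi.mulSingle i y) := by rw [hsingle, hsingle, hxy]
    exact Pi.mulSingle_injective i (Φ.injective h1)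
  have hbij : ∀ i, Function.Bijective (ψ i) := fun i => Finite.injective_iff_bijective.1 (hinj i)
  have hπinj : Function.Injective π := by
    intro i i' hii
    by_contra hne
    obtain ⟨a, b, hab⟩ := hnc
    obtain ⟨x, hx⟩ := (hbij i).2 a
    obtain ⟨y, hy⟩ := (hbij i').2 b
    have h1 : Pi.mulSingle i x * Pi.mulSingle i' y = Pi.mulSingle i' y * (Pi.mulSingle i x : ι → T) := by
      exact Pi.mulSingle_commute (f := fun _ : ι => T) hne x y
    have h2 := congrArg Φ h1
    rw [map_mul, map_mul, hsingle, hsingle, hx, hy, hii, ← Pi.mulSingle_mul,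
      ← Pi.mulSingle_mul] at h2
    exact hab (Pi.mulSingle_injective _ h2)
  refine ⟨π, fun i => MulEquiv.ofBijective (ψ i) (hbij i), hπinj, ?_⟩
  intro f i
  show Φ f (π i) = ψ i (f i)
  -- `f' = f * single (f i)⁻¹` is trivial at `i`
  set f' : ι → T := f * Pi.mulSingle i (f i)⁻¹ with hf'
  have h1 : f' i = 1 := by simp [hf']
  have hcomm : ∀ t, f' * Pi.mulSingle i t = Pi.mulSingle i t * f' := by
    intro t
    funext k
    by_cases hk : k = i
    · subst hk
      simp [h1]
    · simp [Pi.mulSingle_eq_of_ne hk]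
  have h2 : Φ f' (π i) = 1 := by
    by_contra hne
    obtain ⟨s, hs⟩ := exists_noncomm hnc hne
    obtain ⟨t, ht⟩ := (hbij i).2 s
    have h3 : Φ f' * Φ (Pi.mulSingle i t) = Φ (Pi.mulSingle i t) * Φ f' := by
      rw [← map_mul, hcomm t, map_mul]
    rw [hsingle, ht] at h3
    have h4 := congrFun h3 (π i)
    simp only [Pi.mul_apply, Pi.mulSingle_eq_same] at h4
    exact hs h4
  have h3 : f = f' * Pi.mulSingle i (f i) := by
    rw [hf', mul_assoc, ← Pi.mulSingle_mul, inv_mul_cancel, Pi.mulSingle_one, mul_one]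
  rw [h3, map_mul, Pi.mul_apply, h2, one_mul, hsingle, Pi.mulSingle_eq_same, ← h3]

end

end Sgd
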