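import Pool.Agent.Lib.MP_c39626_al.Lift
import Pool.Agent.Lib.MP_c39626_al.AutAlt2
import Pool.Agent.Lib.MP_c39626_al.Pow

/-!
# MP_c39626_al: a group with a normal subgroup `N ≅ A_p ^ ι` with trivial centraliser embeds into
the wreath product
-/

namespace Sgd

open Equiv Equiv.Perm

/-- A permutation centralising `A_n`, `n ≥ 4`, is trivial. -/
theorem centr_alt {α : Type*} [Fintype α] [DecidableEq α] (h4 : 4 ≤ Fintype.card α) (c : Perm α)
    (h : ∀ t : Perm α, sign t = 1 → c * t = t * c) : c = 1 := by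
  by_contra hc
  obtain ⟨u, hu⟩ : ∃ u, c u ≠ u := by
    by_contra hcon
    push Not at hcon
    exact hc (Equiv.ext hcon)
  obtain ⟨w, hw, w', hw', hne⟩ : ∃ w, w ∉ ({u, c u} : Finset α) ∧ ∃ w', w' ∉ ({u, c u} : Finset α) ∧
      w ≠ w' := by
    have h1 : 2 ≤ ((Finset.univ : Finset α) \ {u, c u}).card := by
      rw [Finset.card_sdiff_of_subset (Finset.subset_univ _), Finset.card_univ]
      have : ({u, c u} : Finset α).card ≤ 2 := Finset.card_le_two
      omega
    obtain ⟨w, hw, w', hw', hne⟩ := Finset.one_lt_card.1 (show 1 < _ from h1)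
    exact ⟨w, (Finset.mem_sdiff.1 hw).2, w', (Finset.mem_sdiff.1 hw').2, hne⟩
  simp only [Finset.mem_insert, Finset.mem_singleton, not_or] at hw hw'
  have h1 := h (tc (c u) w w') (tc_three (Ne.symm hw.2) hw'.2 hne.symm).sign
  have h2 := congrArg (fun s => s u) h1
  simp only [Perm.mul_apply] at h2
  rw [tc_ne hu.symm (Ne.symm hw.1) (Ne.symm hw'.1), tc_a hw'.2 hne.symm] at h2
  exact hw'.2 h2.symm

section

variable {ι : Type} {p : ℕ} {G : Type*} [Group G] (N : Subgroup G) [N.Normal] [NeZero p]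
  (e : N ≃* (ι → alternatingGroup (ZMod p)))

/-- Conjugation by `g` on `N`. -/
def cj (g : G) (n : N) : N := ⟨g * n * g⁻¹, (inferInstance : N.Normal).conj_mem n n.2 g⟩

/-- `x` describes the action of `g` on `N` by conjugation. -/
def Rep (g : G) (x : Perm (ι × ZMod p)) : Prop :=
  ∀ (n : N) (i j : ι) (ζ : Perm (ZMod p)), Acts x i j ζ →
    (e (cj N g n) j : Perm (ZMod p)) = ζ * (e n i : Perm (ZMod p)) * ζ⁻¹

variable {N e}

theorem Rep.mul {g h : G} {x y : Perm (ι × ZMod p)} (hx : x ∈ wreath ι p) (hy : y ∈ wreath ι p)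
    (h1 : Rep N e g x) (h2 : Rep N e h y) : Rep N e (g * h) (x * y) := by
  intro n i k ω hω
  obtain ⟨η, hη⟩ := exists_acts hy i
  obtain ⟨ξ, hξ⟩ := exists_acts hx (y (i, 0)).1
  obtain ⟨e1, e2⟩ := hω.unique (hη.mul hξ)
  have h3 : cj N (g * h) n = cj N g (cj N h n) := by
    apply Subtype.ext
    show g * h * n * (g * h)⁻¹ = g * (h * n * h⁻¹) * g⁻¹
    group
  rw [h3, e1, e2, h1 _ _ _ _ hξ, h2 _ _ _ _ hη]
  group

theorem Rep.unique [Finite ι] [DecidableEq ι] (hp4 : 4 ≤ p) {g : G} {x y : Perm (ι × ZMod p)}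
    (hx : x ∈ wreath ι p) (hy : y ∈ wreath ι p)
    (h1 : Rep N e g x) (h2 : Rep N e g y) : x = y := by
  have hcard : 4 ≤ Fintype.card (ZMod p) := by rw [ZMod.card]; exact hp4
  ext ⟨i, a⟩ : 1
  obtain ⟨ζ, hζ⟩ := exists_acts hx i
  obtain ⟨ξ, hξ⟩ := exists_acts hy i
  set j := (x (i, 0)).1
  set k := (y (i, 0)).1
  have hval : ∀ t : alternatingGroup (ZMod p),
      (e (cj N g (e.symm (Pi.mulSingle i t))) j : Perm (ZMod p)) = ζ * t * ζ⁻¹ := by
    intro t
    rw [h1 _ _ _ _ hζ, MulEquiv.apply_symm_apply, Pi.mulSingle_eq_same]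
  have hjk : k = j := by
    by_contra hne
    obtain ⟨η, hη⟩ := exists_acts ((wreath ι p).inv_mem hy) j
    set l := (y⁻¹ (j, 0)).1
    have hη' := hη.inv
    rw [inv_inv] at hη'
    have hli : i ≠ l := by
      rintro hil
      rw [← hil] at hη'
      exact hne ((hξ.unique hη').1)
    have hnt : Nontrivial (alternatingGroup (ZMod p)) := by
      have := alternatingGroup.nontrivial_of_three_le_card (α := ZMod p)
        (by rw [Nat.card_zmod]; omega)
      exact this
    obtain ⟨t, ht⟩ := exists_ne (1 : alternatingGroup (ZMod p))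
    have h3 := h2 (e.symm (Pi.mulSingle i t)) l j _ hη'
    rw [hval t, MulEquiv.apply_symm_apply, Pi.mulSingle_eq_of_ne (Ne.symm hli)] at h3
    apply ht
    apply Subtype.ext
    have h4 : ζ * (t : Perm (ZMod p)) * ζ⁻¹ = 1 := by rw [h3]; simp
    have h5 := mul_inv_eq_iff_eq_mul.1 h4
    rw [one_mul] at h5
    exact mul_eq_left.1 h5
  rw [hjk] at hξ
  have hζξ : ζ = ξ := by
    have h3 : ξ⁻¹ * ζ = 1 := by
      apply centr_alt hcard
      intro t ht
      have h4 := hval ⟨t, mem_alternatingGroup.2 ht⟩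
      rw [h2 _ _ _ _ hξ, MulEquiv.apply_symm_apply, Pi.mulSingle_eq_same] at h4
      have h5 : ξ * t * ξ⁻¹ = ζ * t * ζ⁻¹ := h4
      calc ξ⁻¹ * ζ * t = ξ⁻¹ * (ζ * t * ζ⁻¹) * ζ := by group
        _ = ξ⁻¹ * (ξ * t * ξ⁻¹) * ζ := by rw [h5]
        _ = t * (ξ⁻¹ * ζ) := by group
    exact (inv_mul_eq_one.1 h3).symm
  rw [hζ a, hξ a, hζξ]

theorem exists_rep [Finite ι] [DecidableEq ι] [Fact p.Prime] (hp5 : 5 ≤ p) (g : G) :
    ∃ x ∈ wreath ι p, Rep N e g x := by
  have hp : p.Prime := Fact.out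
  have hcard : Fintype.card (ZMod p) = p := ZMod.card p
  have hsimple : IsSimpleGroup (alternatingGroup (ZMod p)) :=
    alternatingGroup.isSimpleGroup (by rw [Nat.card_zmod]; exact hp5)
  have h3 : ¬ 3 ∣ Fintype.card (ZMod p) := by
    rw [hcard]
    intro h
    have := (Nat.prime_dvd_prime_iff_eq Nat.prime_three hp).1 h
    omega
  have hnc : ∃ a b : alternatingGroup (ZMod p), a * b ≠ b * a := by
    obtain ⟨f⟩ : Nonempty (Fin 4 ↪ ZMod p) := by
      rw [Function.Embedding.nonempty_iff_card_le]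
      rw [hcard]; simp; omega
    have d01 : f 0 ≠ f 1 := fun h => absurd (f.injective h) (by decide)
    have d20 : f 2 ≠ f 0 := fun h => absurd (f.injective h) (by decide)
    have d21 : f 2 ≠ f 1 := fun h => absurd (f.injective h) (by decide)
    have d30 : f 3 ≠ f 0 := fun h => absurd (f.injective h) (by decide)
    have d31 : f 3 ≠ f 1 := fun h => absurd (f.injective h) (by decide)
    have d23 : f 2 ≠ f 3 := fun h => absurd (f.injective h) (by decide)
    refine ⟨⟨tc (f 0) (f 1) (f 2), (tc_three d01 d20 d21).mem_alternatingGroup⟩,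
      ⟨tc (f 0) (f 1) (f 3), (tc_three d01 d30 d31).mem_alternatingGroup⟩, ?_⟩
    intro h
    have h1 : tc (f 0) (f 1) (f 2) (tc (f 0) (f 1) (f 3) (f 0)) =
        tc (f 0) (f 1) (f 3) (tc (f 0) (f 1) (f 2) (f 0)) :=
      congrArg (fun t : alternatingGroup (ZMod p) => (t : Perm (ZMod p)) (f 0)) h
    rw [tc_a d30 d31, tc_ne d30 d31 d23.symm, tc_a d20 d21, tc_ne d20 d21 d23] at h1
    exact d23 h1.symm
  obtain ⟨π, φ, hπ, hφ⟩ := aut_pow hnc (e.symm.trans ((MulAut.conjNormal g).trans e))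
  choose ζ hζ using fun i => aut_alt h3 (by rw [hcard]; omega) (φ i)
  let π' : Perm ι := Equiv.ofBijective π (Finite.injective_iff_bijective.1 hπ)
  refine ⟨Equiv.prodShear π' ζ, ?_, ?_⟩
  · intro u v
    show π u.1 = π v.1 ↔ u.1 = v.1
    exact hπ.eq_iff
  · intro n i j ξ hξ
    have hact : Acts (Equiv.prodShear π' ζ : Perm (ι × ZMod p)) i (π i) (ζ i) := fun _ => rfl
    obtain ⟨e1, e2⟩ := hξ.unique hact
    rw [e1, e2]
    have h4 := hφ (e n) i
    have h5 : (e.symm.trans ((MulAut.conjNormal g).trans e)) (e n) = e (cj N g n) := by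
      simp only [MulEquiv.trans_apply, MulEquiv.symm_apply_apply]
      exact congrArg e (Subtype.ext (MulAut.conjNormal_apply g n))
    rw [h5] at h4
    rw [h4, hζ]

variable (N e)

/-- The embedding into the wreath product. -/
noncomputable def emb [Finite ι] [DecidableEq ι] [Fact p.Prime] (hp5 : 5 ≤ p) :
    G →* wreath ι p where
  toFun g := ⟨(exists_rep (N := N) (e := e) hp5 g).choose,
    (exists_rep (N := N) (e := e) hp5 g).choose_spec.1⟩
  map_one' := by
    apply Subtype.ext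
    refine Rep.unique (N := N) (e := e) (g := 1) (by omega)
      (exists_rep (N := N) (e := e) hp5 1).choose_spec.1 (wreath ι p).one_mem
      (exists_rep (N := N) (e := e) hp5 1).choose_spec.2 ?_
    intro n i j ζ hζ
    obtain ⟨e1, e2⟩ := hζ.unique (Acts.one i)
    have h1 : cj N 1 n = n := by
      apply Subtype.ext
      show 1 * (n : G) * 1⁻¹ = n
      simp
    rw [h1, e1, e2]
    simp
  map_mul' g h := by
    apply Subtype.ext
    refine Rep.unique (N := N) (e := e) (g := g * h) (by omega)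
      (exists_rep (N := N) (e := e) hp5 (g * h)).choose_spec.1
      ((wreath ι p).mul_mem (exists_rep (N := N) (e := e) hp5 g).choose_spec.1
        (exists_rep (N := N) (e := e) hp5 h).choose_spec.1)
      (exists_rep (N := N) (e := e) hp5 (g * h)).choose_spec.2 ?_
    exact Rep.mul (exists_rep (N := N) (e := e) hp5 g).choose_spec.1
      (exists_rep (N := N) (e := e) hp5 h).choose_spec.1
      (exists_rep (N := N) (e := e) hp5 g).choose_spec.2
      (exists_rep (N := N) (e := e) hp5 h).choose_spec.2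

theorem emb_rep [Finite ι] [DecidableEq ι] [Fact p.Prime] (hp5 : 5 ≤ p) (g : G) :
    Rep N e g (emb N e hp5 g : Perm (ι × ZMod p)) :=
  (exists_rep (N := N) (e := e) hp5 g).choose_spec.2

theorem emb_eq [Finite ι] [DecidableEq ι] [Fact p.Prime] (hp5 : 5 ≤ p) (g : G)
    (x : wreath ι p) (hx : Rep N e g x) : emb N e hp5 g = x :=
  Subtype.ext (Rep.unique (by omega) (emb N e hp5 g).2 x.2 (emb_rep N e hp5 g) hx)

theorem emb_injective [Finite ι] [DecidableEq ι] [Fact p.Prime] (hp5 : 5 ≤ p)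
    (hcent : ∀ g : G, (∀ n ∈ N, g * n = n * g) → g = 1) : Function.Injective (emb N e hp5) := by
  rw [injective_iff_map_eq_one]
  intro g hg
  apply hcent
  intro n hn
  have h1 := emb_rep N e hp5 g
  rw [hg] at h1
  have h2 : cj N g ⟨n, hn⟩ = ⟨n, hn⟩ := by
    apply e.injective
    funext i
    apply Subtype.ext
    rw [h1 ⟨n, hn⟩ i i 1 (Acts.one i)]
    simp
  have h3 : g * n * g⁻¹ = n := congrArg Subtype.val h2
  exact mul_inv_eq_iff_eq_mul.1 h3

theorem emb_diag [Finite ι] [DecidableEq ι] [Fact p.Prime] (hp5 : 5 ≤ p)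
    (ν : ι → Perm (ZMod p)) (hν : ∀ i, sign (ν i) = 1) :
    ∃ g : G, emb N e hp5 g = diagW ν := by
  set n₀ : N := e.symm (fun i => ⟨ν i, mem_alternatingGroup.2 (hν i)⟩) with hn₀
  refine ⟨n₀, emb_eq N e hp5 _ _ ?_⟩
  intro n i j ζ hζ
  obtain ⟨e1, e2⟩ := hζ.unique (diag_acts ν i)
  have h1 : cj N n₀ n = n₀ * n * n₀⁻¹ := rfl
  rw [h1, e1, e2, map_mul, map_mul, map_inv, hn₀, MulEquiv.apply_symm_apply]
  rfl

/-- The `i`-th factor of `N ≅ T ^ ι`. -/
def factor {T : Type*} [Group T] (N : Subgroup G) (e : N ≃* (ι → T)) (i : ι) : Set G :=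
  {g | ∃ h : g ∈ N, ∀ j, j ≠ i → e ⟨g, h⟩ j = 1}

/-- `g` induces the permutation `σ` of the factors of `N ≅ T ^ ι`. -/
def Induces {T : Type*} [Group T] (N : Subgroup G) (e : N ≃* (ι → T)) (g : G) (σ : Perm ι) :
    Prop :=
  ∀ i, ∀ n ∈ factor N e i, g * n * g⁻¹ ∈ factor N e (σ i)

theorem induces_top [Finite ι] [DecidableEq ι] [Fact p.Prime] (hp5 : 5 ≤ p) (g : G) :
    Induces N e g (top ι p (emb N e hp5 g)) := by
  rintro i n ⟨hn, hn1⟩
  refine ⟨(inferInstance : N.Normal).conj_mem n hn g, ?_⟩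
  intro k hk
  set x := emb N e hp5 g with hx
  obtain ⟨j, rfl⟩ := (top ι p x).surjective k
  have hji : j ≠ i := fun h => hk (by rw [h])
  obtain ⟨ζ, hζ⟩ := exists_acts_top x j
  have h1 := emb_rep N e hp5 g ⟨n, hn⟩ j _ ζ hζ
  rw [hn1 j hji] at h1
  apply Subtype.ext
  have h2 : (e (cj N g ⟨n, hn⟩) (top ι p x j) : Perm (ZMod p)) = 1 := by rw [h1]; simp
  exact h2

theorem induces_unique [DecidableEq ι] {T : Type*} [Group T] [Nontrivial T] (N : Subgroup G)
    (e : N ≃* (ι → T)) {g : G} {σ σ' : Perm ι} (h1 : Induces N e g σ) (h2 : Induces N e g σ') :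
    σ = σ' := by
  ext i
  by_contra hne
  obtain ⟨t, ht⟩ := exists_ne (1 : T)
  set n : N := e.symm (Pi.mulSingle i t) with hn
  have hmem : (n : G) ∈ factor N e i := by
    refine ⟨n.2, fun j hj => ?_⟩
    have : (⟨(n : G), n.2⟩ : N) = n := rfl
    rw [this, hn, MulEquiv.apply_symm_apply, Pi.mulSingle_eq_of_ne hj]
  obtain ⟨h3, h4⟩ := h1 i n hmem
  obtain ⟨h3', h4'⟩ := h2 i n hmem
  have h5 : e ⟨g * n * g⁻¹, h3⟩ = 1 := by
    funext j
    by_cases hj : j = σ i
    · exact h4' j (by rw [hj]; exact hne)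
    · exact h4 j hj
  rw [map_eq_one_iff e e.injective] at h5
  have h6 : g * n * g⁻¹ = 1 := congrArg Subtype.val h5
  have h7 : (n : G) = 1 := by
    rw [mul_inv_eq_one] at h6
    exact mul_eq_left.1 h6
  have h8 : n = 1 := Subtype.ext h7
  rw [hn, map_eq_one_iff e.symm e.symm.injective, Pi.mulSingle_eq_one_iff] at h8
  exact ht h8

end

/-- The main construction. -/
theorem main_pair {ι : Type} [Finite ι] [Nonempty ι] [DecidableEq ι] {p : ℕ} [Fact p.Prime]
    (hp5 : 5 ≤ p) {G : Type*} [Group G] (N : Subgroup G) [N.Normal]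
    (e : N ≃* (ι → alternatingGroup (ZMod p)))
    (hcent : ∀ g : G, (∀ n ∈ N, g * n = n * g) → g = 1)
    {κ : Type} (lab : κ → Perm (ZMod p)) (hlab : Labels p lab) (χ : ι → κ)
    (g₀ : G) (τ : Perm ι) (hg₀ : Induces N e g₀ τ) {m : ℕ} (hm : Odd m) (hτ : τ ^ m = 1)
    (hrig : ∀ (g : G) (π : Perm ι), Induces N e g π → (∀ i, χ (π i) = χ i) → Sol τ π → π = 1) :
    ∃ x y : G, x ≠ 1 ∧ y ≠ 1 ∧ ∀ z : G, Sol x z → Sol y z → z = 1 := by
  have hp : p.Prime := Fact.out
  have hnt : Nontrivial (alternatingGroup (ZMod p)) :=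
    alternatingGroup.nontrivial_of_three_le_card (α := ZMod p)
      (by rw [Nat.card_zmod]; omega)
  set Ψ := emb N e hp5 with hΨ
  have hinj := emb_injective N e hp5 hcent
  set G' : Subgroup (Perm (ι × ZMod p)) := Ψ.range.map (wreath ι p).subtype with hG'
  have hmemG' : ∀ x : wreath ι p, (x : Perm (ι × ZMod p)) ∈ G' → ∃ g, Ψ g = x := by
    rintro x ⟨y, ⟨g, hg⟩, hy⟩
    refine ⟨g, ?_⟩
    rw [hg]
    exact Subtype.ext hy
  have hGmem : ∀ g, (Ψ g : Perm (ι × ZMod p)) ∈ G' := fun g => ⟨Ψ g, ⟨g, rfl⟩, rfl⟩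
  have htop : ∀ g, Induces N e g (top ι p (Ψ g)) := induces_top N e hp5
  have hτtop : top ι p (Ψ g₀) = τ := induces_unique N e (htop g₀) hg₀
  obtain ⟨y', hy'G, hy'top, hret⟩ := exists_lift (p := p) (by omega) G' (by
      intro ν hν
      obtain ⟨g, hg⟩ := emb_diag N e hp5 ν hν
      have := hGmem g
      rw [hΨ, hg] at this
      exact this) (Ψ g₀) (hGmem g₀) hm (by rw [hτtop]; exact hτ)
  obtain ⟨W, hW⟩ := no_common hp lab hlab χ y' hret
  obtain ⟨y, hy⟩ := hmemG' y' hy'G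
  obtain ⟨x, hx⟩ := emb_diag N e hp5 (fun i => W i * tr p * (W i)⁻¹) (by
    intro i
    exact sign_eq_one_of_odd (hp.odd_of_ne_two (by omega)) (conj_one_or hp).2)
  have hx' : (Ψ x : Perm (ι × ZMod p)) = diag fun i => W i * tr p * (W i)⁻¹ := by
    rw [hΨ, hx]; rfl
  refine ⟨x, y, ?_, ?_, ?_⟩
  · rintro rfl
    rw [map_one] at hx'
    obtain ⟨i⟩ := (inferInstance : Nonempty ι)
    have h1 : Acts (1 : Perm (ι × ZMod p)) i i (W i * tr p * (W i)⁻¹) := by
      have h2 := diag_acts (fun i => W i * tr p * (W i)⁻¹) i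
      rw [← hx'] at h2
      exact h2
    exact (conj_one_or hp).1 (h1.unique (Acts.one i)).2
  · rintro rfl
    rw [map_one] at hy
    obtain ⟨i⟩ := (inferInstance : Nonempty ι)
    obtain ⟨k, Y, hY, hY1, -⟩ := hret i
    rw [← hy] at hY
    apply hY1
    have h1 : ((1 : wreath ι p) : Perm (ι × ZMod p)) ^ k = 1 := by
      rw [Subgroup.coe_one, one_pow]
    rw [h1] at hY
    exact (hY.unique (Acts.one i)).2
  · intro z h1 h2
    have h1' : Sol (Ψ x) (Ψ z) := h1.map Ψ
    have h2' : Sol (Ψ y) (Ψ z) := h2.map Ψ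
    have h1'' := h1'.map (wreath ι p).subtype
    have h2'' := h2'.map (wreath ι p).subtype
    simp only [Subgroup.coe_subtype] at h1'' h2''
    rw [hx'] at h1''
    rw [hy] at h2''
    obtain ⟨h3, h4, h5⟩ := hW (Ψ z) h1'' h2''
    rw [hy'top, hτtop] at h4
    have h6 := hrig z _ (htop z) h3 h4
    have h7 := h5 h6
    rw [← map_one Ψ] at h7
    exact hinj h7

end Sgd
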