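import Pool.Agent.Lib.MP_c39626_al.Sol

/-!
# MP_c39626_al: Galois' theorem in prime degree, and degree `q + 1`
-/

namespace Sgd

open MulAction

section reg

variable {X : Type*} {D : Subgroup (Equiv.Perm X)}

/-- In an abelian transitive group an element is determined by one value. -/
theorem reg_unique (_ : ∀ a ∈ D, ∀ b ∈ D, a * b = b * a) (ht : ∀ a b : X, ∃ d ∈ D, d a = b)
    {d e : Equiv.Perm X} (hd : ∀ c ∈ D, d * c = c * d) (he : ∀ c ∈ D, e * c = c * e)
    {a : X} (h : d a = e a) : d = e := by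
  ext b
  obtain ⟨c, hc', hab⟩ := ht a b
  rw [← hab]
  have h1 : d (c a) = c (d a) := by
    rw [← Equiv.Perm.mul_apply, hd c hc']; rfl
  have h2 : e (c a) = c (e a) := by
    rw [← Equiv.Perm.mul_apply, he c hc']; rfl
  rw [h1, h2, h]

theorem card_reg (hc : ∀ a ∈ D, ∀ b ∈ D, a * b = b * a) (ht : ∀ a b : X, ∃ d ∈ D, d a = b)
    (a : X) : Nat.card D = Nat.card X := by
  apply Nat.card_congr
  refine Equiv.ofBijective (fun d : D => (d : Equiv.Perm X) a) ⟨?_, ?_⟩
  · intro d e h
    exact Subtype.ext (reg_unique hc ht (fun c h' => hc _ d.2 c h') (fun c h' => hc _ e.2 c h') h)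
  · intro b
    obtain ⟨d, hd, h⟩ := ht a b
    exact ⟨⟨d, hd⟩, h⟩

end reg

/-- A permutation of prime order `q` on `q` points is a cycle. -/
theorem trans_of_card {X : Type*} [Finite X] {q : ℕ} (hq : q.Prime) (hX : Nat.card X = q)
    (ρ : Equiv.Perm X) (hρ1 : ρ ≠ 1) (hρq : ρ ^ q = 1) (a b : X) : ∃ i : ℕ, (ρ ^ i) a = b := by
  classical
  obtain ⟨c, hc⟩ : ∃ c, ρ c ≠ c := by
    by_contra hcon
    push Not at hcon
    exact hρ1 (Equiv.ext hcon)
  have h1 : ((fun i : ℕ => (ρ ^ i) c) '' Set.Iio q) = Set.univ := by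
    apply Set.eq_of_subset_of_ncard_le (Set.subset_univ _) _ (Set.toFinite _)
    rw [(pow_injOn hq ρ hρq hc).ncard_image, Set.ncard_univ, hX]
    simp [Set.ncard_eq_toFinset_card']
  have h2 : ∀ x : X, ∃ i : ℕ, (ρ ^ i) c = x := by
    intro x
    have : x ∈ ((fun i : ℕ => (ρ ^ i) c) '' Set.Iio q) := by rw [h1]; trivial
    obtain ⟨i, -, hi⟩ := this
    exact ⟨i, hi⟩
  obtain ⟨i, hi⟩ := h2 a
  obtain ⟨j, hj⟩ := h2 b
  refine ⟨j + i * (q - 1), ?_⟩
  rw [← hi, ← hj, ← Equiv.Perm.mul_apply, ← pow_add]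
  have : j + i * (q - 1) + i = j + q * i := by
    obtain ⟨r, hr⟩ : ∃ r, q = r + 1 := ⟨q - 1, by have := hq.pos; omega⟩
    rw [hr]; simp; ring
  rw [this, pow_add, pow_mul, hρq, one_pow, mul_one]

/-- **Galois**: a soluble permutation group of prime degree `q` containing a `q`-cycle `ρ`
contains no other subgroup of order `q`. -/
theorem galois {X : Type*} [Finite X] {q : ℕ} (hq : q.Prime) (hX : Nat.card X = q)
    (H : Subgroup (Equiv.Perm X)) [Group.IsSolvable H]
    (ρ : Equiv.Perm X) (hρ : ρ ∈ H) (hρ1 : ρ ≠ 1) (hρq : ρ ^ q = 1)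
    (h : Equiv.Perm X) (hh : h ∈ H) (hhq : h ^ q = 1) : ∃ i : ℕ, h = ρ ^ i := by
  classical
  obtain ⟨D, hDH, hDn, hDc, hDt⟩ := exists_regular H (fun a b => by
    obtain ⟨i, hi⟩ := trans_of_card hq hX ρ hρ1 hρq a b
    exact ⟨ρ ^ i, H.pow_mem hρ i, hi⟩) hq (by have := hq.pos; omega) ρ hρ hρ1 hρq
  have hne : Nonempty X := by
    rw [← not_isEmpty_iff]
    intro hem
    rw [Nat.card_of_isEmpty] at hX
    exact hq.ne_zero hX.symm
  obtain ⟨a⟩ := hne
  have hcard : Nat.card D = q := (card_reg hDc hDt a).trans hX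
  have hpow : ∀ d ∈ D, d ^ q = 1 := by
    intro d hd
    have h1 : (⟨d, hd⟩ : D) ^ Nat.card D = 1 := pow_card_eq_one'
    rw [hcard] at h1
    exact congrArg Subtype.val h1
  -- every element of `D` is a power of any nontrivial one
  have hgen : ∀ d ∈ D, d ≠ 1 → ∀ e ∈ D, ∃ i : ℕ, e = d ^ i := by
    intro d hd hd1 e he
    obtain ⟨i, hi⟩ := trans_of_card hq hX d hd1 (hpow d hd) a (e a)
    refine ⟨i, reg_unique hDc hDt (fun c h' => hDc _ he c h')
      (fun c h' => hDc _ (D.pow_mem hd i) c h') hi.symm⟩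
  -- a nontrivial element of `D`
  obtain ⟨d, hd, hd1⟩ : ∃ d ∈ D, d ≠ 1 := by
    obtain ⟨b, hb⟩ : ∃ b, ρ b ≠ b := by
      by_contra hcon
      push Not at hcon
      exact hρ1 (Equiv.ext hcon)
    obtain ⟨d, hd, hdb⟩ := hDt b (ρ b)
    refine ⟨d, hd, ?_⟩
    rintro rfl
    exact hb hdb.symm
  -- elements of `H` with trivial `q`-th power are in `D`
  have hin : ∀ g ∈ H, g ^ q = 1 → g ∈ D := by
    intro g hg hgq
    obtain ⟨j, hj⟩ := hgen d hd hd1 _ (hDn g hg d hd)
    have hiter : ∀ n : ℕ, g ^ n * d * (g ^ n)⁻¹ = d ^ (j ^ n) := by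
      intro n
      induction n with
      | zero => simp
      | succ n ih =>
        have h1 : g ^ (n + 1) * d * (g ^ (n + 1))⁻¹ = g * (g ^ n * d * (g ^ n)⁻¹) * g⁻¹ := by
          rw [pow_succ']; group
        rw [h1, ih, ← conj_pow, hj, ← pow_mul, pow_succ']
    have h2 := hiter q
    rw [hgq] at h2
    simp only [one_mul, inv_one, mul_one] at h2
    have hord : orderOf d = q := by
      have := Fact.mk hq
      exact orderOf_eq_prime (hpow d hd) hd1
    have h3 : (1 : ℕ) ≡ j ^ q [MOD q] := by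
      rw [← hord, ← pow_eq_pow_iff_modEq, pow_one]
      rw [hord]; exact h2
    have h4 : (j : ZMod q) = 1 := by
      have := Fact.mk hq
      have h5 : ((j ^ q : ℕ) : ZMod q) = ((1 : ℕ) : ZMod q) :=
        ((ZMod.natCast_eq_natCast_iff _ _ _).2 h3).symm
      rw [Nat.cast_pow, ZMod.pow_card] at h5
      simpa using h5
    have h5 : d ^ j = d := by
      have h6 : j ≡ 1 [MOD orderOf d] := by
        rw [hord]
        exact (ZMod.natCast_eq_natCast_iff _ _ _).1 (by simpa using h4)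
      have := pow_eq_pow_iff_modEq.2 h6
      simpa using this
    have hcomm : g * d = d * g := by
      rw [h5] at hj
      exact mul_inv_eq_iff_eq_mul.1 hj
    have hcomm' : ∀ c ∈ D, g * c = c * g := by
      intro c hc
      obtain ⟨i, rfl⟩ := hgen d hd hd1 c hc
      exact (Commute.pow_right (show Commute g d from hcomm) i)
    obtain ⟨e, he, hea⟩ := hDt a (g a)
    have : g = e := reg_unique hDc hDt hcomm' (fun c h' => hDc _ he c h') hea.symm
    rw [this]; exact he
  exact hgen ρ (hin ρ hρ hρq) hρ1 h (hin h hh hhq)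

/-- The number of points moved by an element of prime order `q` on fewer than `2 q` points. -/
theorem card_fixed {X : Type*} [Finite X] {q : ℕ} (hq : q.Prime) (hX : Nat.card X < 2 * q)
    (ρ : Equiv.Perm X) (hρ1 : ρ ≠ 1) (hρq : ρ ^ q = 1) :
    {x | ρ x = x}.ncard + q = Nat.card X := by
  classical
  obtain ⟨c, hc⟩ : ∃ c, ρ c ≠ c := by
    by_contra hcon
    push Not at hcon
    exact hρ1 (Equiv.ext hcon)
  set S : Set X := (fun i : ℕ => (ρ ^ i) c) '' Set.Iio q with hS
  have hScard : S.ncard = q := by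
    rw [hS, (pow_injOn hq ρ hρq hc).ncard_image]
    simp [Set.ncard_eq_toFinset_card']
  have hclos : ∀ (d : X), ρ d ≠ d → ∀ i : ℕ, ρ ((ρ ^ i) d) ≠ (ρ ^ i) d := by
    intro d hd i h
    apply hd
    have h1 : ρ ((ρ ^ i) d) = (ρ ^ i) (ρ d) := by
      rw [← Equiv.Perm.mul_apply, ← Equiv.Perm.mul_apply, ← pow_succ, ← pow_succ']
    rw [h1] at h
    exact (ρ ^ i).injective h
  have hmov : {x | ρ x = x} = Sᶜ := by
    ext x
    constructor
    · intro hx hxS
      obtain ⟨i, -, hi⟩ := hxS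
      exact hclos c hc i (by show ρ ((ρ ^ i) c) = _; rw [show (ρ ^ i) c = x from hi]; exact hx)
    · intro hx
      by_contra hne
      -- the orbit of `x` is disjoint from `S` and has `q` elements
      set T : Set X := (fun i : ℕ => (ρ ^ i) x) '' Set.Iio q with hT
      have hTcard : T.ncard = q := by
        rw [hT, (pow_injOn hq ρ hρq hne).ncard_image]
        simp [Set.ncard_eq_toFinset_card']
      have hdisj : Disjoint S T := by
        rw [Set.disjoint_left]
        rintro y ⟨i, -, hi⟩ ⟨j, hj, hj'⟩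
        apply hx
        have hj2 : j < q := hj
        have h1 : (ρ ^ i) c = (ρ ^ j) x := hi.trans hj'.symm
        have h2 : (ρ ^ (q - j + i)) c = x := by
          rw [pow_add, Equiv.Perm.mul_apply, h1, ← Equiv.Perm.mul_apply, ← pow_add,
            Nat.sub_add_cancel hj2.le, hρq]
          rfl
        refine ⟨(q - j + i) % q, Nat.mod_lt _ hq.pos, ?_⟩
        show (ρ ^ ((q - j + i) % q)) c = x
        rw [← h2]
        conv_rhs => rw [← Nat.div_add_mod (q - j + i) q, pow_add, pow_mul, hρq, one_pow, one_mul]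
      have h3 := Set.ncard_union_eq hdisj (Set.toFinite _) (Set.toFinite _)
      have h4 : (S ∪ T).ncard ≤ Nat.card X := by
        rw [← Set.ncard_univ]
        exact Set.ncard_le_ncard (Set.subset_univ _) (Set.toFinite _)
      omega
  rw [hmov]
  have := Set.ncard_add_ncard_compl S (Set.toFinite _) (Set.toFinite _)
  omega

/-- A soluble transitive group of degree `s`, `q < s < 2 q`, with an element of prime order `q`,
has degree `q + 1`. -/
theorem degree_le {X : Type*} [Finite X] {q : ℕ} (hq : q.Prime) (hX : Nat.card X < 2 * q)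
    (H : Subgroup (Equiv.Perm X)) [Group.IsSolvable H] (htr : ∀ a b : X, ∃ h ∈ H, h a = b)
    (ρ : Equiv.Perm X) (hρ : ρ ∈ H) (hρ1 : ρ ≠ 1) (hρq : ρ ^ q = 1) :
    Nat.card X ≤ q + 1 := by
  classical
  obtain ⟨D, hDH, hDn, hDc, hDt⟩ := exists_regular H htr hq hX ρ hρ hρ1 hρq
  have hfix := card_fixed hq hX ρ hρ1 hρq
  by_contra hcon
  push Not at hcon
  obtain ⟨f, hf⟩ : ∃ f, ρ f = f := by
    have : {x | ρ x = x}.Nonempty := by
      rw [← Set.ncard_pos (Set.toFinite _)]
      omega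
    exact this
  have hcard : Nat.card D = Nat.card X := card_reg hDc hDt f
  -- the centraliser of `ρ` in `D`
  let C : Subgroup D :=
    { carrier := {d | ρ * d = d * ρ}
      one_mem' := by simp
      mul_mem' := by
        intro a b ha hb
        show ρ * (a * b : Equiv.Perm X) = (a * b : Equiv.Perm X) * ρ
        have ha' : ρ * (a : Equiv.Perm X) = a * ρ := ha
        have hb' : ρ * (b : Equiv.Perm X) = b * ρ := hb
        rw [← mul_assoc, ha', mul_assoc, hb', mul_assoc]
      inv_mem' := by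
        intro a ha
        have ha' : ρ * (a : Equiv.Perm X) = a * ρ := ha
        show ρ * (a : Equiv.Perm X)⁻¹ = (a : Equiv.Perm X)⁻¹ * ρ
        rw [eq_inv_mul_iff_mul_eq, ← mul_assoc, ← ha', mul_assoc, mul_inv_cancel, mul_one] }
  have hCcard : Nat.card C = {x | ρ x = x}.ncard := by
    rw [← Nat.card_coe_set_eq]
    apply Nat.card_congr
    refine Equiv.ofBijective (fun d : C => ⟨((d : D) : Equiv.Perm X) f, ?_⟩) ⟨?_, ?_⟩
    · have h1 : ρ * ((d : D) : Equiv.Perm X) = (d : D) * ρ := d.2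
      show ρ (((d : D) : Equiv.Perm X) f) = _
      rw [← Equiv.Perm.mul_apply, h1, Equiv.Perm.mul_apply, hf]
    · intro d e h
      have h' : ((d : D) : Equiv.Perm X) f = ((e : D) : Equiv.Perm X) f := congrArg Subtype.val h
      exact Subtype.ext (Subtype.ext (reg_unique hDc hDt (fun c h' => hDc _ d.1.2 c h')
        (fun c h' => hDc _ e.1.2 c h') h'))
    · rintro ⟨x, hx⟩
      obtain ⟨d, hd, hdx⟩ := hDt f x
      have hx' : ρ x = x := hx
      have h1 : ρ * d * ρ⁻¹ = d := by
        refine reg_unique hDc hDt (fun c h' => hDc _ (hDn ρ hρ d hd) c h')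
          (fun c h' => hDc _ hd c h') (a := f) ?_
        have : ρ⁻¹ f = f := by rw [Equiv.Perm.inv_eq_iff_eq, hf]
        show ρ (d (ρ⁻¹ f)) = d f
        rw [this, hdx, hx']
      exact ⟨⟨⟨d, hd⟩, mul_inv_eq_iff_eq_mul.1 h1⟩, Subtype.ext hdx⟩
  have hdvd : {x | ρ x = x}.ncard ∣ Nat.card X := by
    rw [← hCcard, ← hcard]
    exact Subgroup.card_subgroup_dvd_card C
  have h2 : {x | ρ x = x}.ncard ∣ q := by
    rw [← hfix] at hdvd
    exact (Nat.dvd_add_right (dvd_refl _)).1 hdvd
  rcases (Nat.dvd_prime hq).1 h2 with h3 | h3 <;> omega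

end Sgd
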