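import Pool.Agent.Lib.MP_c39626_al.Emb

/-!
# MP_c39626_al: the groupoid of the actions of `G` on the factors of `N ≅ T ^ ι`
-/

namespace Sgd.Gen

open Equiv

variable {T : Type*} [Group T] {ι : Type} {G : Type*} [Group G] {N : Subgroup G} [N.Normal]
  {e : N ≃* (ι → T)}

theorem cj_mul (g h : G) (n : N) : cj N (g * h) n = cj N g (cj N h n) := by
  apply Subtype.ext
  show g * h * n * (g * h)⁻¹ = g * (h * n * h⁻¹) * g⁻¹
  group

theorem cj_one (n : N) : cj N 1 n = n := by
  apply Subtype.ext
  show 1 * (n : G) * 1⁻¹ = n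
  simp

theorem cj_inv_cj (g : G) (n : N) : cj N g (cj N g⁻¹ n) = n := by
  rw [← cj_mul, mul_inv_cancel, cj_one]

theorem cj_cj_inv (g : G) (n : N) : cj N g⁻¹ (cj N g n) = n := by
  rw [← cj_mul, inv_mul_cancel, cj_one]

variable (N e)

/-- Conjugation by `g` carries the `i`-th coordinate to the `j`-th one by the automorphism `ζ`. -/
def Acts (g : G) (i j : ι) (ζ : MulAut T) : Prop :=
  ∀ n : N, e (cj N g n) j = ζ (e n i)

variable {N e}

theorem Acts.mul {g h : G} {i j k : ι} {ζ ξ : MulAut T}
    (hg : Acts N e g i j ζ) (hh : Acts N e h j k ξ) : Acts N e (h * g) i k (ξ * ζ) := by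
  intro n
  rw [cj_mul, hh, hg]
  rfl

theorem Acts.inv {g : G} {i j : ι} {ζ : MulAut T}
    (hg : Acts N e g i j ζ) : Acts N e g⁻¹ j i ζ⁻¹ := by
  intro n
  have h1 := hg (cj N g⁻¹ n)
  rw [cj_inv_cj] at h1
  rw [h1]
  exact (ζ.symm_apply_apply _).symm

theorem Acts.one (i : ι) : Acts N e 1 i i 1 := by
  intro n
  rw [cj_one]
  rfl

theorem Acts.pow {g : G} {i : ι} {ζ : MulAut T}
    (hg : Acts N e g i i ζ) (n : ℕ) : Acts N e (g ^ n) i i (ζ ^ n) := by
  induction n with
  | zero => simpa using Acts.one i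
  | succ n ih => rw [pow_succ', pow_succ']; exact ih.mul hg

theorem Acts.unique [DecidableEq ι] [Nontrivial T] {g : G} {i j k : ι} {ζ ξ : MulAut T}
    (h1 : Acts N e g i j ζ) (h2 : Acts N e g i k ξ) : j = k ∧ ζ = ξ := by
  have hjk : j = k := by
    by_contra hne
    obtain ⟨t, ht⟩ := exists_ne (1 : T)
    set n := cj N g⁻¹ (e.symm (Pi.mulSingle j t)) with hn
    have h3 : e (cj N g n) = Pi.mulSingle j t := by
      rw [hn, cj_inv_cj, MulEquiv.apply_symm_apply]
    have h4 := h1 n
    have h5 := h2 n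
    rw [h3, Pi.mulSingle_eq_same] at h4
    rw [h3, Pi.mulSingle_eq_of_ne (Ne.symm hne)] at h5
    have h6 : e n i = 1 := by
      have := h5.symm
      rwa [map_eq_one_iff ξ ξ.injective] at this
    rw [h6, map_one] at h4
    exact ht h4
  refine ⟨hjk, ?_⟩
  subst hjk
  ext t
  have h3 := h1 (e.symm (Pi.mulSingle i t))
  have h4 := h2 (e.symm (Pi.mulSingle i t))
  rw [MulEquiv.apply_symm_apply, Pi.mulSingle_eq_same] at h3 h4
  rw [← h3, h4]

/-- Inner actions of the elements of `N`. -/
theorem acts_inner (ν : ι → T) (i : ι) :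
    Acts N e ((e.symm ν : N) : G) i i (MulAut.conj (ν i)) := by
  intro n
  have h1 : cj N ((e.symm ν : N) : G) n = e.symm ν * n * (e.symm ν)⁻¹ := rfl
  rw [h1, map_mul, map_mul, map_inv, MulEquiv.apply_symm_apply]
  rfl

theorem eq_one_of_acts (hcent : ∀ g : G, (∀ n ∈ N, g * n = n * g) → g = 1) {z : G}
    (h : ∀ i, Acts N e z i i 1) : z = 1 := by
  apply hcent
  intro n hn
  have h2 : cj N z ⟨n, hn⟩ = ⟨n, hn⟩ := by
    apply e.injective
    funext i
    rw [h i]
    rfl
  have h3 : z * n * z⁻¹ = n := congrArg Subtype.val h2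
  exact mul_inv_eq_iff_eq_mul.1 h3

variable [Finite T] [IsSimpleGroup T] [DecidableEq ι]

theorem exists_map (hnc : ∃ a b : T, a * b ≠ b * a) (g : G) :
    ∃ (π : ι → ι) (φ : ι → MulAut T), ∀ i, Acts N e g i (π i) (φ i) := by
  obtain ⟨π, φ, -, hφ⟩ := aut_pow hnc (e.symm.trans ((MulAut.conjNormal g).trans e))
  refine ⟨π, φ, fun i n => ?_⟩
  have h4 := hφ (e n) i
  have h5 : (e.symm.trans ((MulAut.conjNormal g).trans e)) (e n) = e (cj N g n) := by
    simp only [MulEquiv.trans_apply, MulEquiv.symm_apply_apply]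
    exact congrArg e (Subtype.ext (MulAut.conjNormal_apply g n))
  rw [h5] at h4
  exact h4

variable (N e)

/-- The permutation of the factors induced by `g`. -/
noncomputable def top (hnc : ∃ a b : T, a * b ≠ b * a) : G →* Perm ι where
  toFun g :=
    { toFun := (exists_map (N := N) (e := e) hnc g).choose
      invFun := (exists_map (N := N) (e := e) hnc g⁻¹).choose
      left_inv := by
        intro i
        have h1 := (exists_map (N := N) (e := e) hnc g).choose_spec.choose_spec i
        have h2 := (exists_map (N := N) (e := e) hnc g⁻¹).choose_spec.choose_spec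
          ((exists_map (N := N) (e := e) hnc g).choose i)
        have h3 := h1.mul h2
        rw [inv_mul_cancel] at h3
        exact (h3.unique (Acts.one i)).1
      right_inv := by
        intro i
        have h1 := (exists_map (N := N) (e := e) hnc g⁻¹).choose_spec.choose_spec i
        have h2 := (exists_map (N := N) (e := e) hnc g).choose_spec.choose_spec
          ((exists_map (N := N) (e := e) hnc g⁻¹).choose i)
        have h3 := h1.mul h2
        rw [mul_inv_cancel] at h3
        exact (h3.unique (Acts.one i)).1 }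
  map_one' := by
    ext i
    have h1 := (exists_map (N := N) (e := e) hnc 1).choose_spec.choose_spec i
    exact (h1.unique (Acts.one i)).1
  map_mul' g h := by
    ext i
    have h1 := (exists_map (N := N) (e := e) hnc h).choose_spec.choose_spec i
    have h2 := (exists_map (N := N) (e := e) hnc g).choose_spec.choose_spec
      ((exists_map (N := N) (e := e) hnc h).choose i)
    have h3 := (exists_map (N := N) (e := e) hnc (g * h)).choose_spec.choose_spec i
    exact (h3.unique (h1.mul h2)).1

variable {N e}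

theorem exists_acts (hnc : ∃ a b : T, a * b ≠ b * a) (g : G) (i : ι) :
    ∃ ζ, Acts N e g i (top N e hnc g i) ζ :=
  ⟨_, (exists_map (N := N) (e := e) hnc g).choose_spec.choose_spec i⟩

theorem top_eq (hnc : ∃ a b : T, a * b ≠ b * a) {g : G} {i j : ι} {ζ : MulAut T}
    (h : Acts N e g i j ζ) : top N e hnc g i = j := by
  obtain ⟨ξ, hξ⟩ := exists_acts (N := N) (e := e) hnc g i
  exact (hξ.unique h).1

theorem induces_top (hnc : ∃ a b : T, a * b ≠ b * a) (g : G) :
    Induces N e g (top N e hnc g) := by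
  rintro i n ⟨hn, hn1⟩
  refine ⟨(inferInstance : N.Normal).conj_mem n hn g, ?_⟩
  intro k hk
  obtain ⟨j, rfl⟩ := (top N e hnc g).surjective k
  have hji : j ≠ i := fun h => hk (by rw [h])
  obtain ⟨ζ, hζ⟩ := exists_acts (N := N) (e := e) hnc g j
  have h1 := hζ ⟨n, hn⟩
  rw [hn1 j hji, map_one] at h1
  exact h1

end Sgd.Gen
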