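import Pool.Agent.Lib.MP_c39626_al.Gen

/-!
# MP_c39626_al: pairs without common neighbour, for an arbitrary simple group `T`
-/

namespace Sgd.Gen

open Equiv

variable {T : Type*} [Group T] {ι : Type} {G : Type*} [Group G] (N : Subgroup G) [N.Normal]
  (e : N ≃* (ι → T))

/-- The group induced on the `i`-th factor by the elements of `H` fixing it. -/
def loc (H : Subgroup G) (i : ι) : Subgroup (MulAut T) where
  carrier := {ζ | ∃ g ∈ H, Acts N e g i i ζ}
  one_mem' := ⟨1, H.one_mem, Acts.one i⟩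
  mul_mem' := by
    rintro a b ⟨g, hg, hga⟩ ⟨h, hh, hhb⟩
    exact ⟨g * h, H.mul_mem hg hh, hhb.mul hga⟩
  inv_mem' := by
    rintro a ⟨g, hg, hga⟩
    exact ⟨g⁻¹, H.inv_mem hg, hga.inv⟩

/-- The stabiliser of the `i`-th factor in `H`. -/
def stab (H : Subgroup G) (i : ι) : Subgroup G where
  carrier := {g | g ∈ H ∧ ∃ ζ, Acts N e g i i ζ}
  one_mem' := ⟨H.one_mem, 1, Acts.one i⟩
  mul_mem' := by
    rintro a b ⟨ha, ζ, hζ⟩ ⟨hb, ξ, hξ⟩
    exact ⟨H.mul_mem ha hb, _, hξ.mul hζ⟩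
  inv_mem' := by
    rintro a ⟨ha, ζ, hζ⟩
    exact ⟨H.inv_mem ha, _, hζ.inv⟩

/-- Restriction to the factor. -/
noncomputable def stabHom [DecidableEq ι] [Nontrivial T] (H : Subgroup G) (i : ι) :
    stab N e H i →* loc N e H i where
  toFun g := ⟨g.2.2.choose, g, g.2.1, g.2.2.choose_spec⟩
  map_one' := by
    apply Subtype.ext
    exact ((1 : stab N e H i).2.2.choose_spec.unique (Acts.one i)).2
  map_mul' g h := by
    apply Subtype.ext
    exact ((g * h).2.2.choose_spec.unique (h.2.2.choose_spec.mul g.2.2.choose_spec)).2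

theorem stabHom_surjective [DecidableEq ι] [Nontrivial T] (H : Subgroup G) (i : ι) :
    Function.Surjective (stabHom N e H i) := by
  rintro ⟨ζ, g, hg, hζ⟩
  refine ⟨⟨g, hg, ζ, hζ⟩, ?_⟩
  apply Subtype.ext
  exact ((⟨g, hg, ζ, hζ⟩ : stab N e H i).2.2.choose_spec.unique hζ).2

theorem solvable_loc [DecidableEq ι] [Nontrivial T] (H : Subgroup G) (i : ι)
    (h : Group.IsSolvable H) : Group.IsSolvable (loc N e H i) := by
  have h1 : Group.IsSolvable (stab N e H i) := solvable_of_le (fun g hg => hg.1) h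
  exact Group.isSolvable_of_surjective (stabHom_surjective N e H i)

variable {N e}

theorem conj_injective [IsSimpleGroup T] (hnc : ∃ a b : T, a * b ≠ b * a) :
    Function.Injective (MulAut.conj : T →* MulAut T) := by
  rw [injective_iff_map_eq_one]
  intro a ha
  by_contra hne
  obtain ⟨s, hs⟩ := exists_noncomm hnc hne
  apply hs
  have h1 : a * s * a⁻¹ = s := by
    have := congrArg (fun f : MulAut T => f s) ha
    simpa using this
  exact mul_inv_eq_iff_eq_mul.1 h1

theorem conj_conj (ζ : MulAut T) (t : T) : ζ * MulAut.conj t * ζ⁻¹ = MulAut.conj (ζ t) := by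
  ext s
  simp

/-- **Core lemma**: elements generating soluble groups with both `X` and `Y`. -/
theorem core [Finite T] [IsSimpleGroup T] [DecidableEq ι] [Finite ι]
    (hnc : ∃ a b : T, a * b ≠ b * a)
    (hcent : ∀ g : G, (∀ n ∈ N, g * n = n * g) → g = 1)
    {κ : Type*} (x y : κ → T) (A : Subgroup (MulAut T))
    (hA : ∀ (g : G) (i j : ι) (ζ : MulAut T), Acts N e g i j ζ → ζ ∈ A)
    (h1 : ∀ j, ∀ a ∈ A, Sol (MulAut.conj (x j)) a → Sol (MulAut.conj (y j)) a → a = 1)
    (h2 : ∀ i j, i ≠ j → ∀ a ∈ A, Sol (x j) (a (x i)) → Sol (y j) (a (y i)) → False)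
    (χ : ι → κ) (X Y : G)
    (hX : ∀ i, ∃ m : ℕ, Acts N e (X ^ m) i i (MulAut.conj (x (χ i))))
    (hY : ∀ i, ∃ m : ℕ, Acts N e (Y ^ m) i i (MulAut.conj (y (χ i))))
    (z : G) (h3 : Sol X z) (h4 : Sol Y z) :
    (∀ i, χ (top N e hnc z i) = χ i) ∧ Sol (top N e hnc X) (top N e hnc z) ∧
      Sol (top N e hnc Y) (top N e hnc z) ∧ (top N e hnc z = 1 → z = 1) := by
  have hloc : ∀ (W : G) (w : κ → T), Sol W z →
      (∀ i, ∃ m : ℕ, Acts N e (W ^ m) i i (MulAut.conj (w (χ i)))) →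
      ∀ i j ζ, Acts N e z i j ζ → Sol (w (χ j)) (ζ (w (χ i))) ∧
        (i = j → Sol (MulAut.conj (w (χ i))) ζ) := by
    intro W w hs hw i j ζ hζ
    have hs' : Group.IsSolvable (Subgroup.closure ({W, z} : Set G)) := hs
    set H := Subgroup.closure ({W, z} : Set G)
    have hWH : W ∈ H := Subgroup.subset_closure (by simp)
    have hzH : z ∈ H := Subgroup.subset_closure (by simp)
    have hsl := solvable_loc N e H j hs'
    obtain ⟨m, hm⟩ := hw i
    obtain ⟨m', hm'⟩ := hw j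
    have ha : MulAut.conj (w (χ j)) ∈ loc N e H j := ⟨_, H.pow_mem hWH m', hm'⟩
    have hb : MulAut.conj (ζ (w (χ i))) ∈ loc N e H j := by
      rw [← conj_conj, mul_assoc]
      refine ⟨z * (W ^ m * z⁻¹), H.mul_mem hzH (H.mul_mem (H.pow_mem hWH m) (H.inv_mem hzH)), ?_⟩
      exact (hζ.inv.mul hm).mul hζ
    constructor
    · apply Sol.of_map (MulAut.conj : T →* MulAut T) (conj_injective hnc)
      refine solvable_of_le ?_ hsl
      rw [Subgroup.closure_le]
      rintro u (rfl | rfl)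
      · exact ha
      · exact hb
    · rintro rfl
      refine solvable_of_le ?_ hsl
      rw [Subgroup.closure_le]
      rintro u (rfl | rfl)
      · exact ha
      · exact ⟨z, hzH, hζ⟩
  refine ⟨fun i => ?_, h3.map _, h4.map _, fun htop => ?_⟩
  · obtain ⟨ζ, hζ⟩ := exists_acts (N := N) (e := e) hnc z i
    by_contra hne
    exact h2 _ _ (Ne.symm hne) ζ (hA _ _ _ _ hζ) (hloc X x h3 hX _ _ ζ hζ).1
      (hloc Y y h4 hY _ _ ζ hζ).1
  · apply eq_one_of_acts (N := N) (e := e) hcent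
    intro i
    obtain ⟨ζ, hζ⟩ := exists_acts (N := N) (e := e) hnc z i
    rw [htop] at hζ
    have hζ' : Acts N e z i i ζ := hζ
    have h5 := h1 (χ i) ζ (hA _ _ _ _ hζ') ((hloc X x h3 hX _ _ ζ hζ').2 rfl)
      ((hloc Y y h4 hY _ _ ζ hζ').2 rfl)
    rw [← h5]
    exact hζ'

end Sgd.Gen
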