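import Pool.Agent.Lib.MP_c39626_al.Gen2

/-!
# MP_c39626_al: elements of `G` with prescribed return maps on the factors
-/

namespace Sgd.Gen

open Equiv

variable {T : Type*} [Group T] {ι : Type} {G : Type*} [Group G] {N : Subgroup G} [N.Normal]
  {e : N ≃* (ι → T)}

theorem zp_map {ζ : MulAut T} {a b : T} (h : Subgroup.zpowers a = Subgroup.zpowers b) :
    Subgroup.zpowers (ζ a) = Subgroup.zpowers (ζ b) := by
  have h1 : (Subgroup.zpowers a).map ζ.toMonoidHom = (Subgroup.zpowers b).map ζ.toMonoidHom := by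
    rw [h]
  rw [MonoidHom.map_zpowers, MonoidHom.map_zpowers] at h1
  exact h1

/-- An element of `G` inducing `τ` with prescribed return maps. -/
theorem exists_lift2 [Finite T] [IsSimpleGroup T] [DecidableEq ι] [Finite ι]
    (hnc : ∃ a b : T, a * b ≠ b * a) {κ : Type*} (x : κ → T) (χ : ι → κ) (g : G)
    (hR : ∀ (m : ℕ) (i : ι) (ζ : MulAut T), Acts N e (g ^ m) i i ζ → ∃ t : T, ζ = MulAut.conj t)
    (hC : ∀ (i : ι) (ζ : MulAut T), Acts N e g i (top N e hnc g i) ζ →
      ∃ s : T, Subgroup.zpowers (s * ζ (x (χ i)) * s⁻¹) =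
        Subgroup.zpowers (x (χ (top N e hnc g i)))) :
    ∃ X : G, top N e hnc X = top N e hnc g ∧
      ∀ i, ∃ m : ℕ, Acts N e (X ^ m) i i (MulAut.conj (x (χ i))) := by
  set τ := top N e hnc g with hτ
  choose ζ hζ using fun i => exists_acts (N := N) (e := e) hnc g i
  choose s hs using fun i => hC i (ζ i) (hζ i)
  -- the first correction
  set g₁ : G := ((e.symm (fun j => s (τ⁻¹ j)) : N) : G) * g with hg₁
  have hA₁ : ∀ i, Acts N e g₁ i (τ i) (MulAut.conj (s i) * ζ i) := by
    intro i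
    have h1 := (hζ i).mul (acts_inner (N := N) (e := e) (fun j => s (τ⁻¹ j)) (τ i))
    have h2 : s (τ⁻¹ (τ i)) = s i := by rw [show τ⁻¹ (τ i) = i from τ.symm_apply_apply i]
    simp only [h2] at h1
    exact h1
  have htop₁ : top N e hnc g₁ = τ := by
    ext i : 1
    exact top_eq hnc (hA₁ i)
  have hL : ∀ i : ι, 0 < Function.minimalPeriod τ i := fun i =>
    Function.minimalPeriod_pos_of_mem_periodicPts (τ.injective.mem_periodicPts i)
  have hper : ∀ i : ι, (τ ^ (Function.minimalPeriod τ i)) i = i := by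
    intro i
    have := Function.isPeriodicPt_minimalPeriod τ i
    rw [Equiv.Perm.coe_pow]
    exact this
  -- `g₁ ^ m` and `g ^ m` differ by an element of `N`
  have hdiff : ∀ m : ℕ, ∃ n : N, g₁ ^ m = n * g ^ m := by
    intro m
    induction m with
    | zero => exact ⟨1, by simp⟩
    | succ m ih =>
      obtain ⟨n, hn⟩ := ih
      refine ⟨e.symm (fun j => s (τ⁻¹ j)) * cj N g n, ?_⟩
      rw [pow_succ', hn, hg₁]
      show _ = ((e.symm (fun j => s (τ⁻¹ j)) : N) : G) * (g * n * g⁻¹) * g ^ (m + 1)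
      rw [pow_succ']
      group
  have hin : ∀ i, ∃ w : T, Acts N e (g₁ ^ (Function.minimalPeriod τ i)) i i (MulAut.conj w) := by
    intro i
    obtain ⟨n, hn⟩ := hdiff (Function.minimalPeriod τ i)
    obtain ⟨ξ, hξ⟩ := exists_acts (N := N) (e := e) hnc (g ^ (Function.minimalPeriod τ i)) i
    rw [map_pow, ← hτ, hper] at hξ
    obtain ⟨t, rfl⟩ := hR _ _ _ hξ
    refine ⟨e n i * t, ?_⟩
    rw [hn, map_mul]
    have h1 := acts_inner (N := N) (e := e) (e n) i
    rw [MulEquiv.symm_apply_apply] at h1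
    exact hξ.mul h1
  choose w hw using hin
  -- components respect the cyclic subgroups
  have hZ₁ : ∀ (m : ℕ) (i : ι) (ξ : MulAut T), Acts N e (g₁ ^ m) i ((τ ^ m) i) ξ →
      Subgroup.zpowers (ξ (x (χ i))) = Subgroup.zpowers (x (χ ((τ ^ m) i))) := by
    intro m
    induction m with
    | zero =>
      intro i ξ h
      rw [pow_zero] at h
      have h1 := (h.unique (Acts.one i)).2
      rw [h1]
      rfl
    | succ m ih =>
      intro i ξ h
      obtain ⟨η, hη⟩ := exists_acts (N := N) (e := e) hnc (g₁ ^ m) i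
      rw [map_pow, htop₁] at hη
      have h1 := hη.mul (hA₁ ((τ ^ m) i))
      rw [← pow_succ'] at h1
      have h2 : τ ((τ ^ m) i) = (τ ^ (m + 1)) i := by rw [pow_succ']; rfl
      rw [h2] at h1
      rw [(h.unique h1).2, ← h2, ← hs]
      exact zp_map (ζ := MulAut.conj (s ((τ ^ m) i)) * ζ ((τ ^ m) i)) (ih i η hη)
  have hwZ : ∀ i, Subgroup.zpowers (w i * x (χ i) * (w i)⁻¹) = Subgroup.zpowers (x (χ i)) := by
    intro i
    have h1 := hZ₁ (Function.minimalPeriod τ i) i (MulAut.conj (w i)) (by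
      rw [hper]; exact hw i)
    rw [hper] at h1
    exact h1
  -- representatives of the cycles
  let r : ι → ι := fun i => (Quotient.mk (Equiv.Perm.SameCycle.setoid τ) i).out
  have hr : ∀ i, τ.SameCycle (r i) i := fun i => Quotient.mk_out (s := Equiv.Perm.SameCycle.setoid τ) i
  have hr2 : ∀ i j, τ.SameCycle i j → r i = r j := fun i j h =>
    congrArg Quotient.out (Quotient.sound (s := Equiv.Perm.SameCycle.setoid τ) h)
  -- the second correction
  let ν : ι → T := fun i => if r i = i then x (χ i) * (w i)⁻¹ else 1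
  have hνZ : ∀ i, Subgroup.zpowers (ν i * x (χ i) * (ν i)⁻¹) = Subgroup.zpowers (x (χ i)) := by
    intro i
    show Subgroup.zpowers ((if r i = i then x (χ i) * (w i)⁻¹ else 1) * x (χ i) *
      (if r i = i then x (χ i) * (w i)⁻¹ else 1)⁻¹) = _
    split_ifs with h
    · have h1 := zp_map (ζ := MulAut.conj (x (χ i) * (w i)⁻¹)) (hwZ i)
      simp only [MulAut.conj_apply] at h1
      rw [← h1]
      congr 1
      group
    · simp
  set X : G := ((e.symm ν : N) : G) * g₁ with hX
  have hXA : ∀ i, Acts N e X i (τ i) (MulAut.conj (ν (τ i)) * (MulAut.conj (s i) * ζ i)) :=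
    fun i => (hA₁ i).mul (acts_inner (N := N) (e := e) ν (τ i))
  have htopX : top N e hnc X = τ := by
    ext i : 1
    exact top_eq hnc (hXA i)
  have hZX : ∀ (m : ℕ) (i : ι) (ξ : MulAut T), Acts N e (X ^ m) i ((τ ^ m) i) ξ →
      Subgroup.zpowers (ξ (x (χ i))) = Subgroup.zpowers (x (χ ((τ ^ m) i))) := by
    intro m
    induction m with
    | zero =>
      intro i ξ h
      rw [pow_zero] at h
      have h1 := (h.unique (Acts.one i)).2
      rw [h1]
      rfl
    | succ m ih =>
      intro i ξ h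
      obtain ⟨η, hη⟩ := exists_acts (N := N) (e := e) hnc (X ^ m) i
      rw [map_pow, htopX] at hη
      have h1 := hη.mul (hXA ((τ ^ m) i))
      rw [← pow_succ'] at h1
      have h2 : τ ((τ ^ m) i) = (τ ^ (m + 1)) i := by rw [pow_succ']; rfl
      rw [h2] at h1
      rw [(h.unique h1).2]
      have h3 := zp_map (ζ := MulAut.conj (ν ((τ ^ (m + 1)) i)) *
        (MulAut.conj (s ((τ ^ m) i)) * ζ ((τ ^ m) i))) (ih i η hη)
      have h4 := zp_map (ζ := MulAut.conj (ν ((τ ^ (m + 1)) i))) (hs ((τ ^ m) i))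
      rw [h2] at h4
      exact h3.trans (h4.trans (hνZ _))
  -- at a representative the return map is `x`
  have hrep : ∀ i, r i = i → Acts N e (X ^ (Function.minimalPeriod τ i)) i i
      (MulAut.conj (x (χ i))) := by
    intro i hi
    obtain ⟨l, hl⟩ : ∃ l, Function.minimalPeriod τ i = l + 1 :=
      ⟨Function.minimalPeriod τ i - 1, by have := hL i; omega⟩
    have key : ∀ k, k ≤ l → ∀ ξ, Acts N e (g₁ ^ k) i ((τ ^ k) i) ξ →
        Acts N e (X ^ k) i ((τ ^ k) i) ξ := by
      intro k
      induction k with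
      | zero =>
        intro _ ξ h
        rw [pow_zero] at h ⊢
        exact h
      | succ k ih =>
        intro hk ξ hξ
        obtain ⟨ξ', hξ'⟩ := exists_acts (N := N) (e := e) hnc (g₁ ^ k) i
        rw [map_pow, htop₁] at hξ'
        have hη := hA₁ ((τ ^ k) i)
        have h1 := ih (by omega) ξ' hξ'
        have h2 := hξ'.mul hη
        rw [← pow_succ'] at h2
        have h3 : τ ((τ ^ k) i) = (τ ^ (k + 1)) i := by rw [pow_succ']; rfl
        rw [h3] at h2
        rw [(hξ.unique h2).2]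
        have hne : r ((τ ^ (k + 1)) i) ≠ (τ ^ (k + 1)) i := by
          rw [hr2 ((τ ^ (k + 1)) i) i (by rw [Equiv.Perm.sameCycle_pow_left]), hi]
          intro h5
          have h6 : Function.IsPeriodicPt τ (k + 1) i := by
            show (τ^[k + 1]) i = i
            rw [← Equiv.Perm.coe_pow]
            exact h5.symm
          have := h6.minimalPeriod_le (by omega)
          omega
        have h7 := h1.mul (hXA ((τ ^ k) i))
        rw [← pow_succ', h3] at h7
        have h9 : ν ((τ ^ (k + 1)) i) = 1 := if_neg hne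
        rw [h9, map_one, one_mul] at h7
        exact h7
    obtain ⟨ξ, hξ⟩ := exists_acts (N := N) (e := e) hnc (g₁ ^ l) i
    rw [map_pow, htop₁] at hξ
    have h1 := key l le_rfl ξ hξ
    have h3 : τ ((τ ^ l) i) = i := by
      have := hper i
      rw [hl, pow_succ'] at this
      exact this
    have h4 := hξ.mul (hA₁ ((τ ^ l) i))
    rw [← pow_succ', h3, ← hl] at h4
    have h5 := (h4.unique (hw i)).2
    have h7 := h1.mul (hXA ((τ ^ l) i))
    rw [← pow_succ', h3, ← hl, mul_assoc, h5, ← map_mul] at h7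
    have h6 : ν i = x (χ i) * (w i)⁻¹ := if_pos hi
    rw [h6, inv_mul_cancel_right] at h7
    exact h7
  refine ⟨X, htopX, fun j => ?_⟩
  have hrr : r (r j) = r j := hr2 _ _ (hr j)
  obtain ⟨n, hn⟩ := (hr j).exists_nat_pow_eq
  obtain ⟨ξ, hξ⟩ := exists_acts (N := N) (e := e) hnc (X ^ n) (r j)
  rw [map_pow, htopX] at hξ
  have hz := hZX n (r j) ξ hξ
  rw [hn] at hξ hz
  have h1 := (hξ.inv.mul (hrep _ hrr)).mul hξ
  have h2 : X ^ n * (X ^ Function.minimalPeriod τ (r j) * (X ^ n)⁻¹) =
      X ^ Function.minimalPeriod τ (r j) := by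
    rw [← mul_assoc, ← pow_add, add_comm, pow_add]
    group
  rw [h2, ← mul_assoc, conj_conj] at h1
  have h3 : x (χ j) ∈ Subgroup.zpowers (ξ (x (χ (r j)))) := by
    rw [hz]
    exact Subgroup.mem_zpowers _
  obtain ⟨q, hq⟩ := mem_powers_iff_mem_zpowers.2 h3
  refine ⟨Function.minimalPeriod τ (r j) * q, ?_⟩
  rw [pow_mul, ← hq]
  have h4 := h1.pow q
  rw [← map_pow] at h4
  exact h4

end Sgd.Gen
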