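import Mathlib

/-!
# MP_c39626_al: the soluble graph of a group
-/

namespace Sgd

/-- `g` lies outside the soluble radical: no soluble normal subgroup contains it. -/
def OutsideRadical {G : Type*} [Group G] (g : G) : Prop :=
  ∀ N : Subgroup G, N.Normal → Group.IsSolvable N → g ∉ N

/-- The soluble graph: the vertices are the elements outside the soluble radical, and two distinct
vertices are adjacent when they generate a soluble subgroup. -/
def solubleGraph (G : Type*) [Group G] : SimpleGraph {g : G // OutsideRadical g} where
  Adj a b := a ≠ b ∧ Group.IsSolvable (Subgroup.closure ({(a : G), (b : G)} : Set G))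
  symm := ⟨fun a b h => ⟨h.1.symm, by rw [Set.pair_comm]; exact h.2⟩⟩
  loopless := ⟨fun a h => h.1 rfl⟩

theorem solvable_zpowers {G : Type*} [Group G] (a : G) :
    Group.IsSolvable (Subgroup.zpowers a) := by
  apply Group.isSolvable_of_comm
  rintro ⟨_, m, rfl⟩ ⟨_, n, rfl⟩
  apply Subtype.ext
  exact (zpow_mul_comm a m n)

/-- If the only element generating soluble subgroups with both `x` and `y` is `1`, then `x` and
`y` are vertices at distance at least `3` (for `x ≠ 1`). -/
theorem three_le_ediam {G : Type*} [Group G] (x y : G) (hx : x ≠ 1) (hy : y ≠ 1)
    (h : ∀ z : G, Group.IsSolvable (Subgroup.closure ({x, z} : Set G)) →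
      Group.IsSolvable (Subgroup.closure ({y, z} : Set G)) → z = 1) :
    3 ≤ (solubleGraph G).ediam := by
  classical
  have hself : ∀ a : G, Group.IsSolvable (Subgroup.closure ({a, a} : Set G)) := by
    intro a
    rw [Set.pair_eq_singleton, ← Subgroup.zpowers_eq_closure]
    exact solvable_zpowers a
  -- two elements, one of which lies in a soluble normal subgroup
  have hnormal : ∀ (N : Subgroup G), N.Normal → Group.IsSolvable N → ∀ a ∈ N, ∀ b : G,
      Group.IsSolvable (Subgroup.closure ({a, b} : Set G)) := by
    intro N hN hNs a ha b
    set H := Subgroup.closure ({a, b} : Set G) with hH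
    -- the quotient map restricted to `H` has soluble kernel and cyclic image
    let f : H →* G ⧸ N := (QuotientGroup.mk' N).comp H.subtype
    have hker : Group.IsSolvable f.ker := by
      let i : f.ker →* N :=
        { toFun := fun t => ⟨((t : H) : G), by
            have := t.2
            rw [MonoidHom.mem_ker] at this
            exact (QuotientGroup.eq_one_iff _).1 this⟩
          map_one' := rfl
          map_mul' := fun _ _ => rfl }
      exact Group.isSolvable_of_isSolvable_injective (f := i) (by
        intro s t hst
        apply Subtype.ext
        apply Subtype.ext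
        exact congrArg (fun u : N => (u : G)) hst)
    have hran : Group.IsSolvable f.range := by
      have h1 : f.range = Subgroup.zpowers (QuotientGroup.mk' N b) := by
        have h2 : f.range = H.map (QuotientGroup.mk' N) := by
          rw [MonoidHom.range_eq_map]
          show (⊤ : Subgroup H).map ((QuotientGroup.mk' N).comp H.subtype) = _
          rw [← Subgroup.map_map, ← MonoidHom.range_eq_map, Subgroup.range_subtype]
        rw [h2, hH, MonoidHom.map_closure, Set.image_pair]
        have h3 : (QuotientGroup.mk' N) a = 1 := (QuotientGroup.eq_one_iff _).2 ha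
        rw [h3, Subgroup.closure_insert_one, ← Subgroup.zpowers_eq_closure]
      rw [h1]
      exact solvable_zpowers _
    exact Group.isSolvable_of_ker_le_range (G' := f.ker) (G'' := f.range) f.ker.subtype
      f.rangeRestrict (by
        rw [MonoidHom.ker_rangeRestrict, Subgroup.range_subtype])
  have hxv : OutsideRadical x := by
    intro N hN hNs hxN
    apply hx
    apply h x (hself x)
    rw [Set.pair_comm]
    exact hnormal N hN hNs x hxN y
  have hyv : OutsideRadical y := by
    intro N hN hNs hyN
    apply hy
    apply h y _ (hself y)
    rw [Set.pair_comm]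
    exact hnormal N hN hNs y hyN x
  have hne1 : ∀ v : {g : G // OutsideRadical g}, (v : G) ≠ 1 := by
    intro v hv
    apply v.2 ⊥ inferInstance inferInstance
    rw [hv]
    exact Subgroup.one_mem _
  -- the distance
  have hd : 3 ≤ (solubleGraph G).edist ⟨x, hxv⟩ ⟨y, hyv⟩ := by
    by_contra hlt
    push Not at hlt
    obtain ⟨w, hw⟩ := SimpleGraph.exists_walk_of_edist_ne_top (ne_top_of_lt hlt)
    rw [← hw] at hlt
    have hlen : w.length < 3 := by exact_mod_cast hlt
    match w, hlen with
    | .nil, _ => exact hx (h x (hself x) (hself x))
    | .cons h1 .nil, _ =>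
      apply hx
      apply h x (hself x)
      rw [Set.pair_comm]
      exact h1.2
    | .cons (v := v) h1 (.cons h2 .nil), _ =>
      apply hne1 v
      apply h v h1.2
      rw [Set.pair_comm]
      exact h2.2
    | .cons _ (.cons _ (.cons _ _)), hlen =>
      simp only [SimpleGraph.Walk.length_cons] at hlen
      omega
  exact hd.trans SimpleGraph.edist_le_ediam

end Sgd
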