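import Pool.Agent.Lib.MP_c39626_al.Wr

/-!
# MP_c39626_al: the number of double cosets of full size of the affine group in `S_p`
-/

namespace Sgd

open Finset

variable {p : ℕ} [Fact p.Prime]

theorem isAff_iff (c : Equiv.Perm (ZMod p)) :
    IsAff p c ↔ ∃ (u : (ZMod p)ˣ) (b : ZMod p), ∀ x, c x = u * x + b := by
  constructor
  · rintro ⟨n, hn⟩
    have h1 : ∀ x : ZMod p, c x = c 0 + n * x := by
      intro x
      obtain ⟨k, rfl⟩ : ∃ k : ℕ, (k : ZMod p) = x := ⟨x.val, ZMod.natCast_zmod_val x⟩
      exact affine_of_conj hn k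
    have h2 : (n : ZMod p) ≠ 0 := by
      intro h0
      have h3 := h1 1
      rw [h0, zero_mul, add_zero] at h3
      exact one_ne_zero (c.injective h3)
    refine ⟨Units.mk0 _ h2, c 0, fun x => ?_⟩
    rw [h1 x, Units.val_mk0]
    ring
  · rintro ⟨u, b, h⟩
    refine ⟨(u : ZMod p).val, ?_⟩
    rw [mul_inv_eq_iff_eq_mul]
    ext x
    rw [Equiv.Perm.mul_apply, Equiv.Perm.mul_apply, tr_pow_apply, tr_apply, h, h,
      ZMod.natCast_zmod_val]
    ring

omit [Fact p.Prime] in
theorem isAff_one : IsAff p 1 := ⟨1, by simp⟩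

theorem isAff_inv {c : Equiv.Perm (ZMod p)} (h : IsAff p c) : IsAff p c⁻¹ := by
  rw [isAff_iff] at h ⊢
  obtain ⟨u, b, h⟩ := h
  refine ⟨u⁻¹, -((u⁻¹ : (ZMod p)ˣ) : ZMod p) * b, fun x => ?_⟩
  rw [Equiv.Perm.inv_eq_iff_eq, h]
  have : (u : ZMod p) * ((u⁻¹ : (ZMod p)ˣ) : ZMod p) = 1 := u.mul_inv
  linear_combination (b - x) * this

/-- The affine permutations. -/
noncomputable def affF (p : ℕ) [Fact p.Prime] : Finset (Equiv.Perm (ZMod p)) :=
  by classical exact univ.filter (fun c => IsAff p c)

theorem mem_affF {c : Equiv.Perm (ZMod p)} : c ∈ affF p ↔ IsAff p c := by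
  classical
  simp [affF]

theorem card_units_zmod : Fintype.card (ZMod p)ˣ = p - 1 := ZMod.card_units p

theorem card_affF : (affF p).card ≤ p * (p - 1) := by
  classical
  have h1 : (affF p).card ≤ (univ : Finset (ZMod p × (ZMod p)ˣ)).card := by
    refine Finset.card_le_card_of_injOn (fun c => (c 0,
      if h : c 1 - c 0 ≠ 0 then Units.mk0 _ h else 1)) (fun _ _ => mem_coe.2 (mem_univ _)) ?_
    intro c hc d hd hcd
    rw [mem_coe, mem_affF, isAff_iff] at hc hd
    obtain ⟨u, b, hc⟩ := hc
    obtain ⟨v, e, hd⟩ := hd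
    have h2 : c 1 - c 0 = u := by rw [hc, hc]; ring
    have h3 : d 1 - d 0 = v := by rw [hd, hd]; ring
    have h4 : c 0 = b := by rw [hc]; ring
    have h5 : d 0 = e := by rw [hd]; ring
    have hcd1 : c 0 = d 0 := congrArg Prod.fst hcd
    have hcd2 : (if h : c 1 - c 0 ≠ 0 then Units.mk0 _ h else 1) =
      (if h : d 1 - d 0 ≠ 0 then Units.mk0 _ h else (1 : (ZMod p)ˣ)) := congrArg Prod.snd hcd
    have h6 : c 1 - c 0 ≠ 0 := by rw [h2]; exact u.ne_zero
    have h7 : d 1 - d 0 ≠ 0 := by rw [h3]; exact v.ne_zero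
    rw [dif_pos h6, dif_pos h7] at hcd2
    have h8 : c 1 - c 0 = d 1 - d 0 := congrArg Units.val hcd2
    ext x
    rw [hc, hd, ← h2, ← h3, h8, ← h4, ← h5, hcd1]
  refine h1.trans (le_of_eq ?_)
  rw [Finset.card_univ, Fintype.card_prod, ZMod.card, card_units_zmod]

/-- Permutations intertwining the homothety of ratio `u'` at `f'` with the one of ratio `u`
at `f`. -/
noncomputable def bB (f f' : ZMod p) (u u' : (ZMod p)ˣ) : Finset (Equiv.Perm (ZMod p)) :=
  by classical exact univ.filter (fun g => g f' = f ∧ ∀ w, g (f' + u' * w) = f + u * (g (f' + w) - f))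

theorem mem_bB {f f' : ZMod p} {u u' : (ZMod p)ˣ} {g : Equiv.Perm (ZMod p)} :
    g ∈ bB f f' u u' ↔ g f' = f ∧ ∀ w, g (f' + u' * w) = f + u * (g (f' + w) - f) := by
  classical
  simp [bB]

theorem bB_pow {f f' : ZMod p} {u u' : (ZMod p)ˣ} {g : Equiv.Perm (ZMod p)}
    (h : g ∈ bB f f' u u') (k : ℕ) (w : ZMod p) :
    g (f' + u' ^ k * w) = f + u ^ k * (g (f' + w) - f) := by
  rw [mem_bB] at h
  induction k with
  | zero => simp
  | succ n ih =>
    have h1 := h.2 (u' ^ n * w)
    rw [ih] at h1
    rw [pow_succ', mul_assoc, h1]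
    ring

theorem card_bB (f f' : ZMod p) (u u' : (ZMod p)ˣ) :
    (bB f f' u u').card ≤ (p - 1) ^ ((p - 1) / orderOf u') := by
  classical
  let Q := (ZMod p)ˣ ⧸ Subgroup.zpowers u'
  have hQ : Fintype.card Q = (p - 1) / orderOf u' := by
    have h1 := Subgroup.card_eq_card_quotient_mul_card_subgroup (Subgroup.zpowers u')
    rw [Nat.card_zpowers, Nat.card_eq_fintype_card, card_units_zmod,
      Nat.card_eq_fintype_card] at h1
    rw [h1, Nat.mul_div_cancel _ (orderOf_pos u')]
  have h1 : (bB f f' u u').card ≤ (univ : Finset (Q → (ZMod p)ˣ)).card := by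
    refine Finset.card_le_card_of_injOn (fun g q =>
      if h : g (f' + (q.out : (ZMod p)ˣ)) - f ≠ 0 then Units.mk0 _ h else 1)
      (fun _ _ => mem_coe.2 (mem_univ _)) ?_
    intro g hg h hh hgh
    rw [mem_coe] at hg hh
    have hg0 := (mem_bB.1 hg).1
    have hh0 := (mem_bB.1 hh).1
    have hval : ∀ q : Q, g (f' + (q.out : (ZMod p)ˣ)) = h (f' + (q.out : (ZMod p)ˣ)) := by
      intro q
      have h2 := congrFun hgh q
      have h3 : g (f' + (q.out : (ZMod p)ˣ)) - f ≠ 0 := by
        rw [sub_ne_zero, ← hg0]
        intro h4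
        have h5 := g.injective h4
        simp at h5
      have h4 : h (f' + (q.out : (ZMod p)ˣ)) - f ≠ 0 := by
        rw [sub_ne_zero, ← hh0]
        intro h4
        have h5 := h.injective h4
        simp at h5
      simp only [dif_pos h3, dif_pos h4] at h2
      have h5 := congrArg Units.val h2
      simp only [Units.val_mk0] at h5
      exact sub_left_injective h5
    ext x
    by_cases hx : x = f'
    · rw [hx, hg0, hh0]
    · have hx' : x - f' ≠ 0 := sub_ne_zero.2 hx
      set w : (ZMod p)ˣ := Units.mk0 _ hx' with hw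
      obtain ⟨⟨e, he⟩, hout⟩ := QuotientGroup.mk_out_eq_mul (Subgroup.zpowers u') w
      have he' : e⁻¹ ∈ Subgroup.zpowers u' := Subgroup.inv_mem _ he
      rw [← mem_powers_iff_mem_zpowers] at he'
      obtain ⟨k, hk⟩ := he'
      have hk' : u' ^ k = e⁻¹ := hk
      have hx2 : x = f' + (u' : ZMod p) ^ k * ((QuotientGroup.mk w : Q).out : (ZMod p)ˣ) := by
        have h2 : u' ^ k * (QuotientGroup.mk w : Q).out = w := by
          rw [hk', hout]
          simp [mul_comm]
        have h3 := congrArg Units.val h2
        rw [Units.val_mul, Units.val_pow_eq_pow_val] at h3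
        rw [h3, hw, Units.val_mk0]
        ring
      rw [hx2, bB_pow hg, bB_pow hh, hval]
  refine h1.trans (le_of_eq ?_)
  rw [Finset.card_univ, Fintype.card_fun, card_units_zmod, hQ]

/-- The permutations with a nontrivial affine intertwiner. -/
def Bad (g : Equiv.Perm (ZMod p)) : Prop :=
  ∃ c c', IsAff p c ∧ IsAff p c' ∧ c * g = g * c' ∧ c ≠ 1

theorem bad_cases {g : Equiv.Perm (ZMod p)} (h : Bad g) :
    g ∈ affF p ∨ ∃ f f' : ZMod p, g ∈ bB f f' (-1) (-1) ∨
      ∃ u u' : (ZMod p)ˣ, 3 ≤ orderOf u' ∧ g ∈ bB f f' u u' := by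
  obtain ⟨c, c', hc, hc', hcg, hc1⟩ := h
  rw [isAff_iff] at hc hc'
  obtain ⟨u, b, hc⟩ := hc
  obtain ⟨u', b', hc'⟩ := hc'
  have hrel : ∀ x, (u : ZMod p) * g x + b = g (u' * x + b') := by
    intro x
    have := congrArg (fun s => s x) hcg
    simp only [Equiv.Perm.mul_apply] at this
    rw [hc, hc'] at this
    exact this
  by_cases hu : u = 1
  · -- translations
    left
    have hb : b ≠ 0 := by
      rintro rfl
      apply hc1
      ext x
      rw [hc, hu]
      simp
    have hu' : u' = 1 := by
      by_contra hne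
      have hne' : (u' : ZMod p) - 1 ≠ 0 := by
        rw [sub_ne_zero]
        intro h1
        exact hne (Units.ext h1)
      -- fixed point of `c'`
      have h1 : (u' : ZMod p) * (-b' / (u' - 1)) + b' = -b' / (u' - 1) := by
        field_simp
        ring
      have h2 := hrel (-b' / (u' - 1))
      rw [h1, hu, Units.val_one, one_mul] at h2
      exact hb (by simpa using h2)
    have hb' : b' ≠ 0 := by
      rintro rfl
      have h2 := hrel 0
      rw [hu, hu'] at h2
      simp only [Units.val_one, one_mul, mul_zero, add_zero] at h2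
      exact hb (by simpa using h2)
    rw [hu, hu'] at hrel
    simp only [Units.val_one, one_mul] at hrel
    rw [mem_affF, isAff_iff]
    have hiter : ∀ (k : ℕ), g (k * b') = g 0 + k * b := by
      intro k
      induction k with
      | zero => simp
      | succ n ih =>
        have := hrel (n * b')
        push_cast
        rw [add_mul, one_mul, ← this, ih]
        ring
    refine ⟨Units.mk0 (b / b') (div_ne_zero hb hb'), g 0, fun x => ?_⟩
    have h1 := hiter (x / b').val
    rw [ZMod.natCast_zmod_val, div_mul_cancel₀ _ hb'] at h1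
    rw [h1, Units.val_mk0]
    field_simp
    ring
  · right
    have hu1 : (1 : ZMod p) - u ≠ 0 := by
      rw [sub_ne_zero]
      intro h1
      exact hu (Units.ext h1.symm)
    set f : ZMod p := b / (1 - u) with hf
    have hfb : (u : ZMod p) * f + b = f := by
      rw [hf]; field_simp; ring
    set f' : ZMod p := g⁻¹ f with hf'
    have hgf : g f' = f := by rw [hf']; exact g.apply_symm_apply f
    have hfb' : (u' : ZMod p) * f' + b' = f' := by
      apply g.injective
      rw [← hrel, hgf, hfb]
    have hB : g ∈ bB f f' u u' := by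
      rw [mem_bB]
      refine ⟨hgf, fun w => ?_⟩
      have h1 := hrel (f' + w)
      have h2 : (u' : ZMod p) * (f' + w) + b' = f' + u' * w := by
        linear_combination hfb'
      rw [h2] at h1
      rw [← h1]
      linear_combination hfb
    refine ⟨f, f', ?_⟩
    have hu' : u' ≠ 1 := by
      rintro rfl
      apply hc1
      have hb0 : b' = 0 := by
        have := hfb'
        rw [Units.val_one, one_mul] at this
        simpa using this
      have h3 : c' = 1 := by
        ext x
        rw [hc', hb0]
        simp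
      rw [h3, mul_one] at hcg
      exact mul_eq_right.1 hcg
    by_cases h3 : 3 ≤ orderOf u'
    · right
      exact ⟨u, u', h3, hB⟩
    · left
      have h4 : orderOf u' = 2 := by
        have h5 := orderOf_pos u'
        have h6 : orderOf u' ≠ 1 := by
          rw [Ne, orderOf_eq_one_iff]
          exact hu'
        omega
      have h5 : u' ^ 2 = 1 := by rw [← h4]; exact pow_orderOf_eq_one u'
      have hsq : ∀ v : (ZMod p)ˣ, v ^ 2 = 1 → v ≠ 1 → v = -1 := by
        intro v hv hv1
        have h7 : (v : ZMod p) ^ 2 = 1 := by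
          have := congrArg Units.val hv
          rwa [Units.val_pow_eq_pow_val, Units.val_one] at this
        rw [sq] at h7
        rcases mul_self_eq_one_iff.1 h7 with h8 | h8
        · exact absurd (Units.ext h8) hv1
        · exact Units.ext (by rw [h8, Units.val_neg, Units.val_one])
      have h6 : u ^ 2 = 1 := by
        have h7 := bB_pow hB 2 1
        have h8 : (u' : ZMod p) ^ 2 = 1 := by
          have := congrArg Units.val h5
          rwa [Units.val_pow_eq_pow_val, Units.val_one] at this
        rw [h8, one_mul] at h7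
        have h9 : g (f' + 1) - f ≠ 0 := by
          rw [sub_ne_zero, ← hgf]
          intro h4
          have h5 := g.injective h4
          simp at h5
        have h10 : ((u : ZMod p) ^ 2 - 1) * (g (f' + 1) - f) = 0 := by
          linear_combination -h7
        rcases mul_eq_zero.1 h10 with h11 | h11
        · apply Units.ext
          rw [Units.val_pow_eq_pow_val, Units.val_one]
          exact sub_eq_zero.1 h11
        · exact absurd h11 h9
      rw [hsq u h6 hu, hsq u' h5 hu'] at hB
      exact hB

/-- The number of bad permutations. -/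
theorem card_bad [DecidablePred (Bad (p := p))] (hp3 : 3 ≤ p) :
    (univ.filter (Bad (p := p))).card ≤
      p * (p - 1) + p ^ 2 * ((p - 1) ^ ((p - 1) / 2) + (p - 1) ^ 2 * (p - 1) ^ ((p - 1) / 3)) := by
  classical
  have hsub : univ.filter (Bad (p := p)) ⊆ affF p ∪
      (univ : Finset (ZMod p × ZMod p)).biUnion (fun f =>
        bB f.1 f.2 (-1) (-1) ∪
          ((univ : Finset ((ZMod p)ˣ × (ZMod p)ˣ)).filter (fun u => 3 ≤ orderOf u.2)).biUnion
            (fun u => bB f.1 f.2 u.1 u.2)) := by
    intro g hg
    rw [mem_filter] at hg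
    rcases bad_cases hg.2 with h | ⟨f, f', h | ⟨u, u', hu, h⟩⟩
    · exact mem_union_left _ h
    · apply mem_union_right
      rw [mem_biUnion]
      exact ⟨(f, f'), mem_univ _, mem_union_left _ h⟩
    · apply mem_union_right
      rw [mem_biUnion]
      refine ⟨(f, f'), mem_univ _, mem_union_right _ ?_⟩
      rw [mem_biUnion]
      exact ⟨(u, u'), by simp [hu], h⟩
  refine (card_le_card hsub).trans ((card_union_le _ _).trans (Nat.add_le_add card_affF ?_))
  refine (card_biUnion_le_card_mul _ _
    ((p - 1) ^ ((p - 1) / 2) + (p - 1) ^ 2 * (p - 1) ^ ((p - 1) / 3)) ?_).trans ?_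
  · rintro ⟨f, f'⟩ _
    refine (card_union_le _ _).trans (Nat.add_le_add ?_ ?_)
    · have h1 : orderOf (-1 : (ZMod p)ˣ) = 2 := by
        have h2 : (-1 : (ZMod p)ˣ) ≠ 1 := by
          intro h
          have h3 := congrArg Units.val h
          rw [Units.val_neg, Units.val_one] at h3
          have : Fact (2 < p) := ⟨by omega⟩
          exact ZMod.neg_one_ne_one h3
        exact orderOf_eq_prime (by simp) h2
      have := card_bB f f' (-1) (-1)
      rwa [h1] at this
    · refine (card_biUnion_le_card_mul _ _ ((p - 1) ^ ((p - 1) / 3)) ?_).trans ?_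
      · rintro ⟨u, u'⟩ hu
        rw [mem_filter] at hu
        refine (card_bB f f' u u').trans ?_
        apply Nat.pow_le_pow_right (by omega)
        exact Nat.div_le_div_left hu.2 (by norm_num)
      · apply Nat.mul_le_mul_right
        refine (card_filter_le _ _).trans (le_of_eq ?_)
        rw [Finset.card_univ, Fintype.card_prod, card_units_zmod, sq]
  · apply Nat.mul_le_mul_right
    rw [Finset.card_univ, Fintype.card_prod, ZMod.card, sq]

/-- Greedy choice of labels. -/
theorem exists_labels (L : ℕ)
    (hL : L * (p * (p - 1)) ^ 2 + (p * (p - 1) + p ^ 2 * ((p - 1) ^ ((p - 1) / 2) +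
      (p - 1) ^ 2 * (p - 1) ^ ((p - 1) / 3))) ≤ p.factorial) (hp3 : 3 ≤ p) :
    ∃ g : Fin L → Equiv.Perm (ZMod p), Labels p g := by
  classical
  set good : Finset (Equiv.Perm (ZMod p)) := univ.filter (fun g => ¬ Bad g) with hgood
  have hcard : L * (p * (p - 1)) ^ 2 ≤ good.card := by
    have h1 := card_bad (p := p) hp3
    have h2 : (univ.filter (Bad (p := p))).card + good.card = p.factorial := by
      rw [hgood, Finset.card_filter_add_card_filter_not, Finset.card_univ, Fintype.card_perm,
        ZMod.card]
    omega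
  -- independent sets
  set P : Finset (Equiv.Perm (ZMod p)) → Prop := fun S =>
    S ⊆ good ∧ ∀ g ∈ S, ∀ h ∈ S, ∀ c c', IsAff p c → IsAff p c' → c * g = h * c' → g = h with hP
  obtain ⟨S, hS, hmax⟩ := Finset.exists_max_image
    ((univ : Finset (Finset (Equiv.Perm (ZMod p)))).filter P) Finset.card
    ⟨∅, by simp [hP]⟩
  rw [mem_filter] at hS
  obtain ⟨-, hSg, hSi⟩ := hS
  have hcover : good ⊆ S.biUnion (fun g => (affF p ×ˢ affF p).image
      (fun c => c.1 * g * c.2)) := by
    intro h hh
    rw [mem_biUnion]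
    by_cases hhS : h ∈ S
    · refine ⟨h, hhS, ?_⟩
      rw [mem_image]
      exact ⟨(1, 1), by simp [mem_affF, isAff_one], by simp⟩
    · by_contra hcon
      push Not at hcon
      have hno : ∀ g ∈ S, ∀ c c', IsAff p c → IsAff p c' → c * g ≠ h * c' := by
        intro g hg c c' hc hc' he
        apply hcon g hg
        rw [mem_image]
        refine ⟨(c, c'⁻¹), ?_, ?_⟩
        · rw [mem_product]
          exact ⟨mem_affF.2 hc, mem_affF.2 (isAff_inv hc')⟩
        · show c * g * c'⁻¹ = h
          rw [he]; group
      have hins : P (insert h S) := by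
        refine ⟨?_, ?_⟩
        · intro g hg
          rcases mem_insert.1 hg with rfl | hg
          · exact hh
          · exact hSg hg
        · intro g hg k hk c c' hc hc' he
          rcases mem_insert.1 hg with h1 | h1
          · rcases mem_insert.1 hk with h2 | h2
            · rw [h1, h2]
            · exfalso
              rw [h1] at he
              apply hno k h2 c⁻¹ c'⁻¹ (isAff_inv hc) (isAff_inv hc')
              rw [inv_mul_eq_iff_eq_mul, ← mul_assoc, he]
              group
          · rcases mem_insert.1 hk with h2 | h2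
            · rw [h2] at he
              exact absurd he (hno g h1 c c' hc hc')
            · exact hSi g h1 k h2 c c' hc hc' he
      have h1 := hmax (insert h S) (by rw [mem_filter]; exact ⟨mem_univ _, hins⟩)
      rw [card_insert_of_notMem hhS] at h1
      omega
  have hle : good.card ≤ S.card * (p * (p - 1)) ^ 2 := by
    refine (card_le_card hcover).trans (card_biUnion_le_card_mul _ _ _ ?_)
    intro g _
    refine card_image_le.trans ?_
    rw [card_product, sq]
    exact Nat.mul_le_mul card_affF card_affF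
  have hpos : 0 < (p * (p - 1)) ^ 2 := by
    have : 0 < p - 1 := by omega
    positivity
  have hLS : L ≤ S.card := Nat.le_of_mul_le_mul_right (hcard.trans hle) hpos
  obtain ⟨S', hS', hS'c⟩ := Finset.exists_subset_card_eq hLS
  let e := (S'.equivFinOfCardEq hS'c).symm
  refine ⟨fun i => (e i : Equiv.Perm (ZMod p)), ?_⟩
  intro i j c c' hc hc' he
  have h1 := hSi _ (hS' (e i).2) _ (hS' (e j).2) c c' hc hc' he
  have h2 : i = j := e.injective (Subtype.ext h1)
  refine ⟨h2, ?_⟩
  subst h2
  have h3 := (mem_filter.1 (hSg (hS' (e i).2))).2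
  by_contra h4
  exact h3 ⟨c, c', hc, hc', he, h4⟩

end Sgd
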