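import Pool.Agent.Lib.MP_c39626_al.Wr

/-!
# MP_c39626_al: lifting a permutation of odd order of the blocks to an element of `G` whose
return maps on the blocks are `p`-cycles
-/

namespace Sgd

open MulAction

variable {ι : Type} {p : ℕ}

theorem sign_eq_one_of_odd {α : Type*} [Fintype α] [DecidableEq α] {σ : Equiv.Perm α} {m : ℕ}
    (hm : Odd m) (h : σ ^ m = 1) : Equiv.Perm.sign σ = 1 := by
  have h1 : (Equiv.Perm.sign σ) ^ m = 1 := by rw [← map_pow, h, map_one]
  rcases Int.units_eq_one_or (Equiv.Perm.sign σ) with h2 | h2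
  · exact h2
  · rw [h2, hm.neg_one_pow] at h1
    exact absurd h1 (by decide)

theorem diag_mem_wreath (ν : ι → Equiv.Perm (ZMod p)) : diag ν ∈ wreath ι p :=
  fun _ _ => Iff.rfl

/-- The block diagonal element as an element of the wreath product. -/
def diagW (ν : ι → Equiv.Perm (ZMod p)) : wreath ι p := ⟨diag ν, diag_mem_wreath ν⟩

theorem top_diagW (ν : ι → Equiv.Perm (ZMod p)) : top ι p (diagW ν) = 1 := by
  ext i; rfl

theorem exists_lift [Finite ι] [Fact p.Prime] (hp2 : p ≠ 2)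
    (G : Subgroup (Equiv.Perm (ι × ZMod p)))
    (hN : ∀ ν : ι → Equiv.Perm (ZMod p), (∀ i, Equiv.Perm.sign (ν i) = 1) → diag ν ∈ G)
    (s : wreath ι p) (hs : (s : Equiv.Perm (ι × ZMod p)) ∈ G) {m : ℕ} (hm : Odd m)
    (hsm : top ι p s ^ m = 1) :
    ∃ y : wreath ι p, (y : Equiv.Perm (ι × ZMod p)) ∈ G ∧ top ι p y = top ι p s ∧
      ∀ i, ∃ (k : ℕ) (Y : Equiv.Perm (ZMod p)),
        Acts ((y : Equiv.Perm (ι × ZMod p)) ^ k) i i Y ∧ Y ≠ 1 ∧ Y ^ p = 1 := by
  classical
  have hp : p.Prime := Fact.out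
  set τ := top ι p s with hτ
  -- an even lift
  set s₁ : wreath ι p := s ^ (m + 1) with hs₁
  have hs₁G : (s₁ : Equiv.Perm (ι × ZMod p)) ∈ G := by
    rw [hs₁, Subgroup.coe_pow]
    exact G.pow_mem hs _
  have htop₁ : top ι p s₁ = τ := by
    rw [hs₁, map_pow, pow_succ, hsm, one_mul]
  have hL : ∀ i : ι, 0 < Function.minimalPeriod τ i := fun i =>
    Function.minimalPeriod_pos_of_mem_periodicPts (τ.injective.mem_periodicPts i)
  have hper : ∀ i : ι, (τ ^ (Function.minimalPeriod τ i)) i = i := by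
    intro i
    have := Function.isPeriodicPt_minimalPeriod τ i
    rw [Equiv.Perm.coe_pow]
    exact this
  have hc : ∀ i : ι, ∃ c : Equiv.Perm (ZMod p), Equiv.Perm.sign c = 1 ∧
      Acts ((s₁ : Equiv.Perm (ι × ZMod p)) ^ (Function.minimalPeriod τ i)) i i c := by
    intro i
    obtain ⟨d, hd⟩ := exists_acts_top (s ^ (Function.minimalPeriod τ i)) i
    rw [map_pow, ← hτ, hper] at hd
    refine ⟨d ^ (m + 1), ?_, ?_⟩
    · rw [map_pow]
      rcases Int.units_eq_one_or (Equiv.Perm.sign d) with h2 | h2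
      · rw [h2, one_pow]
      · rw [h2, (Odd.add_one hm).neg_one_pow]
    · have h1 := hd.pow (m + 1)
      rw [hs₁]
      rw [← Subgroup.coe_pow, ← pow_mul, mul_comm, pow_mul, Subgroup.coe_pow]
      exact h1
  choose c hc1 hcA using hc
  -- representatives of the cycles
  let r : ι → ι := fun i => (Quotient.mk (Equiv.Perm.SameCycle.setoid τ) i).out
  have hr : ∀ i, τ.SameCycle (r i) i := fun i => Quotient.mk_out (s := Equiv.Perm.SameCycle.setoid τ) i
  have hr2 : ∀ i j, τ.SameCycle i j → r i = r j := fun i j h =>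
    congrArg Quotient.out (Quotient.sound (s := Equiv.Perm.SameCycle.setoid τ) h)
  have htr : Equiv.Perm.sign (tr p) = 1 :=
    sign_eq_one_of_odd (hp.odd_of_ne_two hp2) (tr_pow_self p)
  let ν : ι → Equiv.Perm (ZMod p) := fun i => if r i = i then tr p * (c i)⁻¹ else 1
  have hν : ∀ i, Equiv.Perm.sign (ν i) = 1 := by
    intro i
    show Equiv.Perm.sign (if r i = i then tr p * (c i)⁻¹ else 1) = 1
    split_ifs
    · rw [Equiv.Perm.sign_mul, Equiv.Perm.sign_inv, htr, hc1, one_mul]
    · exact Equiv.Perm.sign_one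
  set y : wreath ι p := diagW ν * s₁ with hy
  have hyG : (y : Equiv.Perm (ι × ZMod p)) ∈ G := G.mul_mem (hN ν hν) hs₁G
  have htopy : top ι p y = τ := by
    rw [hy, map_mul, top_diagW, one_mul, htop₁]
  -- at a representative the return map is the translation
  have hrep : ∀ i, r i = i → Acts ((y : Equiv.Perm (ι × ZMod p)) ^
      (Function.minimalPeriod τ i)) i i (tr p) := by
    intro i hi
    obtain ⟨l, hl⟩ : ∃ l, Function.minimalPeriod τ i = l + 1 :=
      ⟨Function.minimalPeriod τ i - 1, by have := hL i; omega⟩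
    have key : ∀ k, k ≤ l → ∀ ξ, Acts ((s₁ : Equiv.Perm (ι × ZMod p)) ^ k) i ((τ ^ k) i) ξ →
        Acts ((y : Equiv.Perm (ι × ZMod p)) ^ k) i ((τ ^ k) i) ξ := by
      intro k
      induction k with
      | zero => intro _ ξ h; exact h
      | succ k ih =>
        intro hk ξ hξ
        obtain ⟨ξ', hξ'⟩ := exists_acts_top (s₁ ^ k) i
        rw [map_pow, htop₁] at hξ'
        obtain ⟨η, hη⟩ := exists_acts_top s₁ ((τ ^ k) i)
        rw [htop₁] at hη
        have h1 := ih (by omega) ξ' hξ'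
        have h2 : Acts ((s₁ : Equiv.Perm (ι × ZMod p)) ^ (k + 1)) i (τ ((τ ^ k) i)) (η * ξ') := by
          rw [pow_succ']
          exact Acts.mul hξ' hη
        have h3 : τ ((τ ^ k) i) = (τ ^ (k + 1)) i := by rw [pow_succ']; rfl
        rw [h3] at h2
        have h4 : ξ = η * ξ' := (hξ.unique h2).2
        have hne : r ((τ ^ (k + 1)) i) ≠ (τ ^ (k + 1)) i := by
          rw [hr2 ((τ ^ (k + 1)) i) i (by
            rw [Equiv.Perm.sameCycle_pow_left]), hi]
          intro h5
          have h6 : Function.IsPeriodicPt τ (k + 1) i := by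
            show (τ^[k + 1]) i = i
            rw [← Equiv.Perm.coe_pow]
            exact h5.symm
          have := h6.minimalPeriod_le (by omega)
          omega
        have h7 : Acts (y : Equiv.Perm (ι × ZMod p)) ((τ ^ k) i) ((τ ^ (k + 1)) i) η := by
          rw [← h3] at hne ⊢
          have h8 : Acts ((diag ν : Equiv.Perm (ι × ZMod p)) * (s₁ : Equiv.Perm (ι × ZMod p))) ((τ ^ k) i) (τ ((τ ^ k) i))
              (ν (τ ((τ ^ k) i)) * η) := hη.mul (diag_acts ν _)
          have h9 : ν (τ ((τ ^ k) i)) = 1 := if_neg hne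
          rw [h9, one_mul] at h8
          exact h8
        rw [h4, pow_succ']
        exact h1.mul h7
    obtain ⟨ξ, hξ⟩ := exists_acts_top (s₁ ^ l) i
    rw [map_pow, htop₁] at hξ
    have h1 := key l le_rfl ξ hξ
    obtain ⟨η, hη⟩ := exists_acts_top s₁ ((τ ^ l) i)
    rw [htop₁] at hη
    have h3 : τ ((τ ^ l) i) = i := by
      have := hper i
      rw [hl, pow_succ'] at this
      exact this
    rw [h3] at hη
    have h4 : c i = η * ξ := by
      have h5 := hcA i
      rw [hl, pow_succ'] at h5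
      exact (h5.unique (Acts.mul hξ hη)).2
    have h5 : Acts (y : Equiv.Perm (ι × ZMod p)) ((τ ^ l) i) i (ν i * η) :=
      hη.mul (diag_acts ν i)
    have h6 : ν i = tr p * (c i)⁻¹ := if_pos hi
    rw [hl, pow_succ']
    have h7 := h1.mul h5
    have h8 : ν i * η * ξ = tr p := by
      rw [h6, h4]; group
    rw [h8] at h7
    exact h7
  refine ⟨y, hyG, htopy, fun j => ?_⟩
  have hrr : r (r j) = r j := hr2 _ _ (hr j)
  obtain ⟨n, hn⟩ := (hr j).exists_nat_pow_eq
  obtain ⟨ξ, hξ⟩ := exists_acts_top (y ^ n) (r j)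
  rw [map_pow, htopy, hn] at hξ
  refine ⟨Function.minimalPeriod τ (r j), ξ * tr p * ξ⁻¹, ?_, conj_one_or hp⟩
  have h1 := (hξ.inv.mul (hrep _ hrr)).mul hξ
  have h2 : ((y ^ n : wreath ι p) : Equiv.Perm (ι × ZMod p)) *
      ((y : Equiv.Perm (ι × ZMod p)) ^ Function.minimalPeriod τ (r j) *
        ((y ^ n : wreath ι p) : Equiv.Perm (ι × ZMod p))⁻¹) =
      (y : Equiv.Perm (ι × ZMod p)) ^ Function.minimalPeriod τ (r j) := by
    rw [Subgroup.coe_pow, ← mul_assoc, ← pow_add, add_comm, pow_add]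
    group
  rw [h2, ← mul_assoc] at h1
  exact h1

end Sgd
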