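import Pool.Agent.Lib.MP_c39626_al.Lab

/-!
# MP_c39626_al: the numerical inequality for the number of labels
-/

namespace Sgd

theorem succ_pow_le (m : ℕ) (hm : 1 ≤ m) : (m + 1) ^ m ≤ 3 * m ^ m := by
  have hm0 : (0 : ℝ) < m := by exact_mod_cast hm
  have h1 : ((m : ℝ) + 1) ^ m ≤ 3 * (m : ℝ) ^ m := by
    have h2 : ((m : ℝ) + 1) / m ≤ Real.exp (1 / m) := by
      have := Real.add_one_le_exp (1 / (m : ℝ))
      have h3 : ((m : ℝ) + 1) / m = 1 / (m : ℝ) + 1 := by field_simp; ring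
      rw [h3]; exact this
    have h3 : (((m : ℝ) + 1) / m) ^ m ≤ (Real.exp (1 / m)) ^ m :=
      pow_le_pow_left₀ (by positivity) h2 m
    rw [← Real.exp_nat_mul, mul_one_div_cancel hm0.ne', div_pow, div_le_iff₀ (by positivity)] at h3
    have h4 : Real.exp 1 ≤ 3 := by
      have := Real.exp_one_lt_d9
      linarith
    exact h3.trans (mul_le_mul_of_nonneg_right h4 (by positivity))
  exact_mod_cast h1

theorem pow_le_factorial (m : ℕ) (hm : 6 ≤ m) : (2 * m) ^ (m - 1) ≤ 2 * (2 * m - 3).factorial := by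
  induction m, hm using Nat.le_induction with
  | base => decide
  | succ m hm ih =>
    have h1 := succ_pow_le m (by omega)
    have h2 : (2 * (m + 1)) ^ (m + 1 - 1) = 2 ^ m * (m + 1) ^ m := by
      rw [Nat.add_sub_cancel, mul_pow]
    obtain ⟨k, rfl⟩ : ∃ k, m = k + 1 := ⟨m - 1, by omega⟩
    have h3 : 2 * (k + 1 + 1) - 3 = (2 * (k + 1) - 3) + 1 + 1 := by omega
    rw [h2, h3, Nat.factorial_succ, Nat.factorial_succ]
    have h4 : (2 * (k + 1)) ^ (k + 1 - 1) = 2 ^ k * (k + 1) ^ k := by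
      rw [Nat.add_sub_cancel, mul_pow]
    rw [h4] at ih
    obtain ⟨j, rfl⟩ : ∃ j, k = j + 5 := ⟨k - 5, by omega⟩
    have h5 : 2 * (j + 5 + 1) - 3 = 2 * j + 9 := by omega
    rw [h5] at ih ⊢
    calc 2 ^ (j + 5 + 1) * (j + 5 + 1 + 1) ^ (j + 5 + 1)
        ≤ 2 ^ (j + 5 + 1) * (3 * (j + 5 + 1) ^ (j + 5 + 1)) := Nat.mul_le_mul_left _ h1
      _ = (2 ^ (j + 5) * (j + 5 + 1) ^ (j + 5)) * (6 * (j + 6)) := by ring
      _ ≤ (2 * (2 * j + 9).factorial) * ((2 * j + 9 + 1 + 1) * (2 * j + 9 + 1)) := by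
          apply Nat.mul_le_mul ih
          nlinarith
      _ = 2 * ((2 * j + 9 + 1 + 1) * ((2 * j + 9 + 1) * (2 * j + 9).factorial)) := by ring

theorem num_ineq (p : ℕ) (hp : p.Prime) (h11 : 11 ≤ p) :
    ((p - 4).factorial / 4) * (p * (p - 1)) ^ 2 + (p * (p - 1) + p ^ 2 *
      ((p - 1) ^ ((p - 1) / 2) + (p - 1) ^ 2 * (p - 1) ^ ((p - 1) / 3))) ≤ p.factorial := by
  rcases Nat.lt_or_ge p 13 with h | h
  · have hne : p ≠ 12 := by
      rintro rfl
      exact absurd hp (by norm_num)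
    have : p = 11 := by omega
    subst this
    decide
  · have hodd : p % 2 = 1 := by
      rcases hp.eq_two_or_odd with h2 | h2
      · omega
      · exact h2
    obtain ⟨j, rfl⟩ : ∃ j, p = 2 * j + 13 := ⟨(p - 13) / 2, by omega⟩
    have e1 : 2 * j + 13 - 1 = 2 * j + 12 := by omega
    have e2 : 2 * j + 13 - 4 = 2 * j + 9 := by omega
    have e3 : (2 * j + 12) / 2 = j + 6 := by omega
    rw [e1, e2, e3]
    have hK := pow_le_factorial (j + 6) (by omega)
    have e4 : 2 * (j + 6) = 2 * j + 12 := by ring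
    have e5 : 2 * j + 12 - 3 = 2 * j + 9 := by omega
    have e6 : j + 6 - 1 = j + 5 := by omega
    rw [e4, e5, e6] at hK
    set F := (2 * j + 9).factorial with hF
    have hF1 : 1 ≤ F := Nat.factorial_pos _
    set K := (2 * j + 12) ^ (j + 5) with hKdef
    have h1 : (2 * j + 12) ^ (j + 6) = (2 * j + 12) * K := by rw [hKdef]; ring
    have h2 : (2 * j + 12) ^ 2 * (2 * j + 12) ^ ((2 * j + 12) / 3) ≤ (2 * j + 12) * K := by
      rw [← h1, ← pow_add]
      apply Nat.pow_le_pow_right (by omega)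
      omega
    have h3 : (2 * j + 13).factorial =
        (2 * j + 13) * ((2 * j + 12) * ((2 * j + 11) * ((2 * j + 10) * F))) := by
      rw [hF, Nat.factorial_succ, Nat.factorial_succ (2 * j + 11), Nat.factorial_succ (2 * j + 10),
        Nat.factorial_succ (2 * j + 9)]
    have h4 : 4 * (F / 4) ≤ F := Nat.mul_div_le F 4
    rw [h1, h3]
    set Lq := F / 4
    set T := (2 * j + 12) ^ 2 * (2 * j + 12) ^ ((2 * j + 12) / 3)
    have h5 : 4 * (Lq * ((2 * j + 13) * (2 * j + 12)) ^ 2 +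
        ((2 * j + 13) * (2 * j + 12) + (2 * j + 13) ^ 2 * ((2 * j + 12) * K + T))) ≤
        4 * ((2 * j + 13) * ((2 * j + 12) * ((2 * j + 11) * ((2 * j + 10) * F)))) := by
      have h6 : 4 * (Lq * ((2 * j + 13) * (2 * j + 12)) ^ 2) ≤
          F * ((2 * j + 13) * (2 * j + 12)) ^ 2 := by
        rw [← mul_assoc]
        exact Nat.mul_le_mul_right _ h4
      have h7 : 4 * ((2 * j + 13) ^ 2 * ((2 * j + 12) * K + T)) ≤
          16 * ((2 * j + 13) ^ 2 * ((2 * j + 12) * F)) := by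
        have h8 : (2 * j + 12) * K ≤ (2 * j + 12) * (2 * F) := Nat.mul_le_mul_left _ hK
        have h9 : (2 * j + 12) * K + T ≤ 4 * ((2 * j + 12) * F) := by nlinarith
        calc 4 * ((2 * j + 13) ^ 2 * ((2 * j + 12) * K + T))
            ≤ 4 * ((2 * j + 13) ^ 2 * (4 * ((2 * j + 12) * F))) :=
              Nat.mul_le_mul_left _ (Nat.mul_le_mul_left _ h9)
          _ = 16 * ((2 * j + 13) ^ 2 * ((2 * j + 12) * F)) := by ring
      have h10 : F * ((2 * j + 13) * (2 * j + 12)) ^ 2 + 4 * ((2 * j + 13) * (2 * j + 12)) +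
          16 * ((2 * j + 13) ^ 2 * ((2 * j + 12) * F)) ≤
          4 * ((2 * j + 13) * ((2 * j + 12) * ((2 * j + 11) * ((2 * j + 10) * F)))) := by
        have h11 : F * ((2 * j + 13) * (2 * j + 12)) + 4 + 16 * ((2 * j + 13) * F) ≤
            4 * ((2 * j + 11) * ((2 * j + 10) * F)) := by
          nlinarith [Nat.zero_le (j * F), Nat.zero_le (j * j * F)]
        calc F * ((2 * j + 13) * (2 * j + 12)) ^ 2 + 4 * ((2 * j + 13) * (2 * j + 12)) +
            16 * ((2 * j + 13) ^ 2 * ((2 * j + 12) * F))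
            = ((2 * j + 13) * (2 * j + 12)) *
              (F * ((2 * j + 13) * (2 * j + 12)) + 4 + 16 * ((2 * j + 13) * F)) := by ring
          _ ≤ ((2 * j + 13) * (2 * j + 12)) * (4 * ((2 * j + 11) * ((2 * j + 10) * F))) :=
              Nat.mul_le_mul_left _ h11
          _ = _ := by ring
      omega
    omega

end Sgd
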