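import Mathlib

/-!
# MP_c39626_al: soluble transitive permutation groups containing a long cycle of prime length
-/

namespace Sgd

open MulAction
open scoped Pointwise commutatorElement

/-- A nontrivial soluble group has a nontrivial abelian normal subgroup. -/
theorem exists_abelian_normal {H : Type*} [Group H] [Group.IsSolvable H] [Nontrivial H] :
    ∃ D : Subgroup H, D.Normal ∧ D ≠ ⊥ ∧ ∀ a ∈ D, ∀ b ∈ D, a * b = b * a := by
  classical
  have hP : ∃ n, derivedSeries H n = ⊥ := (Group.isSolvable_def H).1 inferInstance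
  have hm : derivedSeries H (Nat.find hP) = ⊥ := Nat.find_spec hP
  have hm0 : Nat.find hP ≠ 0 := by
    intro h0
    rw [h0, derivedSeries_zero] at hm
    exact bot_ne_top hm.symm
  obtain ⟨k, hk⟩ := Nat.exists_eq_succ_of_ne_zero hm0
  refine ⟨derivedSeries H k, derivedSeries_normal H k, ?_, ?_⟩
  · intro h
    exact Nat.find_min hP (m := k) (by omega) h
  · intro a ha b hb
    have h1 : ⁅a, b⁆ ∈ derivedSeries H (k + 1) := by
      rw [derivedSeries_succ]
      exact Subgroup.commutator_mem_commutator ha hb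
    rw [← Nat.succ_eq_add_one, ← hk, hm] at h1
    exact commutatorElement_eq_one_iff_mul_comm.1 (Subgroup.mem_bot.1 h1)

/-- A permutation whose order divides a prime `q`, on fewer than `q` points, is trivial. -/
theorem eq_one_of_card_lt {Y : Type*} [Finite Y] {q : ℕ} (hq : q.Prime)
    (hc : Nat.card Y < q) (σ : Equiv.Perm Y) (h : σ ^ q = 1) : σ = 1 := by
  classical
  by_contra hne
  have h1 : orderOf σ = q := by
    have := Fact.mk hq
    exact orderOf_eq_prime h hne
  have h2 : orderOf σ ∣ Nat.card (Equiv.Perm Y) := orderOf_dvd_natCard σ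
  rw [h1, Nat.card_perm, hq.dvd_factorial] at h2
  omega

/-- An element of prime order moving `a` has `q` points in the orbit of `a`. -/
theorem pow_injOn {X : Type*} {q : ℕ} (hq : q.Prime) (ρ : Equiv.Perm X) (h : ρ ^ q = 1)
    {a : X} (ha : ρ a ≠ a) :
    Set.InjOn (fun i : ℕ => (ρ ^ i) a) (Set.Iio q) := by
  have key : ∀ i j : ℕ, i < j → j < q → (ρ ^ i) a ≠ (ρ ^ j) a := by
    intro i j hij hj he
    have h1 : (ρ ^ (j - i)) a = a := by
      have h2 : (ρ ^ j) a = (ρ ^ i) ((ρ ^ (j - i)) a) := by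
        rw [← Equiv.Perm.mul_apply, ← pow_add]
        congr 2
        omega
      rw [h2] at he
      exact ((ρ ^ i).injective he).symm
    have h3 : Function.IsPeriodicPt ρ (j - i) a := by
      show (ρ^[j - i]) a = a
      rw [← Equiv.Perm.coe_pow]
      exact h1
    have h4 : Function.IsPeriodicPt ρ q a := by
      show (ρ^[q]) a = a
      rw [← Equiv.Perm.coe_pow, h]
      rfl
    have h5 := h3.gcd h4
    have h6 : Nat.gcd (j - i) q = 1 := by
      apply Nat.Coprime.symm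
      rw [hq.coprime_iff_not_dvd]
      intro hd
      have := Nat.le_of_dvd (by omega) hd
      omega
    rw [h6] at h5
    exact ha h5
  intro i hi j hj he
  rcases lt_trichotomy i j with h1 | h1 | h1
  · exact absurd he (key i j h1 hj)
  · exact h1
  · exact absurd he.symm (key j i h1 hi)

/-- A soluble transitive group `H` on fewer than `2q` points, containing an element of prime
order `q`, has a transitive abelian normal subgroup. -/
theorem exists_regular {X : Type*} [Finite X] (H : Subgroup (Equiv.Perm X)) [Group.IsSolvable H]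
    (htr : ∀ a b : X, ∃ h ∈ H, h a = b) {q : ℕ} (hq : q.Prime) (hX : Nat.card X < 2 * q)
    (ρ : Equiv.Perm X) (hρ : ρ ∈ H) (hρ1 : ρ ≠ 1) (hρq : ρ ^ q = 1) :
    ∃ D : Subgroup (Equiv.Perm X), D ≤ H ∧ (∀ h ∈ H, ∀ d ∈ D, h * d * h⁻¹ ∈ D) ∧
      (∀ a ∈ D, ∀ b ∈ D, a * b = b * a) ∧ ∀ a b : X, ∃ d ∈ D, d a = b := by
  classical
  have hnt : Nontrivial H := ⟨⟨⟨ρ, hρ⟩, 1, fun h => hρ1 (congrArg Subtype.val h)⟩⟩
  obtain ⟨D₀, hD₀n, hD₀, hD₀c⟩ := exists_abelian_normal (H := H)
  have hpre : IsPretransitive H X := ⟨fun a b => by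
    obtain ⟨h, hh, hab⟩ := htr a b
    exact ⟨⟨h, hh⟩, hab⟩⟩
  obtain ⟨a, ha⟩ : ∃ a, ρ a ≠ a := by
    by_contra hcon
    push Not at hcon
    exact hρ1 (Equiv.ext hcon)
  have hB : IsBlock H (orbit D₀ a) := IsBlock.orbit_of_normal a
  have hBne : (orbit D₀ a).Nonempty := ⟨a, mem_orbit_self a⟩
  -- the block has at least two points
  have hB2 : 2 ≤ (orbit D₀ a).ncard := by
    obtain ⟨d, hd, hd1⟩ : ∃ d, ∃ _ : d ∈ D₀, d ≠ 1 := by
      obtain ⟨d, hd⟩ := Subgroup.ne_bot_iff_exists_ne_one.1 hD₀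
      exact ⟨d.1, d.2, fun h => hd (Subtype.ext h)⟩
    obtain ⟨b, hb⟩ : ∃ b, (d : Equiv.Perm X) b ≠ b := by
      by_contra hcon
      push Not at hcon
      exact hd1 (Subtype.ext (Equiv.ext hcon))
    obtain ⟨h, hh, hba⟩ := htr b a
    have h1 : (⟨h, hh⟩ : H) * d * (⟨h, hh⟩ : H)⁻¹ ∈ D₀ := hD₀n.conj_mem d hd ⟨h, hh⟩
    have h2 : h ((d : Equiv.Perm X) b) ∈ orbit D₀ a := by
      refine ⟨⟨_, h1⟩, ?_⟩
      show h ((d : Equiv.Perm X) (h⁻¹ a)) = _
      rw [← hba]
      simp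
    have h3 : h ((d : Equiv.Perm X) b) ≠ a := by
      intro h4
      rw [← hba] at h4
      exact hb (h.injective h4)
    have h5 : ({a, h ((d : Equiv.Perm X) b)} : Set X) ⊆ orbit D₀ a := by
      rintro x (rfl | rfl)
      · exact mem_orbit_self _
      · exact h2
    have h6 := Set.ncard_le_ncard h5 (Set.toFinite _)
    rwa [Set.ncard_pair h3.symm] at h6
  have hmul := hB.ncard_block_mul_ncard_orbit_eq hBne
  have hn : (orbit H (orbit D₀ a)).ncard < q := by
    by_contra hcon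
    push Not at hcon
    have : 2 * q ≤ (orbit D₀ a).ncard * (orbit H (orbit D₀ a)).ncard := Nat.mul_le_mul hB2 hcon
    rw [hmul] at this
    omega
  -- `ρ` fixes the block
  have hfix : (⟨ρ, hρ⟩ : H) • (orbit D₀ a : Set X) = orbit D₀ a := by
    have h1 : (MulAction.toPermHom H (orbit H (orbit D₀ a : Set X))) ⟨ρ, hρ⟩ = 1 := by
      apply eq_one_of_card_lt hq
      · rwa [Nat.card_coe_set_eq]
      · rw [← map_pow]
        have : (⟨ρ, hρ⟩ : H) ^ q = 1 := Subtype.ext hρq
        rw [this, map_one]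
    have h2 := congrArg (fun s => s ⟨(orbit D₀ a : Set X), mem_orbit_self _⟩) h1
    exact congrArg Subtype.val h2
  have hpow : ∀ i : ℕ, (ρ ^ i) a ∈ (orbit D₀ a : Set X) := by
    intro i
    induction i with
    | zero => exact mem_orbit_self a
    | succ n ih =>
      rw [pow_succ', Equiv.Perm.mul_apply, ← hfix]
      exact Set.smul_mem_smul_set (a := (⟨ρ, hρ⟩ : H)) ih
  have hBq : q ≤ (orbit D₀ a).ncard := by
    have h1 : ((fun i : ℕ => (ρ ^ i) a) '' Set.Iio q) ⊆ orbit D₀ a := by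
      rintro x ⟨i, -, rfl⟩
      exact hpow i
    have h2 := Set.ncard_le_ncard h1 (Set.toFinite _)
    rw [(pow_injOn hq ρ hρq ha).ncard_image] at h2
    simpa [Set.ncard_eq_toFinset_card'] using h2
  have huniv : (orbit D₀ a : Set X) = Set.univ := hB.eq_univ_of_card_lt (by omega)
  refine ⟨D₀.map H.subtype, ?_, ?_, ?_, ?_⟩
  · rintro _ ⟨d, -, rfl⟩
    exact d.2
  · rintro h hh _ ⟨d, hd, rfl⟩
    exact ⟨⟨h, hh⟩ * d * (⟨h, hh⟩ : H)⁻¹, hD₀n.conj_mem d hd ⟨h, hh⟩, rfl⟩
  · rintro _ ⟨d, hd, rfl⟩ _ ⟨e, he, rfl⟩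
    rw [← map_mul, ← map_mul, hD₀c d hd e he]
  · intro b c
    have hb : b ∈ (orbit D₀ a : Set X) := by rw [huniv]; trivial
    have hc : c ∈ (orbit D₀ a : Set X) := by rw [huniv]; trivial
    obtain ⟨d, hd⟩ := hb
    obtain ⟨e, he⟩ := hc
    refine ⟨_, ⟨(e : H) * (d : H)⁻¹, D₀.mul_mem e.2 (D₀.inv_mem d.2), rfl⟩, ?_⟩
    have hd' : ((d : H) : Equiv.Perm X) a = b := hd
    have he' : ((e : H) : Equiv.Perm X) a = c := he
    show ((e : H) : Equiv.Perm X) ((((d : H) : Equiv.Perm X)⁻¹) b) = c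
    rw [← hd', ← he']
    simp

end Sgd
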