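import Pool.Agent.Lib.MP_c39626_al.Gal

/-!
# MP_c39626_al: a permutation of odd order and a colouring with five colours which
together are preserved by nothing soluble
-/

namespace Sgd

open MulAction

/-! ### Soluble subgroups generated by two elements -/

/-- `a` and `b` generate a soluble subgroup. -/
def Sol {G : Type*} [Group G] (a b : G) : Prop :=
  Group.IsSolvable (Subgroup.closure ({a, b} : Set G))

theorem solvable_map {G G' : Type*} [Group G] [Group G'] (f : G →* G') (H : Subgroup G)
    (h : Group.IsSolvable H) : Group.IsSolvable (H.map f) :=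
  Group.isSolvable_of_surjective (f.subgroupMap_surjective H)

theorem solvable_of_map {G G' : Type*} [Group G] [Group G'] (f : G →* G')
    (hf : Function.Injective f) (H : Subgroup G)
    (h : Group.IsSolvable (H.map f)) : Group.IsSolvable H :=
  Group.isSolvable_of_isSolvable_injective (f := f.subgroupMap H) (by
    intro a b hab
    apply Subtype.ext
    apply hf
    exact congrArg Subtype.val hab)

theorem solvable_of_le {G : Type*} [Group G] {K H : Subgroup G} (hle : K ≤ H)
    (h : Group.IsSolvable H) : Group.IsSolvable K :=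
  Group.isSolvable_of_isSolvable_injective (Subgroup.inclusion_injective hle)

theorem Sol.map {G G' : Type*} [Group G] [Group G'] (f : G →* G') {a b : G} (h : Sol a b) :
    Sol (f a) (f b) := by
  have h1 := solvable_map f _ h
  unfold Sol
  rwa [MonoidHom.map_closure, Set.image_pair] at h1

theorem Sol.of_map {G G' : Type*} [Group G] [Group G'] (f : G →* G')
    (hf : Function.Injective f) {a b : G} (h : Sol (f a) (f b)) : Sol a b := by
  apply solvable_of_map f hf
  rw [MonoidHom.map_closure, Set.image_pair]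
  exact h

theorem Sol.fst {G G' : Type*} [Group G] [Group G'] {a : G} {b : G'} {a' : G} {b' : G'}
    (h : Sol (a, b) (a', b')) : Sol a a' := by
  have h1 := Sol.map (MonoidHom.fst G G') h
  simp only [MonoidHom.coe_fst] at h1
  exact h1

theorem Sol.snd {G G' : Type*} [Group G] [Group G'] {a : G} {b : G'} {a' : G} {b' : G'}
    (h : Sol (a, b) (a', b')) : Sol b b' := by
  have h1 := Sol.map (MonoidHom.snd G G') h
  simp only [MonoidHom.coe_snd] at h1
  exact h1

/-! ### Translations of `ZMod q` -/

/-- The translation `x ↦ x + 1`. -/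
def tr (q : ℕ) : Equiv.Perm (ZMod q) := Equiv.addRight 1

theorem tr_apply (q : ℕ) (x : ZMod q) : tr q x = x + 1 := rfl

theorem tr_pow_apply (q : ℕ) (k : ℕ) (x : ZMod q) : (tr q ^ k) x = x + k := by
  induction k generalizing x with
  | zero => simp
  | succ n ih =>
    rw [pow_succ', Equiv.Perm.mul_apply, ih, tr_apply]
    push_cast
    ring

theorem tr_pow_self (q : ℕ) : tr q ^ q = 1 := by
  ext x
  rw [tr_pow_apply]
  simp

theorem tr_ne_one {q : ℕ} (hq : q.Prime) : tr q ≠ 1 := by
  have := Fact.mk hq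
  intro h
  have h1 := congrArg (fun s => s (0 : ZMod q)) h
  simp [tr_apply] at h1

/-- A permutation normalising the translations is affine. -/
theorem affine_of_conj {q : ℕ} {π : Equiv.Perm (ZMod q)} {j : ℕ}
    (h : π * tr q * π⁻¹ = tr q ^ j) (k : ℕ) : π (k : ZMod q) = π 0 + j * k := by
  have h1 : π * tr q = tr q ^ j * π := mul_inv_eq_iff_eq_mul.1 h
  induction k with
  | zero => simp
  | succ n ih =>
    have h2 := congrArg (fun s => s (n : ZMod q)) h1
    simp only [Equiv.Perm.mul_apply, tr_apply, tr_pow_apply] at h2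
    push_cast
    rw [h2, ih]
    ring

/-- A permutation normalising the translations and fixing `0` and `1` is trivial. -/
theorem eq_one_of_conj {q : ℕ} (hq : q.Prime) {π : Equiv.Perm (ZMod q)} {j : ℕ}
    (h : π * tr q * π⁻¹ = tr q ^ j) (h0 : π 0 = 0) (h1 : π 1 = 1) : π = 1 := by
  have := Fact.mk hq
  have h2 := affine_of_conj h 1
  rw [Nat.cast_one, h0, h1] at h2
  have h3 : (j : ZMod q) = 1 := by
    rw [zero_add, mul_one] at h2
    exact h2.symm
  ext x
  obtain ⟨k, rfl⟩ : ∃ k : ℕ, (k : ZMod q) = x := ⟨x.val, ZMod.natCast_zmod_val x⟩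
  rw [affine_of_conj h k, h0, h3]
  simp

/-- In a soluble group of permutations of `ZMod q` containing the translation. -/
theorem conj_tr_of_sol {q : ℕ} (hq : q.Prime) {π : Equiv.Perm (ZMod q)}
    (h : Sol (tr q) π) : ∃ j : ℕ, π * tr q * π⁻¹ = tr q ^ j := by
  have := Fact.mk hq
  have hs : Group.IsSolvable (Subgroup.closure ({tr q, π} : Set (Equiv.Perm (ZMod q)))) := h
  have ht : tr q ∈ Subgroup.closure ({tr q, π} : Set (Equiv.Perm (ZMod q))) :=
    Subgroup.subset_closure (by simp)
  have hp : π ∈ Subgroup.closure ({tr q, π} : Set (Equiv.Perm (ZMod q))) :=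
    Subgroup.subset_closure (by simp)
  refine galois hq (Nat.card_zmod q) _ (tr q) ht (tr_ne_one hq) (tr_pow_self q) _ ?_ ?_
  · exact Subgroup.mul_mem _ (Subgroup.mul_mem _ hp ht) (Subgroup.inv_mem _ hp)
  · rw [conj_pow, tr_pow_self]
    simp

/-! ### The rigid pairs -/

/-- `τ` has odd order, and together with the colouring `χ` it is rigid. -/
def Rigid (Ω : Type) (τ : Equiv.Perm Ω) (χ : Ω → ℕ) (m : ℕ) : Prop :=
  Odd m ∧ τ ^ m = 1 ∧ (∀ r, r.Prime → Nat.card Ω < r → ¬ r ∣ m) ∧ (∀ x, χ x < 5) ∧
  (∀ x, τ x = x → 3 ≤ χ x) ∧ (∀ x, τ x ≠ x → χ x ≤ 2) ∧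
  ∀ π : Equiv.Perm Ω, (∀ x, χ (π x) = χ x) → Sol τ π → π = 1

theorem Rigid.congr {Ω Ω' : Type} (e : Ω ≃ Ω') {τ : Equiv.Perm Ω'} {χ : Ω' → ℕ} {m : ℕ}
    (h : Rigid Ω' τ χ m) : Rigid Ω (e.symm.permCongr τ) (χ ∘ e) m := by
  obtain ⟨h1, h2, h3, h4, h5, h6, h7⟩ := h
  refine ⟨h1, ?_, ?_, fun x => h4 _, ?_, ?_, ?_⟩
  · have : (e.symm.permCongrHom τ) ^ m = 1 := by rw [← map_pow, h2, map_one]
    exact this
  · intro r hr hr'
    exact h3 r hr (by rwa [← Nat.card_congr e])
  · intro x hx
    apply h5
    simp only [Equiv.permCongr_apply, Equiv.symm_symm] at hx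
    rw [Equiv.symm_apply_eq] at hx
    exact hx
  · intro x hx
    apply h6
    intro hx'
    apply hx
    simp only [Equiv.permCongr_apply, Equiv.symm_symm]
    rw [hx', Equiv.symm_apply_apply]
  · intro π hπ hs
    have h8 := h7 (e.permCongrHom π) (by
      intro x
      have := hπ (e.symm x)
      simp only [Function.comp_apply, Equiv.apply_symm_apply] at this
      show χ (e (π (e.symm x))) = χ x
      exact this) (by
      have h9 := hs.map e.permCongrHom.toMonoidHom
      have h10 : e.permCongrHom.toMonoidHom (e.symm.permCongr τ) = τ := by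
        ext x
        show e (e.symm (τ (e (e.symm x)))) = τ x
        simp
      rw [h10] at h9
      exact h9)
    have h9 : e.permCongrHom π = e.permCongrHom 1 := by rw [h8, map_one]
    exact e.permCongrHom.injective h9

/-- The colouring of the points of a long cycle. -/
def col (q : ℕ) (a : ZMod q) : ℕ := if a = 0 then 0 else if a = 1 then 1 else 2

theorem col_le (q : ℕ) (a : ZMod q) : col q a ≤ 2 := by
  unfold col; split_ifs <;> omega

theorem rigid_sum {q : ℕ} (hq : q.Prime) (hq2 : q ≠ 2) {W : Type} [Finite W]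
    (hW : Nat.card W < q) {τ : Equiv.Perm W} {χ : W → ℕ} {m : ℕ} (h : Rigid W τ χ m) :
    Rigid (ZMod q ⊕ W) (Equiv.Perm.sumCongrHom _ _ (tr q, τ)) (Sum.elim (col q) χ) (q * m) := by
  classical
  have := Fact.mk hq
  have hq3 : 3 ≤ q := by
    have := hq.two_le
    omega
  obtain ⟨h1, h2, h3, h4, h5, h6, h7⟩ := h
  have htm : tr q ^ (q * m) = 1 := by rw [pow_mul, tr_pow_self, one_pow]
  have hτm : τ ^ (q * m) = 1 := by rw [mul_comm, pow_mul, h2, one_pow]
  have hcardΩ : Nat.card (ZMod q ⊕ W) = q + Nat.card W := by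
    rw [Nat.card_sum, Nat.card_zmod]
  refine ⟨?_, ?_, ?_, ?_, ?_, ?_, ?_⟩
  · exact (hq.odd_of_ne_two hq2).mul h1
  · rw [← map_pow]
    have : ((tr q, τ) : Equiv.Perm (ZMod q) × Equiv.Perm W) ^ (q * m) = 1 :=
      Prod.ext htm hτm
    rw [this, map_one]
  · intro r hr hr' hd
    rw [hcardΩ] at hr'
    rcases (hr.dvd_mul).1 hd with h8 | h8
    · have := (Nat.prime_dvd_prime_iff_eq hr hq).1 h8
      omega
    · exact h3 r hr (by omega) h8
  · rintro (a | w)
    · have := col_le q a
      simp only [Sum.elim_inl]; omega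
    · exact h4 w
  · rintro (a | w) hx
    · exfalso
      have h8 : tr q a = a := by simpa using hx
      rw [tr_apply] at h8
      simp at h8
    · have h8 : τ w = w := by simpa using hx
      exact h5 w h8
  · rintro (a | w) hx
    · exact col_le q a
    · apply h6
      intro h8
      apply hx
      simp [h8]
  · intro π hπ hs
    set T : Equiv.Perm (ZMod q ⊕ W) := Equiv.Perm.sumCongrHom _ _ (tr q, τ) with hT
    set H := Subgroup.closure ({T, π} : Set (Equiv.Perm (ZMod q ⊕ W))) with hH
    have hsol : Group.IsSolvable H := hs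
    have hTH : T ∈ H := Subgroup.subset_closure (by simp)
    have hπH : π ∈ H := Subgroup.subset_closure (by simp)
    -- the long cycle itself is a power of `T`
    obtain ⟨u, hu⟩ : ∃ u : ℕ, (u * m) ≡ 1 [MOD q] := by
      have hcop : Nat.Coprime m q := by
        rw [Nat.coprime_comm, hq.coprime_iff_not_dvd]
        exact h3 q hq hW
      have hm0 : (m : ZMod q) ≠ 0 := by
        intro h0
        rw [ZMod.natCast_eq_zero_iff] at h0
        exact h3 q hq hW h0
      refine ⟨((m : ZMod q)⁻¹).val, ?_⟩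
      rw [← ZMod.natCast_eq_natCast_iff]
      push_cast
      rw [ZMod.natCast_zmod_val, inv_mul_cancel₀ hm0]
    set R : Equiv.Perm (ZMod q ⊕ W) := Equiv.Perm.sumCongrHom _ _ (tr q, 1) with hR
    have hRT : T ^ (u * m) = R := by
      rw [hT, ← map_pow, hR]
      congr 1
      refine Prod.ext ?_ ?_
      · show tr q ^ (u * m) = tr q
        ext x
        rw [tr_pow_apply, tr_apply]
        have : ((u * m : ℕ) : ZMod q) = ((1 : ℕ) : ZMod q) :=
          (ZMod.natCast_eq_natCast_iff _ _ _).2 hu
        rw [this, Nat.cast_one]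
      · show τ ^ (u * m) = 1
        rw [mul_comm, pow_mul, h2, one_pow]
    have hRH : R ∈ H := by rw [← hRT]; exact H.pow_mem hTH _
    have hRq : R ^ q = 1 := by
      rw [hR, ← map_pow]
      have : ((tr q, 1) : Equiv.Perm (ZMod q) × Equiv.Perm W) ^ q = 1 :=
        Prod.ext (tr_pow_self q) (one_pow _)
      rw [this, map_one]
    -- the orbit of the long cycle
    let x₀ : ZMod q ⊕ W := Sum.inl 0
    have hRinl : ∀ a : ZMod q, R (Sum.inl a) = Sum.inl (a + 1) := fun a => rfl
    have horb : ∀ a : ZMod q, (Sum.inl a : ZMod q ⊕ W) ∈ orbit H x₀ := by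
      intro a
      obtain ⟨k, rfl⟩ : ∃ k : ℕ, (k : ZMod q) = a := ⟨a.val, ZMod.natCast_zmod_val a⟩
      induction k with
      | zero => rw [Nat.cast_zero]; exact mem_orbit_self (M := H) x₀
      | succ n ih =>
        obtain ⟨g, hg⟩ := ih
        refine ⟨⟨R, hRH⟩ * g, ?_⟩
        show R ((g : Equiv.Perm (ZMod q ⊕ W)) x₀) = _
        have hg' : (g : Equiv.Perm (ZMod q ⊕ W)) x₀ = Sum.inl (n : ZMod q) := hg
        rw [hg', hRinl]
        push_cast
        rfl
    have hcardX : Nat.card (orbit H x₀) < 2 * q := by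
      have h8 : Nat.card (orbit H x₀) ≤ Nat.card (ZMod q ⊕ W) := Finite.card_subtype_le _
      omega
    have hdeg : Nat.card (orbit H x₀) ≤ q + 1 := by
      let φ : H →* Equiv.Perm (orbit H x₀) := MulAction.toPermHom H (orbit H x₀)
      have hφ : Group.IsSolvable φ.range :=
        Group.isSolvable_of_surjective φ.rangeRestrict_surjective
      have hval : ∀ (g : H) (y : orbit H x₀), ((φ g y : orbit H x₀) : ZMod q ⊕ W)
          = (g : Equiv.Perm (ZMod q ⊕ W)) (y : ZMod q ⊕ W) := fun g y => rfl
      refine degree_le hq hcardX φ.range ?_ (φ ⟨R, hRH⟩) ⟨_, rfl⟩ ?_ ?_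
      · rintro ⟨a, g, rfl⟩ ⟨b, g', rfl⟩
        refine ⟨φ (g' * g⁻¹), ⟨_, rfl⟩, ?_⟩
        apply Subtype.ext
        rw [hval]
        show ((g' : Equiv.Perm (ZMod q ⊕ W)) * ((g : Equiv.Perm (ZMod q ⊕ W)))⁻¹) ((g : Equiv.Perm (ZMod q ⊕ W)) x₀) = _
        simp
        rfl
      · intro h8
        have h9 := congrArg (fun s => ((s ⟨x₀, mem_orbit_self x₀⟩ : orbit H x₀) : ZMod q ⊕ W)) h8
        simp only [Equiv.Perm.coe_one, id_eq] at h9
        rw [hval] at h9
        have h10 : R (Sum.inl 0) = Sum.inl 0 := h9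
        rw [hRinl] at h10
        have h11 := Sum.inl_injective h10
        simp at h11
      · rw [← map_pow]
        have : (⟨R, hRH⟩ : H) ^ q = 1 := Subtype.ext hRq
        rw [this, map_one]
    -- points of `W` in the orbit are fixed by `τ`
    have hWfix : ∀ w : W, (Sum.inr w : ZMod q ⊕ W) ∈ orbit H x₀ → τ w = w := by
      intro w hw
      by_contra hne
      have hTw : T (Sum.inr w) = Sum.inr (τ w) := rfl
      have hw2 : (Sum.inr (τ w) : ZMod q ⊕ W) ∈ orbit H x₀ := by
        obtain ⟨g, hg⟩ := hw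
        refine ⟨⟨T, hTH⟩ * g, ?_⟩
        show T ((g : Equiv.Perm (ZMod q ⊕ W)) x₀) = _
        have hg' : (g : Equiv.Perm (ZMod q ⊕ W)) x₀ = Sum.inr w := hg
        rw [hg', hTw]
      have hsub : (Set.range (Sum.inl : ZMod q → ZMod q ⊕ W)) ∪ {Sum.inr w, Sum.inr (τ w)}
          ⊆ orbit H x₀ := by
        rintro y (⟨a, rfl⟩ | rfl | rfl)
        · exact horb a
        · exact hw
        · exact hw2
      have h8 := Set.ncard_le_ncard hsub (Set.toFinite _)
      rw [Set.ncard_union_eq _ (Set.toFinite _) (Set.toFinite _), Set.ncard_pair,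
        ← Set.image_univ, Set.ncard_image_of_injective _ Sum.inl_injective, Set.ncard_univ,
        Nat.card_zmod, ← Nat.card_coe_set_eq] at h8
      · omega
      · intro h9
        exact hne (Sum.inr_injective h9).symm
      · rw [Set.disjoint_left]
        rintro y ⟨a, rfl⟩ (h9 | h9) <;> exact absurd h9 (by simp)
    -- hence `π` preserves the long cycle
    have hinl : ∀ a : ZMod q, ∃ b, π (Sum.inl a) = Sum.inl b := by
      intro a
      rcases h8 : π (Sum.inl a) with b | w
      · exact ⟨b, rfl⟩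
      · exfalso
        have h9 : (Sum.inr w : ZMod q ⊕ W) ∈ orbit H x₀ := by
          obtain ⟨g, hg⟩ := horb a
          refine ⟨⟨π, hπH⟩ * g, ?_⟩
          show π ((g : Equiv.Perm (ZMod q ⊕ W)) x₀) = _
          have hg' : (g : Equiv.Perm (ZMod q ⊕ W)) x₀ = Sum.inl a := hg
          rw [hg', h8]
        have h10 := h5 w (hWfix w h9)
        have h11 := hπ (Sum.inl a)
        rw [h8] at h11
        simp only [Sum.elim_inl, Sum.elim_inr] at h11
        have h12 := col_le q a
        omega
    have hmem : π ∈ (Equiv.Perm.sumCongrHom (ZMod q) W).range := by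
      apply Equiv.Perm.mem_sumCongrHom_range_of_perm_mapsTo_inl
      rintro _ ⟨a, rfl⟩
      obtain ⟨b, hb⟩ := hinl a
      exact ⟨b, hb.symm⟩
    obtain ⟨⟨π₁, π₂⟩, hπ12⟩ := hmem
    have hs' : Sol ((tr q, τ) : Equiv.Perm (ZMod q) × Equiv.Perm W) (π₁, π₂) := by
      apply Sol.of_map (Equiv.Perm.sumCongrHom (ZMod q) W) Equiv.Perm.sumCongrHom_injective
      rw [hπ12]
      exact hs
    have hs1 : Sol (tr q) π₁ := hs'.fst
    have hs2 : Sol τ π₂ := hs'.snd
    have hπ1 : ∀ a, π (Sum.inl a) = Sum.inl (π₁ a) := by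
      intro a; rw [← hπ12]; rfl
    have hπ2 : ∀ w, π (Sum.inr w) = Sum.inr (π₂ w) := by
      intro w; rw [← hπ12]; rfl
    have e2 : π₂ = 1 := by
      apply h7 _ _ hs2
      intro w
      have := hπ (Sum.inr w)
      rw [hπ2] at this
      simpa using this
    have e1 : π₁ = 1 := by
      obtain ⟨j, hj⟩ := conj_tr_of_sol hq hs1
      have hcol : ∀ a, col q (π₁ a) = col q a := by
        intro a
        have := hπ (Sum.inl a)
        rw [hπ1] at this
        simpa using this
      refine eq_one_of_conj hq hj ?_ ?_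
      · have h8 := hcol 0
        unfold col at h8
        simp only [if_true] at h8
        by_contra h9
        rw [if_neg h9] at h8
        split_ifs at h8
      · have h8 := hcol 1
        unfold col at h8
        have h10 : (1 : ZMod q) ≠ 0 := one_ne_zero
        rw [if_neg h10, if_pos rfl] at h8
        by_contra h9
        split_ifs at h8
        omega
    rw [← hπ12, e1, e2]
    have : ((1, 1) : Equiv.Perm (ZMod q) × Equiv.Perm W) = 1 := rfl
    rw [this, map_one]

theorem exists_prime (n : ℕ) (hn : 3 ≤ n) : ∃ q, q.Prime ∧ q ≠ 2 ∧ q ≤ n ∧ n < 2 * q := by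
  rcases Nat.lt_or_ge n 4 with h | h
  · exact ⟨3, Nat.prime_three, by omega, by omega, by omega⟩
  · obtain ⟨q, hq, h1, h2⟩ := Nat.exists_prime_lt_and_le_two_mul (n / 2) (by omega)
    exact ⟨q, hq, by omega, by omega, by omega⟩

theorem exists_rigid (n : ℕ) : ∀ (Ω : Type) [Finite Ω], Nat.card Ω = n →
    ∃ τ χ m, Rigid Ω τ χ m := by
  classical
  induction n using Nat.strong_induction_on with
  | _ n ih =>
    intro Ω _ hn
    rcases Nat.lt_or_ge n 3 with h | h
    · -- at most two points
      have e : Ω ≃ Fin n := Finite.equivFinOfCardEq hn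
      refine ⟨1, fun x => 3 + (e x : ℕ), 1, odd_one, by simp, ?_, ?_, ?_, ?_, ?_⟩
      · intro r hr _ hd
        exact hr.one_lt.ne' (Nat.dvd_one.1 hd)
      · intro x
        have := (e x).2
        show 3 + (e x : ℕ) < 5
        omega
      · intro x _
        show 3 ≤ 3 + (e x : ℕ)
        omega
      · intro x hx
        exact absurd rfl hx
      · intro π hπ _
        ext x
        have h1 := hπ x
        have h2 : e (π x) = e x := Fin.ext (by simpa using h1)
        exact e.injective h2
    · obtain ⟨q, hq, hq2, hqn, hnq⟩ := exists_prime n h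
      have := Fact.mk hq
      obtain ⟨τ, χ, m, hr⟩ := ih (n - q) (by have := hq.pos; omega) (Fin (n - q))
        (by simp)
      have h1 := rigid_sum hq hq2 (W := Fin (n - q)) (by simp; omega) hr
      have e : Ω ≃ ZMod q ⊕ Fin (n - q) := by
        apply (Finite.equivFinOfCardEq hn).trans
        symm
        apply Finite.equivFinOfCardEq
        rw [Nat.card_sum, Nat.card_zmod, Nat.card_fin]
        omega
      exact ⟨_, _, _, h1.congr e⟩

end Sgd
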