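import Pool.Agent.Lib.MP_c39626_al.Sym

/-!
# MP_c39626_al: the wreath product `S_p wr S_ι` acting on `ι × ZMod p`
-/

namespace Sgd

open MulAction

variable {ι : Type} {p : ℕ}

/-- `g` maps the block `i` to the block `j` by the permutation `ζ`. -/
def Acts (g : Equiv.Perm (ι × ZMod p)) (i j : ι) (ζ : Equiv.Perm (ZMod p)) : Prop :=
  ∀ a, g (i, a) = (j, ζ a)

theorem Acts.mul {g h : Equiv.Perm (ι × ZMod p)} {i j k : ι} {ζ ξ : Equiv.Perm (ZMod p)}
    (hg : Acts g i j ζ) (hh : Acts h j k ξ) : Acts (h * g) i k (ξ * ζ) := by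
  intro a
  rw [Equiv.Perm.mul_apply, hg, hh]
  rfl

theorem Acts.inv {g : Equiv.Perm (ι × ZMod p)} {i j : ι} {ζ : Equiv.Perm (ZMod p)}
    (hg : Acts g i j ζ) : Acts g⁻¹ j i ζ⁻¹ := by
  intro a
  rw [Equiv.Perm.inv_eq_iff_eq, hg]
  simp

theorem Acts.one (i : ι) : Acts (1 : Equiv.Perm (ι × ZMod p)) i i 1 := fun _ => rfl

theorem Acts.unique {g : Equiv.Perm (ι × ZMod p)} {i j k : ι} {ζ ξ : Equiv.Perm (ZMod p)}
    (h1 : Acts g i j ζ) (h2 : Acts g i k ξ) : j = k ∧ ζ = ξ := by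
  constructor
  · have := (h1 0).symm.trans (h2 0)
    exact congrArg Prod.fst this
  · ext a
    have := (h1 a).symm.trans (h2 a)
    exact congrArg Prod.snd this

theorem Acts.pow {g : Equiv.Perm (ι × ZMod p)} {i : ι} {ζ : Equiv.Perm (ZMod p)}
    (hg : Acts g i i ζ) (n : ℕ) : Acts (g ^ n) i i (ζ ^ n) := by
  induction n with
  | zero => simpa using Acts.one i
  | succ n ih => rw [pow_succ', pow_succ']; exact ih.mul hg

/-- The wreath product: all permutations of `ι × ZMod p` preserving the partition into blocks. -/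
def wreath (ι : Type) (p : ℕ) : Subgroup (Equiv.Perm (ι × ZMod p)) where
  carrier := {g | ∀ u v, (g u).1 = (g v).1 ↔ u.1 = v.1}
  one_mem' := fun u v => Iff.rfl
  mul_mem' := by
    intro a b ha hb u v
    exact (ha _ _).trans (hb _ _)
  inv_mem' := by
    intro a ha u v
    have := ha (a⁻¹ u) (a⁻¹ v)
    rw [show a (a⁻¹ u) = u from a.apply_symm_apply u,
      show a (a⁻¹ v) = v from a.apply_symm_apply v] at this
    exact this.symm

theorem mem_wreath {g : Equiv.Perm (ι × ZMod p)} :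
    g ∈ wreath ι p ↔ ∀ u v, (g u).1 = (g v).1 ↔ u.1 = v.1 := Iff.rfl

theorem exists_acts [NeZero p] {g : Equiv.Perm (ι × ZMod p)} (hg : g ∈ wreath ι p) (i : ι) :
    ∃ ζ, Acts g i (g (i, 0)).1 ζ := by
  have h1 : ∀ a, (g (i, a)).1 = (g (i, 0)).1 := fun a => (hg _ _).2 rfl
  have hinj : Function.Injective (fun a : ZMod p => (g (i, a)).2) := by
    intro a b hab
    have : g (i, a) = g (i, b) := Prod.ext ((h1 a).trans (h1 b).symm) hab
    exact congrArg Prod.snd (g.injective this)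
  refine ⟨Equiv.ofBijective _ (Finite.injective_iff_bijective.1 hinj), fun a => ?_⟩
  exact Prod.ext (h1 a) rfl

/-- The permutation of the blocks. -/
def top (ι : Type) (p : ℕ) : wreath ι p →* Equiv.Perm ι where
  toFun g :=
    { toFun := fun i => ((g : Equiv.Perm (ι × ZMod p)) (i, 0)).1
      invFun := fun i => ((g : Equiv.Perm (ι × ZMod p))⁻¹ (i, 0)).1
      left_inv := by
        intro i
        have h1 := (((wreath ι p).inv_mem g.2)
          (((g : Equiv.Perm (ι × ZMod p)) (i, 0)).1, 0) ((g : Equiv.Perm (ι × ZMod p)) (i, 0))).2 rfl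
        simpa using h1
      right_inv := by
        intro i
        have h1 := (g.2 (((g : Equiv.Perm (ι × ZMod p))⁻¹ (i, 0)).1, 0)
          ((g : Equiv.Perm (ι × ZMod p))⁻¹ (i, 0))).2 rfl
        simpa using h1 }
  map_one' := by ext i; rfl
  map_mul' := by
    intro g h
    ext i
    exact (g.2 ((h : Equiv.Perm (ι × ZMod p)) (i, 0))
      (((h : Equiv.Perm (ι × ZMod p)) (i, 0)).1, 0)).2 rfl

theorem top_apply (g : wreath ι p) (i : ι) :
    top ι p g i = ((g : Equiv.Perm (ι × ZMod p)) (i, 0)).1 := rfl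

theorem exists_acts_top [NeZero p] (g : wreath ι p) (i : ι) :
    ∃ ζ, Acts (g : Equiv.Perm (ι × ZMod p)) i (top ι p g i) ζ :=
  exists_acts g.2 i

/-- The group induced on the block `i` by the elements of `H` fixing it. -/
def loc (H : Subgroup (Equiv.Perm (ι × ZMod p))) (i : ι) : Subgroup (Equiv.Perm (ZMod p)) where
  carrier := {ζ | ∃ g ∈ H, Acts g i i ζ}
  one_mem' := ⟨1, H.one_mem, Acts.one i⟩
  mul_mem' := by
    rintro a b ⟨g, hg, hga⟩ ⟨h, hh, hhb⟩
    exact ⟨g * h, H.mul_mem hg hh, hhb.mul hga⟩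
  inv_mem' := by
    rintro a ⟨g, hg, hga⟩
    exact ⟨g⁻¹, H.inv_mem hg, hga.inv⟩

/-- The stabiliser of the block `i` in `H`. -/
def stab (H : Subgroup (Equiv.Perm (ι × ZMod p))) (i : ι) :
    Subgroup (Equiv.Perm (ι × ZMod p)) where
  carrier := {g | g ∈ H ∧ ∃ ζ, Acts g i i ζ}
  one_mem' := ⟨H.one_mem, 1, Acts.one i⟩
  mul_mem' := by
    rintro a b ⟨ha, ζ, hζ⟩ ⟨hb, ξ, hξ⟩
    exact ⟨H.mul_mem ha hb, _, hξ.mul hζ⟩
  inv_mem' := by
    rintro a ⟨ha, ζ, hζ⟩
    exact ⟨H.inv_mem ha, _, hζ.inv⟩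

/-- Restriction to the block. -/
noncomputable def stabHom (H : Subgroup (Equiv.Perm (ι × ZMod p))) (i : ι) :
    stab H i →* loc H i where
  toFun g := ⟨g.2.2.choose, g, g.2.1, g.2.2.choose_spec⟩
  map_one' := by
    apply Subtype.ext
    exact ((1 : stab H i).2.2.choose_spec.unique (Acts.one i)).2
  map_mul' g h := by
    apply Subtype.ext
    exact ((g * h).2.2.choose_spec.unique (h.2.2.choose_spec.mul g.2.2.choose_spec)).2

theorem stabHom_surjective (H : Subgroup (Equiv.Perm (ι × ZMod p))) (i : ι) :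
    Function.Surjective (stabHom H i) := by
  rintro ⟨ζ, g, hg, hζ⟩
  refine ⟨⟨g, hg, ζ, hζ⟩, ?_⟩
  apply Subtype.ext
  exact ((⟨g, hg, ζ, hζ⟩ : stab H i).2.2.choose_spec.unique hζ).2

theorem solvable_loc (H : Subgroup (Equiv.Perm (ι × ZMod p))) (i : ι)
    (h : Group.IsSolvable H) : Group.IsSolvable (loc H i) := by
  have h1 : Group.IsSolvable (stab H i) := solvable_of_le (fun g hg => hg.1) h
  exact Group.isSolvable_of_surjective (stabHom_surjective H i)

/-- The basic step: an element generating a soluble group together with `x` respects the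
`p`-cycles induced by powers of `x` on the blocks. -/
theorem conj_of_sol [NeZero p] (hp : p.Prime) {x z : Equiv.Perm (ι × ZMod p)} (h : Sol x z)
    {i j : ι} {ζ ξi ξj : Equiv.Perm (ZMod p)} (hz : Acts z i j ζ)
    {k l : ℕ} (hi : Acts (x ^ k) i i ξi) (hj : Acts (x ^ l) j j ξj)
    (hip : ξi ^ p = 1) (hjp : ξj ^ p = 1) (hj1 : ξj ≠ 1) :
    ∃ n : ℕ, ζ * ξi * ζ⁻¹ = ξj ^ n := by
  have hs : Group.IsSolvable (Subgroup.closure ({x, z} : Set (Equiv.Perm (ι × ZMod p)))) := h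
  set H := Subgroup.closure ({x, z} : Set (Equiv.Perm (ι × ZMod p)))
  have hx : x ∈ H := Subgroup.subset_closure (by simp)
  have hzH : z ∈ H := Subgroup.subset_closure (by simp)
  have h1 : ζ * ξi * ζ⁻¹ ∈ loc H j :=
    ⟨z * x ^ k * z⁻¹, H.mul_mem (H.mul_mem hzH (H.pow_mem hx k)) (H.inv_mem hzH), by
      rw [mul_assoc, mul_assoc]
      exact (hz.inv.mul hi).mul hz⟩
  have h2 : ξj ∈ loc H j := ⟨x ^ l, H.pow_mem hx l, hj⟩
  have := solvable_loc H j hs
  refine galois hp (Nat.card_zmod p) (loc H j) ξj h2 hj1 hjp _ h1 ?_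
  rw [conj_pow, hip]
  simp

/-! ### Labels -/

/-- `c` normalises the translations. -/
def IsAff (p : ℕ) (c : Equiv.Perm (ZMod p)) : Prop := ∃ n : ℕ, c * tr p * c⁻¹ = tr p ^ n

/-- The permutations `g i` represent different double cosets of the affine group, of full size. -/
def Labels {κ : Type} (p : ℕ) (g : κ → Equiv.Perm (ZMod p)) : Prop :=
  ∀ i j c c', IsAff p c → IsAff p c' → c * g i = g j * c' → i = j ∧ c = 1

/-- Every `p`-cycle is conjugate to the translation. -/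
theorem exists_conj_tr (hp : p.Prime) (Y : Equiv.Perm (ZMod p)) (h1 : Y ≠ 1) (h2 : Y ^ p = 1) :
    ∃ U : Equiv.Perm (ZMod p), Y = U * tr p * U⁻¹ := by
  have := Fact.mk hp
  have hper : ∀ n : ℕ, (Y ^ (n % p)) 0 = (Y ^ n) 0 := by
    intro n
    conv_rhs => rw [← Nat.div_add_mod n p, pow_add, pow_mul, h2, one_pow, one_mul]
  have hsurj : Function.Surjective (fun a : ZMod p => (Y ^ a.val) 0) := by
    intro b
    obtain ⟨i, hi⟩ := trans_of_card hp (Nat.card_zmod p) Y h1 h2 0 b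
    refine ⟨(i : ZMod p), ?_⟩
    show (Y ^ (i : ZMod p).val) 0 = b
    rw [ZMod.val_natCast, hper, hi]
  have hbij := Finite.injective_iff_bijective.1 (Finite.injective_iff_surjective.2 hsurj)
  refine ⟨Equiv.ofBijective _ hbij, ?_⟩
  rw [eq_mul_inv_iff_mul_eq]
  ext a
  show Y ((Y ^ a.val) 0) = (Y ^ (a + 1 : ZMod p).val) 0
  rw [ZMod.val_add, hper, ZMod.val_one'', pow_add, pow_one]
  · rw [← Equiv.Perm.mul_apply, ← pow_succ', pow_succ]
  · exact hp.one_lt.ne'

/-- Block diagonal permutations. -/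
def diag (ν : ι → Equiv.Perm (ZMod p)) : Equiv.Perm (ι × ZMod p) :=
  Equiv.prodShear (Equiv.refl ι) ν

theorem diag_acts (ν : ι → Equiv.Perm (ZMod p)) (i : ι) : Acts (diag ν) i i (ν i) :=
  fun _ => rfl

theorem conj_one_or {U : Equiv.Perm (ZMod p)} (hp : p.Prime) :
    U * tr p * U⁻¹ ≠ 1 ∧ (U * tr p * U⁻¹) ^ p = 1 := by
  constructor
  · intro h
    apply tr_ne_one hp
    have := mul_inv_eq_iff_eq_mul.1 h
    rw [one_mul] at this
    exact mul_eq_left.1 this
  · rw [conj_pow, tr_pow_self]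
    simp

theorem conj_aff {U V ζ : Equiv.Perm (ZMod p)} {n : ℕ}
    (h : ζ * (U * tr p * U⁻¹) * ζ⁻¹ = (V * tr p * V⁻¹) ^ n) : IsAff p (V⁻¹ * ζ * U) := by
  refine ⟨n, ?_⟩
  rw [conj_pow] at h
  have h1 : V⁻¹ * ζ * U * tr p * (V⁻¹ * ζ * U)⁻¹ = V⁻¹ * (ζ * (U * tr p * U⁻¹) * ζ⁻¹) * V := by
    group
  rw [h1, h]
  group

/-- **Criterion**: no common neighbour. -/
theorem no_common [Finite ι] [NeZero p] (hp : p.Prime) {κ : Type} (g : κ → Equiv.Perm (ZMod p))
    (hg : Labels p g) (χ : ι → κ) (y : wreath ι p)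
    (hret : ∀ i, ∃ (k : ℕ) (Y : Equiv.Perm (ZMod p)),
      Acts ((y : Equiv.Perm (ι × ZMod p)) ^ k) i i Y ∧ Y ≠ 1 ∧ Y ^ p = 1) :
    ∃ W : ι → Equiv.Perm (ZMod p), ∀ z : wreath ι p,
      Sol (diag fun i => W i * tr p * (W i)⁻¹) (z : Equiv.Perm (ι × ZMod p)) →
      Sol (y : Equiv.Perm (ι × ZMod p)) z →
      (∀ i, χ (top ι p z i) = χ i) ∧ Sol (top ι p y) (top ι p z) ∧
        ((top ι p z = 1) → z = 1) := by
  choose k Y hY hY1 hYp using hret
  choose U hU using fun i => exists_conj_tr hp (Y i) (hY1 i) (hYp i)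
  refine ⟨fun i => U i * (g (χ i))⁻¹, fun z h1 h2 => ?_⟩
  have key : ∀ i ζ, Acts (z : Equiv.Perm (ι × ZMod p)) i (top ι p z i) ζ →
      χ i = χ (top ι p z i) ∧
      (U (top ι p z i) * (g (χ (top ι p z i)))⁻¹)⁻¹ * ζ * (U i * (g (χ i))⁻¹) = 1 := by
    intro i ζ hζ
    set j := top ι p z i with hj
    obtain ⟨n1, hn1⟩ := conj_of_sol hp h1 hζ (k := 1) (l := 1)
      (by rw [pow_one]; exact diag_acts _ i) (by rw [pow_one]; exact diag_acts _ j)
      (conj_one_or hp).2 (conj_one_or hp).2 (conj_one_or hp).1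
    obtain ⟨n2, hn2⟩ := conj_of_sol hp h2 hζ (hY i) (hY j) (hYp i) (hYp j) (hY1 j)
    have ha1 := conj_aff hn1
    have ha2 : IsAff p ((U j)⁻¹ * ζ * U i) := by
      apply conj_aff (n := n2)
      rw [← hU i, ← hU j]
      exact hn2
    have h3 := hg (χ i) (χ j) _ _ ha1 ha2 (by group)
    exact ⟨h3.1, h3.2⟩
  have hcol : ∀ i, χ (top ι p z i) = χ i := by
    intro i
    obtain ⟨ζ, hζ⟩ := exists_acts_top z i
    exact (key i ζ hζ).1.symm
  refine ⟨hcol, ?_, ?_⟩
  · have h3 : Sol y z := Sol.of_map (wreath ι p).subtype (wreath ι p).subtype_injective h2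
    exact h3.map (top ι p)
  · intro htop
    apply Subtype.ext
    ext ⟨i, a⟩ : 1
    obtain ⟨ζ, hζ⟩ := exists_acts_top z i
    have h3 := (key i ζ hζ).2
    have h4 : top ι p z i = i := by rw [htop]; rfl
    rw [h4] at h3 hζ
    have h5 : ζ = 1 := by
      have h6 : ζ = (U i * (g (χ i))⁻¹) *
          ((U i * (g (χ i))⁻¹)⁻¹ * ζ * (U i * (g (χ i))⁻¹)) * (U i * (g (χ i))⁻¹)⁻¹ := by group
      rw [h6, h3]
      group
    rw [hζ a, h5]
    rfl

end Sgd
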